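import Pool.Agent.Work.MP_3617d5_ea.Interface

/-!
# MP_3617d5_al, THEOREM EA: the assembly
-/

set_option autoImplicit false

open Nat

universe u

namespace Pool.EA

open Pool.NR

/-- the subgroup of `K` which corresponds to `1 + J` -/
def SKE_L {K : Type u} [Group K] {R : Type u} [NonUnitalRing R] (i : Adj R →* K) {S : Type u} [Ring S]
    (F : Adj R →* Sˣ) (H : Subgroup Sˣ) : Subgroup K := (H.comap F).map i

theorem SKE_nil {K : Type u} [Group K] {R : Type u} [NonUnitalRing R] {p : ℕ} (hp : p.Prime) (h2 : p ≠ 2)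
    (hK : IsPGroup p K) (i : Adj R →* K) (hi : Function.Injective i) {m : ℕ} {S : Type u} [Ring S] {I : AddSubgroup S}
    {F : Adj R →* Sˣ} {Φ : K → RingAut S} (hA : Act i m I F Φ) : ∀ b ∈ I, IsNilpotent b := by
  have hid : IdI I := (hA.good 1).idl
  have hun : ∀ b ∈ I, IsUnit (1 + b) := (hA.good 1).uni
  have hord : ∀ x : Sˣ, (x : S) - 1 ∈ I → ∃ k, x ^ p ^ k = 1 := by
    intro x hx
    obtain ⟨u, rfl⟩ := (hA.mem x).1 hx
    obtain ⟨k, hk⟩ := hK (i u)
    refine ⟨k, ?_⟩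
    rw [← map_pow]
    have h3 : u ^ p ^ k = 1 := hi (by rw [map_pow, hk, map_one])
    rw [h3, map_one]
  intro b hb
  have hu := hun b hb
  have hx : ((hu.unit : Sˣ) : S) - 1 = b := by
    rw [IsUnit.unit_spec, add_sub_cancel_left]
  obtain ⟨e, he⟩ := hord hu.unit (by rw [hx]; exact hb)
  obtain ⟨k, hk⟩ := p_PT3 S I p hp h2 hid hun hord b hb
  have := p_UP3 S p k e hp hu.unit he (by rw [hx]; exact hk)
  rwa [hx] at this

/-- every element of `K` lies in a soluble normal subgroup -/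
theorem SKE_core (hGCH : Stmt_GCH.{u}) (hACT : Stmt_ACT.{u}) (hINV : Stmt_INV.{u}) (hGRH : Stmt_GRH.{u})
    {p m : ℕ} (hp : p.Prime) (h2 : p ≠ 2) (h1 : 1 ≤ m) (hm : m < p) (K : Type u) [Group K] (hK : IsPGroup p K)
    (hE : Engel m K) (R : Type u) [NonUnitalRing R] (hR : ∀ a : R, IsQuasiregular a) (i : Adj R →* K)
    (hi : FiniteExt K R i) (g : K) : ∃ C : Subgroup K, C.Normal ∧ Group.IsSolvable C ∧ g ∈ C := by
  obtain ⟨S, hS, I, F, Φ, hA⟩ := hACT K R i m hE hR hi
  have hnil := SKE_nil hp h2 hK i hi.injective hA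
  have hid : IdI I := (hA.good 1).idl
  obtain ⟨e, he⟩ := hK g
  obtain ⟨J₀, j1, j2, j3, -, j5⟩ := hGCH S m p e I (Φ g) h1 hp hm (hA.good g) hnil (hA.ord g _ he)
  have := hi.normal
  have := hi.finite
  obtain ⟨J, k1, k2, k3, k4, k5⟩ := hINV S K I J₀ i.range Φ hi.normal hi.finite hid (fun g => (hA.good g).inv) hA.mul (by
    rintro _ ⟨u, rfl⟩
    exact ⟨F u, hA.inn u⟩) j1 j2 j3
  obtain ⟨H, h3, h4, h5⟩ := p_GEN S J k1 k3
  have hmemL : ∀ x : K, x ∈ SKE_L i F H ↔ ∃ u, i u = x ∧ ((F u : Sˣ) : S) - 1 ∈ J := by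
    intro x
    constructor
    · rintro ⟨u, hu, rfl⟩
      exact ⟨u, rfl, (h5 _).1 hu⟩
    · rintro ⟨u, rfl, hu⟩
      exact ⟨u, (h5 _).2 hu, rfl⟩
  have hconj : ∀ (k : K) (u : Adj R), ∃ v, i v = k⁻¹ * i u * k := by
    intro k u
    have h6 := hi.normal.conj_mem (i u) ⟨u, rfl⟩ k⁻¹
    rw [inv_inv] at h6
    exact h6
  refine hGRH K i.range (SKE_L i F H) ?_ ?_ ?_ ?_ g ?_
  · constructor
    intro x hx k
    obtain ⟨u, rfl, hu⟩ := (hmemL x).1 hx
    obtain ⟨v, hv⟩ := hconj k⁻¹ u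
    have h7 := hA.conj k⁻¹ u v hv
    rw [inv_inv] at hv
    refine (hmemL _).2 ⟨v, hv, ?_⟩
    rw [h7]
    exact (k5 k⁻¹ _).2 hu
  · intro x hx
    obtain ⟨u, rfl, -⟩ := (hmemL x).1 hx
    exact ⟨u, rfl⟩
  · have h8 : Group.IsSolvable H := by
      have := h4
      infer_instance
    have h9 : Group.IsSolvable (H.comap F) := by
      have := h8
      have hinj : Function.Injective ((F.comp (H.comap F).subtype).codRestrict H (fun x => x.2)) := by
        intro a b hab
        apply Subtype.ext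
        exact hA.inj (congrArg Subtype.val hab)
      exact Group.isSolvable_of_isSolvable_injective hinj
    have := h9
    have hsur : Function.Surjective (i.subgroupMap (H.comap F)) := MonoidHom.subgroupMap_surjective _ _
    exact Group.isSolvable_of_surjective hsur
  · have h10 : IsPGroup p (K ⧸ i.range) := hK.to_quotient _
    have : Fact p.Prime := ⟨hp⟩
    have : Finite (K ⧸ i.range) := Subgroup.finite_quotient_of_finiteIndex
    have : Group.IsNilpotent (K ⧸ i.range) := h10.isNilpotent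
    infer_instance
  · rintro _ ⟨u, rfl⟩
    obtain ⟨v, hv⟩ := hconj g u
    have h7 := hA.conj g u v hv
    refine (hmemL _).2 ⟨u⁻¹ * v, ?_, ?_⟩
    · rw [map_mul, map_inv, hv]
      group
    · have h11 : ((F (u⁻¹ * v) : Sˣ) : S) - 1 = (((F u)⁻¹ : Sˣ) : S) * (((F v : Sˣ) : S) - ((F u : Sˣ) : S)) := by
        rw [map_mul, map_inv, Units.val_mul, mul_sub, Units.inv_mul]
      rw [h11]
      refine k1.left _ _ ?_
      have h12 : ((F v : Sˣ) : S) - ((F u : Sˣ) : S) = (dl (Φ g) ^ 1) (((F u : Sˣ) : S) - 1) := by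
        rw [pow_one, dl_apply, ← h7]
        abel
      rw [h12]
      exact k4 (j5 _ ((hA.mem _).2 ⟨u, rfl⟩))

theorem SKE_main (hGCH : Stmt_GCH.{u}) (hACT : Stmt_ACT.{u}) (hINV : Stmt_INV.{u}) (hGRH : Stmt_GRH.{u})
    (p n m : ℕ) (hp : p.Prime) (hn : n < p) (hm : m < p) (G : Type u) [Group G] (hG : IsPGroup p G) (hGE : Engel n G)
    (K : Type u) [Group K] (hK : IsPGroup p K) (hE : Engel m K) (R : Type u) [NonUnitalRing R]
    (hR : ∀ a : R, IsQuasiregular a) (i : Adj R →* K) (hi : FiniteExt K R i) (f : G →* K)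
    (hf : Group.IsSolvable f.ker) : Fitting G := by
  refine p_PU2 (p_SOL (p_EXT (p_NAC p_ABE))) G K p n hp hn hG hGE f hf ?_
  intro g
  by_cases h2 : p = 2
  · have h1 : Engel 1 K := by
      subst h2
      interval_cases m
      · exact SK_mono hE
      · exact hE
    refine ⟨⊤, inferInstance, ?_, trivial⟩
    have hcomm : ∀ x y : K, x * y = y * x := by
      intro x y
      have h3 : x⁻¹ * y⁻¹ * x * y = 1 := h1 y x
      calc x * y = y * x * (x⁻¹ * y⁻¹ * x * y) := by group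
        _ = y * x := by rw [h3, mul_one]
    letI : CommGroup K := { (inferInstance : Group K) with mul_comm := hcomm }
    have : Group.IsSolvable (⊤ : Subgroup K) := by infer_instance
    exact this
  · obtain ⟨m', h1, h3, h4⟩ := SK_one hp hm hE
    exact SKE_core hGCH hACT hINV hGRH hp h2 h1 h3 K hK h4 R hR i hi (f g)

end Pool.EA
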