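import Pool.Agent.Work.MP_3617d5_ea.Interface

/-! # Block ACT (helper25) -/

set_option autoImplicit false

open Nat

universe u

namespace Pool.EA

open Pool.NR

theorem p_ACT (hUNE : Stmt_UNE.{u}) : Stmt_ACT.{u} := by
  intro K _ R _ i m hE hR hX
  obtain ⟨S, _, I, ι, F, Φ₀, hI, huni, hιinj, hιmem, hιsur, hιmul, hιadd, hFinj, hFmem, hFval,
    hΦι⟩ := hUNE R hR
  choose ψ hψ using hX.ring
  have hF1 : ∀ u : Adj R, ((F u : Sˣ) : S) - 1 = ι (u : PreQuasiregular R).val := fun u => by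
    rw [hFval, add_sub_cancel_left]
  have hb : ∀ b ∈ I, ∃ u : Adj R, ((F u : Sˣ) : S) - 1 = b := by
    intro b hb
    obtain ⟨x, hx⟩ := huni b hb
    have h1 : (x : S) - 1 = b := by rw [hx, add_sub_cancel_left]
    obtain ⟨u, hu⟩ := (hFmem x).1 (by rw [h1]; exact hb)
    exact ⟨u, by rw [hu, h1]⟩
  have hn : ∀ (g : K) (u : Adj R), ∃ v : Adj R, i v = g⁻¹ * i u * g := by
    intro g u
    have h1 := hX.normal.conj_mem (i u) ⟨u, rfl⟩ g⁻¹
    rw [inv_inv] at h1
    obtain ⟨v, hv⟩ := h1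
    exact ⟨v, hv⟩
  have hconj : ∀ (g : K) (u v : Adj R), i v = g⁻¹ * i u * g →
      ((F v : Sˣ) : S) - 1 = Φ₀ (ψ g) (((F u : Sˣ) : S) - 1) := by
    intro g u v h
    rw [hF1, hF1, hΦι, hψ g u v h]
  have hone : ∀ b ∈ I, Φ₀ (ψ 1) b = b := by
    intro b hbI
    obtain ⟨u, rfl⟩ := hb b hbI
    exact (hconj 1 u u (by rw [inv_one, one_mul, mul_one])).symm
  have hmul : ∀ g h : K, ∀ b ∈ I, Φ₀ (ψ (g * h)) b = Φ₀ (ψ h) (Φ₀ (ψ g) b) := by
    intro g h b hbI
    obtain ⟨u, rfl⟩ := hb b hbI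
    obtain ⟨v, hv⟩ := hn g u
    obtain ⟨w, hw⟩ := hn h v
    rw [← hconj g u v hv, ← hconj h v w hw]
    refine (hconj (g * h) u w ?_).symm
    rw [hw, hv]
    group
  have hinv : ∀ g, InvI I (Φ₀ (ψ g)) := by
    intro g b
    constructor
    · intro h
      obtain ⟨a, ha⟩ := hιsur _ h
      have h1 : Φ₀ (ψ g) b = Φ₀ (ψ g) (ι ((ψ g).symm a)) := by
        rw [hΦι, RingEquiv.apply_symm_apply, ha]
      rw [(Φ₀ (ψ g)).injective h1]
      exact hιmem _
    · intro h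
      obtain ⟨a, rfl⟩ := hιsur _ h
      rw [hΦι]
      exact hιmem _
  have hpow : ∀ (g : K) (j : ℕ), ∀ b ∈ I, (Φ₀ (ψ g) ^ j) b = Φ₀ (ψ (g ^ j)) b := by
    intro g j
    induction j with
    | zero =>
      intro b hbI
      rw [pow_zero, pow_zero, hone b hbI]
      rfl
    | succ j ih =>
      intro b hbI
      rw [pow_succ, RingAut.mul_apply, ih _ ((hinv g b).2 hbI), ← hmul g (g ^ j) b hbI, ← _root_.pow_succ']
  have hit : ∀ (g : K) (j n : ℕ) (w : Adj R), ∃ w' : Adj R,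
      i w' = (fun z : K => z⁻¹ * (g ^ j)⁻¹ * z * g ^ j)^[n] (i w) ∧
      F w' = (fun z : Sˣ => z⁻¹ * Units.map ((Φ₀ (ψ g) ^ j : RingAut S) : S →+* S) z)^[n] (F w) := by
    intro g j n
    induction n with
    | zero => intro w; exact ⟨w, rfl, rfl⟩
    | succ n ih =>
      intro w
      obtain ⟨w', h1, h2⟩ := ih w
      obtain ⟨v, hv⟩ := hn (g ^ j) w'
      refine ⟨w'⁻¹ * v, ?_, ?_⟩
      · rw [Function.iterate_succ_apply', ← h1, map_mul, map_inv, hv]
        group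
      · rw [Function.iterate_succ_apply', ← h2, map_mul, map_inv]
        congr 1
        refine Units.ext ?_
        have h3 := hconj (g ^ j) w' v hv
        rw [← hpow g j _ ((hFmem _).2 ⟨w', rfl⟩), map_sub, map_one] at h3
        exact sub_left_injective h3
  refine ⟨S, inferInstance, I, F, fun g => Φ₀ (ψ g), hFinj, hFmem, ?_, hmul, ?_, hconj, ?_⟩
  · intro g
    refine ⟨hI, huni, ?_, hinv g, ?_⟩
    · intro x y hx hy
      obtain ⟨u, rfl⟩ := (hFmem x).1 hx
      obtain ⟨v, rfl⟩ := (hFmem y).1 hy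
      rw [← SK_iter F u m v]
      have h1 : (fun z : Adj R => z⁻¹ * u⁻¹ * z * u)^[m] v = 1 := by
        apply hX.injective
        rw [SK_iter i u m v, map_one]
        exact hE (i u) (i v)
      rw [h1, map_one]
    · intro j x hx
      obtain ⟨w, rfl⟩ := (hFmem x).1 hx
      obtain ⟨w', h1, h2⟩ := hit g j m w
      rw [hE (g ^ j) (i w)] at h1
      have h3 : w' = 1 := hX.injective (by rw [h1, map_one])
      rw [h3, map_one] at h2
      exact h2.symm
  · intro u b hbI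
    obtain ⟨w, rfl⟩ := hb b hbI
    rw [← hconj (i u) w (u⁻¹ * w * u) (by rw [map_mul, map_mul, map_inv])]
    rw [map_mul, map_mul, map_inv, Units.val_mul, Units.val_mul, mul_sub, sub_mul, mul_one,
      Units.inv_mul]
  · intro g e hge b hbI
    rw [hpow g e b hbI, hge, hone b hbI]

end Pool.EA
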