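import Pool.Agent.Work.MP_3617d5_ea.Basic

/-!
# MP_3617d5_al, THEOREM EA: block BDC
-/

set_option autoImplicit false

universe u

namespace Pool.EA

open Pool.NR

theorem BDC_arith (n p k : ℕ) (hp : 2 ≤ p) (hk : 2 * n + 6 ≤ k) : 2 ^ n * (k - 1) + 1 ≤ p ^ (k - 2) := by
  obtain ⟨d, rfl⟩ := Nat.exists_eq_add_of_le hk
  have h1 : 2 * n + 6 + d - 1 = 2 * n + 5 + d := by omega
  have h2 : 2 * n + 6 + d - 2 = n + (4 + (n + d)) := by omega
  rw [h1, h2]
  have h3 : n + d < 2 ^ (n + d) := Nat.lt_two_pow_self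
  have h4 : 2 * n + 6 + d ≤ 2 ^ (4 + (n + d)) := by
    rw [pow_add]
    omega
  have h5 : 1 ≤ 2 ^ n := Nat.one_le_two_pow
  calc 2 ^ n * (2 * n + 5 + d) + 1 ≤ 2 ^ n * (2 * n + 5 + d) + 2 ^ n := by omega
    _ = 2 ^ n * (2 * n + 6 + d) := by ring
    _ ≤ 2 ^ n * 2 ^ (4 + (n + d)) := Nat.mul_le_mul_left _ h4
    _ = 2 ^ (n + (4 + (n + d))) := (pow_add _ _ _).symm
    _ ≤ p ^ (n + (4 + (n + d))) := Nat.pow_le_pow_left hp _

theorem BDC_zw {S : Type u} [Ring S] (c : S) (l l' : List S) (b : S) :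
    ((l ++ b :: l').map (c * ·)).prod = zw c l * b * (l'.map (c * ·)).prod := by
  induction l with
  | nil => simp [zw]
  | cons a l ih =>
    rw [List.cons_append, List.map_cons, List.prod_cons, ih, zw]
    noncomm_ring

theorem BDC_Pw {S : Type u} [Ring S] {c : S} {j q : ℕ} (h : ∀ l : List S, l.length = j → zw c l = 0) (hq : j + 1 ≤ q) :
    Pw (rS c) q = ⊥ := by
  rw [eq_bot_iff, Pw_le_iff]
  intro l h1 h2
  rw [AddSubgroup.mem_bot]
  have h3 : ∃ a : List S, l = a.map (c * ·) := by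
    clear h1
    induction l with
    | nil => exact ⟨[], rfl⟩
    | cons b l ih =>
      obtain ⟨a, ha⟩ := ih fun x hx => h2 x (by simp [hx])
      obtain ⟨x, hx⟩ := mem_rS.1 (h2 b (by simp))
      exact ⟨x :: a, by rw [List.map_cons, ← ha, hx]⟩
  obtain ⟨a, rfl⟩ := h3
  rw [List.length_map] at h1
  have h4 : (a.take j).length = j := by
    rw [List.length_take]
    omega
  have h5 : a.drop j ≠ [] := by
    intro h6
    have := congrArg List.length h6
    rw [List.length_drop, List.length_nil] at this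
    omega
  obtain ⟨b, l', hb⟩ := List.exists_cons_of_ne_nil h5
  rw [← List.take_append_drop j a, hb, BDC_zw, h _ h4, zero_mul, zero_mul]

theorem p_BDC (hWRD : Stmt_WRD.{u}) (hLEV : Stmt_LEV.{u}) : Stmt_BDC.{u} := by
  intro n p hn hp hnp
  have hp2 : 2 ≤ p := hp.two_le
  refine ⟨2 ^ n * (2 * n + 6 - 1) + 1 + 1, ?_⟩
  intro S _ I ψ hG hD
  have hid := hG.good.idl
  have hI : ∀ c, (∃ w ∈ I, (dl ψ ^ (p - 1)) w = c) → c ∈ I ∧ ψ c = c := by
    rintro c ⟨w, hw, rfl⟩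
    refine ⟨dl_mem (inv_mem hG.good.inv) hw, ?_⟩
    rw [← dl_eq_zero, ← dl_succ', Nat.sub_add_cancel hp.one_lt.le]
    exact hD w hw
  have hPw : ∀ c ∈ I, ∀ k, 1 ≤ k → c ^ k = 0 → ∀ q, 2 ^ n * (k - 1) + 1 ≤ q → Pw (rS c) q = ⊥ := by
    intro c hc k hk hck q hq
    exact BDC_Pw (hWRD n p hn hp hnp k S I hid hG.nil hG.good.eng hG.chp c hc hk hck) hq
  have hK : ∀ c, (∃ w ∈ I, (dl ψ ^ (p - 1)) w = c) → c ^ (2 * n + 6) = 0 := by
    intro c hc
    obtain ⟨hcI, hcψ⟩ := hI c hc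
    classical
    have hnil : ∃ k, c ^ k = 0 := hG.nil c hcI
    by_contra hne
    have h1 : 2 * n + 6 < Nat.find hnil := by
      by_contra h2
      exact hne (pow_eq_zero_of_le (not_lt.1 h2) (Nat.find_spec hnil))
    have h2 := hLEV S n p I ψ hp hnp hG hD (Nat.find hnil - 2) c hcI hcψ
      (hPw c hcI (Nat.find hnil) (by omega) (Nat.find_spec hnil) _ (BDC_arith n p _ hp2 h1.le))
      (List.replicate (Nat.find hnil - 2) c) List.length_replicate (by
        intro d hd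
        rw [List.eq_of_mem_replicate hd]
        exact hc)
    rw [List.prod_replicate, ← pow_succ'] at h2
    exact Nat.find_min hnil (by omega) h2
  intro m hm hmem
  match m, hm, hmem with
  | c :: m', hm, hmem =>
    have hc := hmem c (by simp)
    obtain ⟨hcI, hcψ⟩ := hI c hc
    rw [List.prod_cons]
    refine hLEV S n p I ψ hp hnp hG hD (2 ^ n * (2 * n + 6 - 1) + 1) c hcI hcψ ?_ m' (by simpa using hm) fun d hd => hmem d (by simp [hd])
    exact hPw c hcI (2 * n + 6) (by omega) (hK c hc) _ (Nat.lt_pow_self hp.one_lt).le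

end Pool.EA
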