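import Pool.Agent.Work.MP_3617d5_ea.Interface

/-!
# MP_3617d5_al, THEOREM EA: block CIA
-/

set_option autoImplicit false

open Nat

universe u

namespace Pool.EA

open Pool.NR Nat

/-- The automorphism acting on the units. -/
def CIA_u {S : Type u} [Ring S] (ψ : RingAut S) : Sˣ →* Sˣ :=
  Units.map ((ψ : S →+* S) : S →* S)

theorem CIA_u_val {S : Type u} [Ring S] (ψ : RingAut S) (z : Sˣ) :
    ((CIA_u ψ z : Sˣ) : S) = ψ (z : S) := rfl

theorem CIA_step {S : Type u} [Ring S] {L : AddSubgroup S} {ψ : RingAut S} (hL : IdI L)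
    (hinv : InvI L ψ) (z : Sˣ) (hz : (z : S) - 1 ∈ L) :
    ((z⁻¹ * CIA_u ψ z : Sˣ) : S) - 1 ∈ L := by
  have h1 : ((z⁻¹ * CIA_u ψ z : Sˣ) : S) - 1 =
      ((z⁻¹ : Sˣ) : S) * (ψ ((z : S) - 1) - ((z : S) - 1)) := by
    have e2 : ((z⁻¹ : Sˣ) : S) * (z : S) = 1 := z.inv_mul
    have e3 : ψ ((z : S) - 1) - ((z : S) - 1) = ψ (z : S) - (z : S) := by
      rw [map_sub, map_one]
      abel
    rw [e3, mul_sub, e2, Units.val_mul, CIA_u_val]
  rw [h1]
  apply hL.left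
  exact L.sub_mem ((hinv _).2 hz) hz

theorem CIA_conj {S : Type u} [Ring S] (ψ : RingAut S) (z c : Sˣ) (h1 : z⁻¹ * CIA_u ψ z = c)
    (h2 : c⁻¹ * CIA_u ψ c = 1) (i : ℕ) : CIA_u (ψ ^ i) z = z * c ^ i := by
  have hc : CIA_u ψ c = c := by
    have := congrArg (fun y => c * y) h2
    simpa using this
  have hz : CIA_u ψ z = z * c := by
    rw [← h1]
    simp
  induction i with
  | zero =>
    rw [_root_.pow_zero, _root_.pow_zero, mul_one]
    apply Units.ext
    rw [CIA_u_val]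
    rfl
  | succ i ih =>
    have h3 : CIA_u (ψ ^ (i + 1)) z = CIA_u ψ (CIA_u (ψ ^ i) z) := by
      apply Units.ext
      rw [CIA_u_val, CIA_u_val, CIA_u_val, _root_.pow_succ']
      rfl
    rw [h3, ih, map_mul, map_pow, hc, hz, mul_assoc, ← _root_.pow_succ']

theorem CIA_down {S : Type u} [Ring S] (q : ℕ) (I L : AddSubgroup S) (ψ : RingAut S)
    (hI : IdI I) (hu : ∀ b ∈ I, IsUnit (1 + b)) (ht : ∀ b ∈ I, q • b = 0 → b = 0) (hL : IdI L)
    (hLI : L ≤ I) (hinv : InvI L ψ)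
    (hd : ∀ b ∈ L, ∃ c ∈ I, b = q • c) (hq : ∀ b ∈ I, (ψ ^ q) b = b) :
    ∀ (m : ℕ) (z : Sˣ), (z : S) - 1 ∈ L → (fun z : Sˣ => z⁻¹ * CIA_u ψ z)^[m] z = 1 →
      z⁻¹ * CIA_u ψ z = 1 := by
  intro m
  induction m with
  | zero =>
    intro z _ h
    have h' : z = 1 := h
    rw [h']
    simp
  | succ m ih =>
    intro z hz h
    rw [Function.iterate_succ_apply] at h
    have hc := CIA_step hL hinv z hz
    have h2 := ih _ hc h
    obtain ⟨c, hc'⟩ : ∃ c, c = z⁻¹ * CIA_u ψ z := ⟨_, rfl⟩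
    rw [← hc'] at h2 hc ⊢
    have h3 := CIA_conj ψ z c hc'.symm h2 q
    have h5 : CIA_u (ψ ^ q) z = z := by
      apply Units.ext
      rw [CIA_u_val]
      have h6 := hq _ (hLI hz)
      rw [map_sub, map_one] at h6
      exact sub_left_injective h6
    have h4 : c ^ q = 1 := by
      rw [h5] at h3
      exact (mul_eq_left.1 h3.symm)
    obtain ⟨d, hdI, hd'⟩ := hd _ hc
    exact p_NOP S q I hI hu ht c h4 ⟨d, hdI, hd'⟩

theorem p_CIA : Stmt_CIA.{u} := by
  intro S _ m q I L ψ hI hu _ hE ht hL hLI hinv hd hq s hs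
  obtain ⟨z, hz⟩ := hu s (hLI hs)
  have hzL : (z : S) - 1 ∈ L := by
    rw [hz, add_sub_cancel_left]
    exact hs
  have h1 := hE z (hLI hzL)
  have h2 := CIA_down q I L ψ hI hu ht hL hLI hinv hd hq m z hzL h1
  have h3 : CIA_u ψ z = z := by
    have := congrArg (fun y => z * y) h2
    simpa using this
  have h4 := congrArg (fun y : Sˣ => (y : S)) h3
  simp only [CIA_u_val, hz] at h4
  rw [map_add, map_one] at h4
  exact add_left_cancel h4

end Pool.EA
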