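import Pool.Agent.Work.MP_3617d5_ea.Basic

set_option autoImplicit false

universe u

namespace Pool.EA

open Pool.NR

theorem CPK_list {S : Type u} [Ring S] {I : AddSubgroup S} (hI : IdI I) (p : ℕ) (l : List S)
    (hl : ∀ x ∈ l, ∃ b ∈ I, p • b = x) : ∃ c, l.prod = p ^ l.length • c ∧ (l ≠ [] → c ∈ I) := by
  induction l with
  | nil => exact ⟨1, by simp, fun h => absurd rfl h⟩
  | cons x l ih =>
    obtain ⟨c, hc, -⟩ := ih fun y hy => hl y (by simp [hy])
    obtain ⟨b, hb, rfl⟩ := hl x (by simp)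
    refine ⟨b * c, ?_, fun _ => hI.right c b hb⟩
    rw [List.prod_cons, hc, List.length_cons, smul_mul_smul_comm, pow_succ']

theorem p_CPK (hQUB : Stmt_QUB.{u}) (hTRQ : Stmt_TRQ.{u}) (hORE : Stmt_ORE.{u}) : Stmt_CPK.{u} := by
  intro n p hn hp hnp e k S _ I ψ hG hnil hpk hfix
  let T : AddSubgroup S := I.map (nsmulAddMonoidHom p)
  have hmem : ∀ x, x ∈ T ↔ ∃ b ∈ I, p • b = x := by
    intro x
    exact AddSubgroup.mem_map
  have hT1 : IdI T := by
    constructor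
    · intro a x hx
      obtain ⟨b, hb, rfl⟩ := (hmem x).1 hx
      exact (hmem _).2 ⟨a * b, hG.idl.left a b hb, (mul_smul_comm p a b).symm⟩
    · intro a x hx
      obtain ⟨b, hb, rfl⟩ := (hmem x).1 hx
      exact (hmem _).2 ⟨b * a, hG.idl.right a b hb, (smul_mul_assoc p b a).symm⟩
  have hT2 : T ≤ I := by
    intro x hx
    obtain ⟨b, hb, rfl⟩ := (hmem x).1 hx
    exact I.nsmul_mem hb p
  have hT3 : InvI T ψ := by
    intro x
    rw [hmem, hmem]
    constructor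
    · rintro ⟨b, hb, hbx⟩
      refine ⟨ψ.symm b, ?_, ?_⟩
      · rw [← hG.inv, RingEquiv.apply_symm_apply]
        exact hb
      · apply ψ.injective
        rw [map_nsmul, RingEquiv.apply_symm_apply]
        exact hbx
    · rintro ⟨b, hb, rfl⟩
      exact ⟨ψ b, (hG.inv b).2 hb, (map_nsmul ψ p b).symm⟩
  have hT4 : NilT T := by
    refine ⟨k + 1, fun l h1 h2 => ?_⟩
    obtain ⟨c, hc, hcI⟩ := CPK_list hG.idl p l fun x hx => (hmem x).1 (h2 x hx)
    have hne : l ≠ [] := by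
      rintro rfl
      simp at h1
    rw [hc, h1, pow_succ', mul_smul, hpk c (hcI hne), smul_zero]
  obtain ⟨S', hS', π, ψ', k1, k2, k3, k4⟩ := hQUB S n I ψ hG T hT1 hT2 hT3
  have hA : GoodA n p (I.map π.toAddMonoidHom) ψ' := by
    refine ⟨k4, ?_, ?_⟩
    · intro b hb
      obtain ⟨b0, hb0, rfl⟩ := AddSubgroup.mem_map.1 hb
      exact (hnil b0 hb0).map π
    · intro b hb
      obtain ⟨b0, hb0, rfl⟩ := AddSubgroup.mem_map.1 hb
      change p • π b0 = 0
      rw [← map_nsmul, k2]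
      exact (hmem _).2 ⟨b0, hb0, rfl⟩
  refine hTRQ S S' I T ψ π ψ' 1 k1 k2 k3 hG.idl hG.inv hT2 hT4 ?_
  refine hORE n p hn hp hnp e S' _ ψ' hA ?_
  intro b hb
  obtain ⟨b0, hb0, rfl⟩ := AddSubgroup.mem_map.1 hb
  change (ψ' ^ p ^ e) (π b0) = π b0
  rw [aut_pow_map k3, hfix b0 hb0]

end Pool.EA
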