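import Pool.Agent.Work.MP_3617d5_ea.Basic

/-!
# MP_3617d5_al, THEOREM EA, block DWN: going down
-/

set_option autoImplicit false

universe u

namespace Pool.EA

open Pool.NR

theorem DWN_core (hSQZ : Stmt_SQZ.{u}) (hLBZ : Stmt_LBZ.{u}) (S : Type u) [Ring S] (n p k : ℕ)
    (I : AddSubgroup S) (ψ : RingAut S) (hn : 1 ≤ n) (hp : p.Prime) (hnp : n < p)
    (hG : GoodA n p I ψ) (hk : 1 ≤ k) (hkp : k + 2 ≤ p) (h0 : ∀ b ∈ I, (dl ψ ^ (k + 1)) b = 0) :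
    Tr k I ψ := by
  have hZI : I.map (dl ψ ^ k) ≤ I := by
    rintro _ ⟨b, hb, rfl⟩
    exact dl_mem (inv_mem hG.good.inv) hb
  have hZZ : ∀ z ∈ I.map (dl ψ ^ k), ∀ z' ∈ I.map (dl ψ ^ k), z * z' = 0 := by
    rintro _ ⟨a, ha, rfl⟩ _ ⟨b, hb, rfl⟩
    exact hLBZ S p k I ψ hp hG.good.idl hG.good.inv hG.chp hk hkp h0 a ha b hb
  obtain ⟨h1, h2, h3, h4⟩ := hSQZ S n p I hn hp hnp hG.good.idl hG.nil hG.good.eng hG.chp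
    (I.map (dl ψ ^ k)) hZI hZZ
  refine ⟨idg (I.map (dl ψ ^ k)), h1, h3, h4, ?_, ?_⟩
  · apply idg_inv_fix
    rintro _ ⟨b, hb, rfl⟩
    have h5 := h0 b hb
    rw [dl_succ'] at h5
    exact dl_eq_zero.1 h5
  · intro b hb
    exact h2 (AddSubgroup.mem_map_of_mem _ hb)

theorem p_DWN (_hQUB : Stmt_QUB.{u}) (hTRQ : Stmt_TRQ.{u}) (hSQZ : Stmt_SQZ.{u})
    (hLBZ : Stmt_LBZ.{u}) : Stmt_DWN.{u} := by
  intro S _ n p k I ψ hn hp hnp hG hk hkp hTr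
  obtain ⟨T, hT1, hT2, hT3, hT4, hT5⟩ := hTr
  obtain ⟨S', hS', π, ψ', k1, k2, k3, k4⟩ := QUA hG hT1 hT2 hT4
  have h0 : ∀ b ∈ I.map π.toAddMonoidHom, (dl ψ' ^ (k + 1)) b = 0 := by
    intro b hb
    obtain ⟨b0, hb0, rfl⟩ := AddSubgroup.mem_map.1 hb
    change (dl ψ' ^ (k + 1)) (π b0) = 0
    rw [dl_map k3, k2]
    exact hT5 b0 hb0
  have h1 := DWN_core hSQZ hLBZ S' n p k (I.map π.toAddMonoidHom) ψ' hn hp hnp k4 hk hkp h0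
  exact hTRQ S S' I T ψ π ψ' k k1 k2 k3 hG.good.idl hG.good.inv hT2 hT3 h1

end Pool.EA
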