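import Pool.Agent.Work.MP_3617d5_ea.Basic

set_option autoImplicit false

universe u

namespace Pool.EA

open Pool.NR

section
variable {S : Type u} [Ring S]

/-- the elements `m • b`, `b ∈ I` -/
def GCH_P (m : ℕ) (I : AddSubgroup S) : AddSubgroup S := I.map (nsmulAddMonoidHom m)

theorem GCH_mem_P {m : ℕ} {I : AddSubgroup S} {x : S} : x ∈ GCH_P m I ↔ ∃ b ∈ I, m • b = x :=
  AddSubgroup.mem_map

theorem GCH_P_idl {m : ℕ} {I : AddSubgroup S} (hI : IdI I) : IdI (GCH_P m I) := by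
  constructor
  · intro a x hx
    obtain ⟨b, hb, rfl⟩ := GCH_mem_P.1 hx
    exact GCH_mem_P.2 ⟨a * b, hI.left a b hb, (mul_smul_comm m a b).symm⟩
  · intro a x hx
    obtain ⟨b, hb, rfl⟩ := GCH_mem_P.1 hx
    exact GCH_mem_P.2 ⟨b * a, hI.right a b hb, (smul_mul_assoc m b a).symm⟩

theorem GCH_P_le {m : ℕ} {I : AddSubgroup S} : GCH_P m I ≤ I := by
  intro x hx
  obtain ⟨b, hb, rfl⟩ := GCH_mem_P.1 hx
  exact I.nsmul_mem hb m

theorem GCH_P_inv {m : ℕ} {I : AddSubgroup S} {ψ : RingAut S} (h : InvI I ψ) : InvI (GCH_P m I) ψ := by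
  intro x
  constructor
  · intro hx
    obtain ⟨b, hb, hbx⟩ := GCH_mem_P.1 hx
    refine GCH_mem_P.2 ⟨ψ.symm b, ?_, ?_⟩
    · rw [← h, RingEquiv.apply_symm_apply]
      exact hb
    · apply ψ.injective
      rw [map_nsmul, RingEquiv.apply_symm_apply]
      exact hbx
  · intro hx
    obtain ⟨b, hb, rfl⟩ := GCH_mem_P.1 hx
    exact GCH_mem_P.2 ⟨ψ b, (h b).2 hb, (map_nsmul ψ m b).symm⟩

/-- the elements of `I` killed by `m` whose image is in `T` -/
def GCH_J {S' : Type u} [Ring S'] (m : ℕ) (I : AddSubgroup S) (π : S →+* S') (T : AddSubgroup S') : AddSubgroup S :=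
  I ⊓ ((nsmulAddMonoidHom m : S →+ S).ker ⊓ T.comap π.toAddMonoidHom)

theorem GCH_mem_J {S' : Type u} [Ring S'] {m : ℕ} {I : AddSubgroup S} {π : S →+* S'} {T : AddSubgroup S'} {x : S} :
    x ∈ GCH_J m I π T ↔ x ∈ I ∧ m • x = 0 ∧ π x ∈ T := Iff.rfl

end

theorem p_GCH (hUNB : Stmt_UNB.{u}) (hCPK : Stmt_CPK.{u}) (hQUB : Stmt_QUB.{u}) : Stmt_GCH.{u} := by
  intro S _ n p e I ψ hn hp hnp hG hnil hord
  obtain ⟨K, hK⟩ := hUNB S n p e I ψ hG hord
  obtain ⟨S', hS', π, ψ', hsur, hker, hcomp, hG'⟩ :=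
    hQUB S n I ψ hG (GCH_P (p ^ K) I) (GCH_P_idl hG.idl) GCH_P_le (GCH_P_inv hG.inv)
  have hTr : Tr 1 (I.map π.toAddMonoidHom) ψ' := by
    refine hCPK n p hn hp hnp e K S' (I.map π.toAddMonoidHom) ψ' hG' ?_ ?_ ?_
    · intro b hb
      obtain ⟨b0, hb0, rfl⟩ := AddSubgroup.mem_map.1 hb
      exact (hnil b0 hb0).map π
    · intro b hb
      obtain ⟨b0, hb0, rfl⟩ := AddSubgroup.mem_map.1 hb
      change p ^ K • π b0 = 0
      rw [← map_nsmul, hker]
      exact GCH_mem_P.2 ⟨b0, hb0, rfl⟩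
    · intro b hb
      obtain ⟨b0, hb0, rfl⟩ := AddSubgroup.mem_map.1 hb
      change (ψ' ^ p ^ e) (π b0) = π b0
      rw [aut_pow_map hcomp, hord b0 hb0]
  obtain ⟨T', t1, t2, ⟨M, hM⟩, t4, t5⟩ := hTr
  refine ⟨GCH_J (p ^ K) I π T', ?_, ?_, ?_, ?_, ?_⟩
  · constructor
    · intro a b hb
      obtain ⟨h1, h2, h3⟩ := GCH_mem_J.1 hb
      refine GCH_mem_J.2 ⟨hG.idl.left a b h1, ?_, ?_⟩
      · rw [← mul_smul_comm, h2, mul_zero]
      · rw [map_mul]
        exact t1.left _ _ h3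
    · intro a b hb
      obtain ⟨h1, h2, h3⟩ := GCH_mem_J.1 hb
      refine GCH_mem_J.2 ⟨hG.idl.right a b h1, ?_, ?_⟩
      · rw [← smul_mul_assoc, h2, zero_mul]
      · rw [map_mul]
        exact t1.right _ _ h3
  · intro b hb
    exact (GCH_mem_J.1 hb).1
  · refine ⟨M + 1, fun l h1 h2 => ?_⟩
    rcases List.eq_nil_or_concat l with rfl | ⟨l', j, rfl⟩
    · simp at h1
    · rw [List.concat_eq_append] at h1 h2 ⊢
      rw [List.prod_append, List.prod_singleton]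
      have hlen : l'.length = M := by simpa using h1
      have hj := GCH_mem_J.1 (h2 j (by simp))
      have h3 : π l'.prod = 0 := by
        rw [map_list_prod]
        refine hM _ (by rw [List.length_map, hlen]) ?_
        intro c hc
        obtain ⟨b, hb, rfl⟩ := List.mem_map.1 hc
        exact (GCH_mem_J.1 (h2 b (by simp [hb]))).2.2
      rw [hker] at h3
      obtain ⟨s, -, hs⟩ := GCH_mem_P.1 h3
      rw [← hs, smul_mul_assoc, ← mul_smul_comm, hj.2.1, mul_zero]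
  · intro b
    rw [GCH_mem_J, GCH_mem_J, hG.inv b, ← map_nsmul, map_eq_zero_iff ψ ψ.injective, ← hcomp, t4]
  · intro b hb
    have h5 := t5 (π b) (AddSubgroup.mem_map.2 ⟨b, hb, rfl⟩)
    rw [dl_map hcomp] at h5
    refine GCH_mem_J.2 ⟨dl_mem (inv_mem hG.inv) hb, ?_, h5⟩
    rw [dl_one]
    exact hK b hb

end Pool.EA
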