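import Pool.Agent.Work.MP_3617d5_ea.Basic

set_option autoImplicit false

universe u

namespace Pool.EA

open Pool.NR

/-- The elements that commute with `N` modulo `L`. -/
def GRH_C {K : Type u} [Group K] (N L : Subgroup K) [L.Normal] : Subgroup K where
  carrier := {c | ∀ x ∈ N, Commute (QuotientGroup.mk' L x) (QuotientGroup.mk' L c)}
  mul_mem' := by
    intro a b ha hb x hx
    rw [map_mul]
    exact (ha x hx).mul_right (hb x hx)
  one_mem' := by
    intro x _
    rw [map_one]
    exact Commute.one_right _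
  inv_mem' := by
    intro a ha x hx
    rw [map_inv]
    exact (ha x hx).inv_right

theorem GRH_mem {K : Type u} [Group K] {N L : Subgroup K} [L.Normal] {c : K} :
    c ∈ GRH_C N L ↔ ∀ x ∈ N, Commute (QuotientGroup.mk' L x) (QuotientGroup.mk' L c) := Iff.rfl

theorem p_GRH : Stmt_GRH.{u} := by
  intro K _ N L _ hLn hLN hLs hKN g hg
  have := hLn
  have := hLs
  have := hKN
  have hLC : L ≤ GRH_C N L := by
    intro c hc x _
    have h1 : QuotientGroup.mk' L c = 1 := (QuotientGroup.eq_one_iff c).2 hc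
    rw [h1]
    exact Commute.one_right _
  refine ⟨GRH_C N L, ⟨?_⟩, ?_, ?_⟩
  · intro c hc k x hx
    have hy : k⁻¹ * x * k ∈ N := by
      have h1 := (inferInstance : N.Normal).conj_mem x hx k⁻¹
      rwa [inv_inv] at h1
    have h2 : QuotientGroup.mk' L (k⁻¹ * x * k) * QuotientGroup.mk' L c =
        QuotientGroup.mk' L c * QuotientGroup.mk' L (k⁻¹ * x * k) := hc _ hy
    have h3 : QuotientGroup.mk' L x = QuotientGroup.mk' L k *
        QuotientGroup.mk' L (k⁻¹ * x * k) * (QuotientGroup.mk' L k)⁻¹ := by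
      rw [← map_inv, ← map_mul, ← map_mul]
      congr 1
      group
    change QuotientGroup.mk' L x * QuotientGroup.mk' L (k * c * k⁻¹) =
      QuotientGroup.mk' L (k * c * k⁻¹) * QuotientGroup.mk' L x
    rw [h3, map_mul _ (k * c), map_mul _ k, map_inv _ k]
    generalize QuotientGroup.mk' L (k⁻¹ * x * k) = y at h2 ⊢
    generalize QuotientGroup.mk' L c = d at h2 ⊢
    generalize QuotientGroup.mk' L k = m
    calc m * y * m⁻¹ * (m * d * m⁻¹) = m * (y * d) * m⁻¹ := by group
      _ = m * (d * y) * m⁻¹ := by rw [h2]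
      _ = m * d * m⁻¹ * (m * y * m⁻¹) := by group
  · -- the intersection with `N`
    have hD : Group.IsSolvable (GRH_C N L ⊓ N : Subgroup K) := by
      let g1 : (GRH_C N L ⊓ N : Subgroup K) →* (K ⧸ L) :=
        (QuotientGroup.mk' L).comp (GRH_C N L ⊓ N : Subgroup K).subtype
      let f1 : L →* (GRH_C N L ⊓ N : Subgroup K) := Subgroup.inclusion (le_inf hLC hLN)
      have : Group.IsSolvable g1.range := by
        refine Group.isSolvable_of_comm ?_
        rintro ⟨_, ⟨a, rfl⟩⟩ ⟨_, ⟨b, rfl⟩⟩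
        apply Subtype.ext
        exact (a.2.1 b.1 b.2.2).symm
      refine Group.isSolvable_of_ker_le_range f1 g1.rangeRestrict ?_
      intro a ha
      rw [MonoidHom.ker_rangeRestrict, MonoidHom.mem_ker] at ha
      have h1 : (a : K) ∈ L := (QuotientGroup.eq_one_iff (a : K)).1 ha
      exact ⟨⟨a, h1⟩, Subtype.ext rfl⟩
    have := hD
    let g2 : GRH_C N L →* (K ⧸ N) := (QuotientGroup.mk' N).comp (GRH_C N L).subtype
    let f2 : (GRH_C N L ⊓ N : Subgroup K) →* GRH_C N L := Subgroup.inclusion inf_le_left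
    refine Group.isSolvable_of_ker_le_range f2 g2 ?_
    intro a ha
    rw [MonoidHom.mem_ker] at ha
    have h1 : (a : K) ∈ N := (QuotientGroup.eq_one_iff (a : K)).1 ha
    exact ⟨⟨a, a.2, h1⟩, Subtype.ext rfl⟩
  · intro x hx
    have h1 := hg x hx
    have h2 : (g * x)⁻¹ * (x * g) ∈ L := by
      have h3 : (g * x)⁻¹ * (x * g) = x⁻¹ * g⁻¹ * x * g := by group
      rw [h3]
      exact h1
    have h4 : QuotientGroup.mk' L (g * x) = QuotientGroup.mk' L (x * g) := QuotientGroup.eq.2 h2
    rw [map_mul, map_mul] at h4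
    exact h4.symm

end Pool.EA
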