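import Pool.Agent.Work.MP_3617d5_ea.Interface

/-!
# MP_3617d5_al, THEOREM EA: block INV (helper79)
-/

set_option autoImplicit false

universe u

namespace Pool.EA

open Pool.NR

section
variable {S : Type u} [Ring S]

/-- The image of `J` under the automorphism `φ`. -/
def INV_im (J : AddSubgroup S) (φ : RingAut S) : AddSubgroup S := J.map (φ : S →+* S).toAddMonoidHom

theorem INV_mem {J : AddSubgroup S} {φ : RingAut S} {x : S} : x ∈ INV_im J φ ↔ ∃ b ∈ J, φ b = x := Iff.rfl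

theorem INV_idl {J : AddSubgroup S} (φ : RingAut S) (hJ : IdI J) : IdI (INV_im J φ) := by
  constructor
  · intro a x hx
    obtain ⟨b, hb, rfl⟩ := INV_mem.1 hx
    exact INV_mem.2 ⟨φ.symm a * b, hJ.left _ b hb, by rw [map_mul, RingEquiv.apply_symm_apply]⟩
  · intro a x hx
    obtain ⟨b, hb, rfl⟩ := INV_mem.1 hx
    exact INV_mem.2 ⟨b * φ.symm a, hJ.right _ b hb, by rw [map_mul, RingEquiv.apply_symm_apply]⟩

theorem INV_nil {J : AddSubgroup S} (φ : RingAut S) (hJ : NilT J) : NilT (INV_im J φ) := by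
  obtain ⟨M, hM⟩ := hJ
  refine ⟨M, fun l h1 h2 => ?_⟩
  have h3 : (l.map φ.symm).prod = 0 := by
    refine hM _ (by rw [List.length_map, h1]) ?_
    intro c hc
    obtain ⟨x, hx, rfl⟩ := List.mem_map.1 hc
    obtain ⟨b, hb, rfl⟩ := INV_mem.1 (h2 x hx)
    rw [RingEquiv.symm_apply_apply]
    exact hb
  have h4 : φ.symm l.prod = 0 := by rw [map_list_prod, h3]
  have h5 : φ (φ.symm l.prod) = φ 0 := by rw [h4]
  rwa [RingEquiv.apply_symm_apply, map_zero] at h5

end

theorem p_INV (hNSM : Stmt_NSM.{u}) : Stmt_INV.{u} := by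
  intro S _ K _ I J₀ N Φ hN hfin hI hinv hmul hinn hJ₀ hJI hJn
  classical
  have hone : ∀ b ∈ I, Φ 1 b = b := by
    intro b hb
    have h1 := hmul 1 1 b hb
    rw [mul_one] at h1
    exact ((Φ 1).injective h1).symm
  have : Fintype (K ⧸ N) := Fintype.ofFinite _
  -- the images
  have hidl : ∀ c ∈ (Finset.univ : Finset (K ⧸ N)), IdI (INV_im J₀ (Φ (Quotient.out c))) ∧
      NilT (INV_im J₀ (Φ (Quotient.out c))) := fun c _ => ⟨INV_idl _ hJ₀, INV_nil _ hJn⟩
  obtain ⟨s1, s2⟩ := hNSM S (K ⧸ N) Finset.univ (fun c => INV_im J₀ (Φ (Quotient.out c))) hidl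
  have hstab : ∀ n ∈ N, ∀ b ∈ J₀, Φ n b ∈ J₀ := by
    intro n hn b hb
    obtain ⟨x, hx⟩ := hinn n hn
    rw [hx b (hJI hb)]
    exact hJ₀.right _ _ (hJ₀.left _ _ hb)
  have hle : ∀ g : K, ∀ b ∈ J₀, Φ g b ∈ (Finset.univ : Finset (K ⧸ N)).sup
      (fun c => INV_im J₀ (Φ (Quotient.out c))) := by
    intro g b hb
    have h1 : (Quotient.out (g : K ⧸ N) : K)⁻¹ * g ∈ N :=
      QuotientGroup.eq.1 (QuotientGroup.out_eq' (g : K ⧸ N))
    have h2 : g * (Quotient.out (g : K ⧸ N) : K)⁻¹ ∈ N := hN.mem_comm h1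
    have h3 : Φ g b = Φ (Quotient.out (g : K ⧸ N)) (Φ (g * (Quotient.out (g : K ⧸ N) : K)⁻¹) b) := by
      rw [← hmul _ _ b (hJI hb), inv_mul_cancel_right]
    rw [h3]
    exact Finset.le_sup (f := fun c => INV_im J₀ (Φ (Quotient.out c))) (Finset.mem_univ (g : K ⧸ N))
      (INV_mem.2 ⟨_, hstab _ h2 b hb, rfl⟩)
  have hJle : (Finset.univ : Finset (K ⧸ N)).sup (fun c => INV_im J₀ (Φ (Quotient.out c))) ≤ I := by
    refine Finset.sup_le fun c _ => ?_
    intro x hx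
    obtain ⟨b, hb, rfl⟩ := INV_mem.1 hx
    exact (hinv _ b).2 (hJI hb)
  have hfwd : ∀ k : K, ∀ x ∈ (Finset.univ : Finset (K ⧸ N)).sup
      (fun c => INV_im J₀ (Φ (Quotient.out c))), Φ k x ∈ (Finset.univ : Finset (K ⧸ N)).sup
      (fun c => INV_im J₀ (Φ (Quotient.out c))) := by
    intro k
    have h : (Finset.univ : Finset (K ⧸ N)).sup (fun c => INV_im J₀ (Φ (Quotient.out c))) ≤
        ((Finset.univ : Finset (K ⧸ N)).sup (fun c => INV_im J₀ (Φ (Quotient.out c)))).comap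
          (Φ k : S →+* S).toAddMonoidHom := by
      refine Finset.sup_le fun c _ => ?_
      intro x hx
      obtain ⟨b, hb, rfl⟩ := INV_mem.1 hx
      have h1 := hle (Quotient.out c * k) b hb
      rw [hmul _ _ b (hJI hb)] at h1
      exact h1
    exact fun x hx => h hx
  refine ⟨_, s1, hJle, s2, ?_, ?_⟩
  · intro b hb
    rw [← hone b (hJI hb)]
    exact hle 1 b hb
  · intro k b
    constructor
    · intro h
      have hb : b ∈ I := (hinv k b).1 (hJle h)
      have h1 := hfwd k⁻¹ _ h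
      rwa [← hmul _ _ b hb, mul_inv_cancel, hone b hb] at h1
    · exact hfwd k b

end Pool.EA
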