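import Pool.Agent.Work.MP_3617d5_ea.Basic

/-! # Block KGS of THEOREM EA -/

set_option autoImplicit false

open Nat

universe u

namespace Pool.EA

open Pool.NR

theorem KGS_inv {S : Type u} [Ring S] {W : AddSubgroup S} {b : S} (hb : ∀ w ∈ W, b * w ∈ W)
    (x : Sˣ) (hx : (x : S) = 1 + b) (j : ℕ) :
    ∀ w ∈ W, b ^ j * w = 0 → ((x⁻¹ : Sˣ) : S) * w ∈ W := by
  induction j with
  | zero =>
    intro w _ h0
    rw [pow_zero, one_mul] at h0
    rw [h0, mul_zero]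
    exact W.zero_mem
  | succ j ih =>
    intro w hw h0
    have h1 : ((x⁻¹ : Sˣ) : S) * w = w - ((x⁻¹ : Sˣ) : S) * (b * w) := by
      have h2 : ((x⁻¹ : Sˣ) : S) * ((x : S) * w) = w := by
        rw [← mul_assoc, Units.inv_mul, one_mul]
      rw [hx, add_mul, one_mul, mul_add] at h2
      exact eq_sub_of_add_eq h2
    rw [h1]
    refine W.sub_mem hw (ih _ (hb w hw) ?_)
    rw [← mul_assoc, ← pow_succ]
    exact h0

theorem KGS_iter {S : Type u} [Ring S] {W : AddSubgroup S} (hWW : ∀ w ∈ W, ∀ w' ∈ W, w * w' = 0)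
    (x : Sˣ) (hwx : ∀ w ∈ W, w * (x : S) = w) (hxw : ∀ w ∈ W, ((x⁻¹ : Sˣ) : S) * w ∈ W) (n : ℕ) :
    ∀ w ∈ W, ∀ y : Sˣ, (y : S) = 1 + w →
      (((fun Z : Sˣ => Z⁻¹ * x⁻¹ * Z * x)^[n] y : Sˣ) : S) =
        1 + (((x⁻¹ : Sˣ) : S) - 1) ^ n * w := by
  induction n with
  | zero =>
    intro w _ y hy
    rw [Function.iterate_zero, id, hy, pow_zero, one_mul]
  | succ n ih =>
    intro w hw y hy
    rw [Function.iterate_succ_apply]
    have hyi : ((y⁻¹ : Sˣ) : S) = 1 - w := by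
      apply Units.inv_eq_of_mul_eq_one_right
      rw [hy, add_mul, mul_sub, mul_sub, hWW w hw w hw]
      simp
    have hval : ((y⁻¹ * x⁻¹ * y * x : Sˣ) : S) = 1 + (((x⁻¹ : Sˣ) : S) - 1) * w := by
      rw [Units.val_mul, Units.val_mul, Units.val_mul, hyi, hy]
      have h3 : (1 - w) * ((x⁻¹ : Sˣ) : S) * (1 + w) * (x : S) =
          (1 - w) * (1 + ((x⁻¹ : Sˣ) : S) * w) := by
        rw [mul_assoc, add_mul, one_mul, hwx w hw, mul_assoc, mul_add, Units.inv_mul]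
      rw [h3, sub_mul, one_mul, mul_add, mul_one, hWW w hw _ (hxw w hw), add_zero, sub_mul, one_mul]
      abel
    have hmem : (((x⁻¹ : Sˣ) : S) - 1) * w ∈ W := by
      rw [sub_mul, one_mul]
      exact W.sub_mem (hxw w hw) hw
    rw [ih _ hmem _ hval, ← mul_assoc, ← pow_succ]

theorem p_KGS : Stmt_KGS.{u} := by
  intro S _ n I hnil heng B W hB hW hBW hWW b hb w hw
  obtain ⟨k, hk⟩ := hnil b (hB hb)
  obtain ⟨x, hx⟩ := (hnil b (hB hb)).isUnit_one_add
  have hwx : ∀ w ∈ W, w * (x : S) = w := by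
    intro w hw
    rw [hx, mul_add, mul_one, (hBW b hb w hw).2, add_zero]
  have hxw : ∀ w ∈ W, ((x⁻¹ : Sˣ) : S) * w ∈ W := fun w hw =>
    KGS_inv (fun w hw => (hBW b hb w hw).1) x hx k w hw (by rw [hk, zero_mul])
  obtain ⟨y, hy⟩ : ∃ y : Sˣ, (y : S) = 1 + w := by
    have h0 := hWW w hw w hw
    refine ⟨⟨1 + w, 1 - w, ?_, ?_⟩, rfl⟩
    · rw [add_mul, mul_sub, mul_sub, h0]; simp
    · rw [sub_mul, mul_add, mul_add, h0]; simp
  have h1 := KGS_iter hWW x hwx hxw n w hw y hy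
  have h2 := heng x y (by rw [hx, add_sub_cancel_left]; exact hB hb) (by
    rw [hy, add_sub_cancel_left]
    exact hW hw)
  rw [h2, Units.val_one] at h1
  have h3 : (((x⁻¹ : Sˣ) : S) - 1) ^ n * w = 0 := by
    have := h1.symm
    simpa using this
  have hcomm : Commute (-(x : S)) (((x⁻¹ : Sˣ) : S) - 1) := by
    unfold Commute SemiconjBy
    rw [mul_sub, sub_mul, neg_mul, mul_neg, Units.mul_inv, Units.inv_mul]
    simp
  have h5 : b = -(x : S) * (((x⁻¹ : Sˣ) : S) - 1) := by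
    rw [mul_sub, neg_mul, Units.mul_inv, mul_one, hx]
    abel
  rw [h5, hcomm.mul_pow, mul_assoc, h3, mul_zero]

end Pool.EA
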