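import Pool.Agent.Work.MP_3617d5_ea.Basic

/-!
# Block LBZ
-/

set_option autoImplicit false

universe u

namespace Pool.EA

open Pool.NR

theorem LBZ_step {S : Type u} [Ring S] {ψ : RingAut S} {a : S} (ha : dl ψ (dl ψ a) = 0) (b : S) (j : ℕ) :
    (dl ψ ^ (j + 1)) (a * b) = a * (dl ψ ^ (j + 1)) b + (j + 1) • (dl ψ a * ((dl ψ ^ j) b + (dl ψ ^ (j + 1)) b)) := by
  induction j with
  | zero =>
    rw [zero_add, pow_one, dl_zero, dl_mul, one_smul]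
    noncomm_ring
  | succ j ih =>
    have hc : ψ (dl ψ a) = dl ψ a := dl_eq_zero.1 ha
    rw [dl_succ', ih, map_add, map_nsmul, dl_mul]
    have h1 : dl ψ (dl ψ a * ((dl ψ ^ j) b + (dl ψ ^ (j + 1)) b)) =
        dl ψ a * ((dl ψ ^ (j + 1)) b + (dl ψ ^ (j + 1 + 1)) b) := by
      have h2 := dl_mul_left hc ((dl ψ ^ j) b + (dl ψ ^ (j + 1)) b) 1
      rw [pow_one] at h2
      rw [h2, map_add, ← dl_succ', ← dl_succ']
    rw [h1, ← dl_succ', succ_nsmul _ (j + 1)]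
    noncomm_ring

theorem p_LBZ : Stmt_LBZ.{u} := by
  intro S _ p k I ψ hp hI hInv hchp hk hkp hD a ha b hb
  obtain ⟨k, rfl⟩ : ∃ j, k = j + 1 := ⟨k - 1, by omega⟩
  have hψ : ∀ b ∈ I, ψ b ∈ I := fun b hb => (hInv b).2 hb
  have ha' : (dl ψ ^ k) a ∈ I := dl_mem hψ ha
  have h0 : dl ψ (dl ψ ((dl ψ ^ k) a)) = 0 := by
    rw [← dl_succ', ← dl_succ']
    exact hD a ha
  have h1 := LBZ_step h0 b (k + 1)
  have h2 : (dl ψ ^ k) a * b ∈ I := by
    first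
      | exact (hI _ _ hb).1
      | exact (hI.1 _ _ hb)
  rw [hD _ h2, hD _ hb, mul_zero, zero_add, add_zero, ← dl_succ'] at h1
  have h3 : (dl ψ ^ (k + 1)) a * (dl ψ ^ (k + 1)) b ∈ I := by
    have hb' : (dl ψ ^ (k + 1)) b ∈ I := dl_mem hψ hb
    first
      | exact (hI _ _ hb').1
      | exact (hI.1 _ _ hb')
  have h4 := hchp _ h3
  have hcop : Nat.Coprime (k + 1 + 1) p := by
    refine Nat.Coprime.symm ((Nat.Prime.coprime_iff_not_dvd hp).2 fun hd => ?_)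
    have := Nat.le_of_dvd (by omega) hd
    omega
  have h5 : addOrderOf ((dl ψ ^ (k + 1)) a * (dl ψ ^ (k + 1)) b) ∣ 1 := by
    have h6 := Nat.dvd_gcd (addOrderOf_dvd_of_nsmul_eq_zero h1.symm) (addOrderOf_dvd_of_nsmul_eq_zero h4)
    rwa [hcop] at h6
  exact AddMonoid.addOrderOf_eq_one_iff.1 (Nat.dvd_one.1 h5)

end Pool.EA
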