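import Pool.Agent.Work.MP_3617d5_ea.Basic

/-!
# MP_3617d5_al, THEOREM EA: block LEV
-/

set_option autoImplicit false

universe u

namespace Pool.EA

open Pool.NR

theorem p_LEV (hCPW : Stmt_CPW.{u}) : Stmt_LEV.{u} := by
  intro S _ n p I ψ hp hn hG hD l
  have hid := hG.good.idl
  have hp1 : 1 ≤ p := hp.one_lt.le
  induction l with
  | zero =>
    intro c hc hψ hPw m hm _
    rw [pow_zero, Pw_one] at hPw
    have h1 : c ∈ (⊥ : AddSubgroup S) := hPw ▸ rS_self c
    rw [AddSubgroup.mem_bot] at h1
    rw [h1, zero_mul]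
  | succ l ih =>
    intro c hc hψ hPw m hm hmem
    match m, hm, hmem with
    | c' :: m', hm, hmem =>
      obtain ⟨w, hw, hwc⟩ := hmem c' (by simp)
      have hfix : ψ c' = c' := by
        rw [← dl_eq_zero, ← hwc, ← dl_succ', Nat.sub_add_cancel hp1]
        exact hD w hw
      have h1 : c * c' ∈ Pw (rS c) p := by
        have h2 := hCPW S n p I ψ hp hG c hc hψ w
        have h3 := dl_mem (k := p - 1 - n) (fun b hb => Pw_aut ψ (rS_aut hψ) hb) h2
        rw [dl_mul_left hψ, ← dl_add] at h3
        have h4 : p - 1 - n + n = p - 1 := by omega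
        rwa [h4, hwc] at h3
      have h5 : rS (c * c') ≤ Pw (rS c) p := by
        intro b hb
        obtain ⟨a, rfl⟩ := mem_rS.1 hb
        exact Pw_rS_right hp1 h1 a
      have h6 : Pw (rS (c * c')) (p ^ l) = ⊥ := by
        rw [eq_bot_iff, ← hPw, pow_succ']
        exact (Pw_mono h5 _).trans (Pw_Pw _ _ _)
      rw [List.prod_cons, ← mul_assoc]
      refine ih (c * c') (hid.right _ _ hc) ?_ h6 m' ?_ ?_
      · rw [map_mul, hψ, hfix]
      · simpa using hm
      · intro d hd
        exact hmem d (by simp [hd])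

end Pool.EA
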