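import Pool.Agent.Work.MP_3617d5_ea.Basic

/-!
# MP_3617d5_al, THEOREM EA: block LNA
-/

set_option autoImplicit false

universe u

namespace Pool.EA

open Pool.NR

section
variable {S : Type u} [Ring S]

theorem LNA_pow {B : AddSubgroup S} (hB : ∀ a ∈ B, ∀ b ∈ B, a * b ∈ B) {c : S} (hc : c ∈ B) (k : ℕ) :
    c ^ (k + 1) ∈ B := by
  induction k with
  | zero => simpa using hc
  | succ k ih =>
    rw [pow_succ]
    exact hB _ ih _ hc

theorem LNA_inv {B : AddSubgroup S} (hB : ∀ a ∈ B, ∀ b ∈ B, a * b ∈ B) (hn : ∀ b ∈ B, IsNilpotent b)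
    (x : Sˣ) (hx : (x : S) - 1 ∈ B) : ((x⁻¹ : Sˣ) : S) - 1 ∈ B := by
  set c : S := -((x : S) - 1) with hc
  have hcB : c ∈ B := B.neg_mem hx
  set y : S := ((x⁻¹ : Sˣ) : S) - 1 with hy
  have h1 : y = c + c * y := by
    have h2 : (x : S) * ((x⁻¹ : Sˣ) : S) = 1 := x.mul_inv
    have h3 : c + c * y = c * ((x⁻¹ : Sˣ) : S) := by
      rw [hy]
      noncomm_ring
    rw [h3, hc, neg_mul, sub_mul, h2, one_mul, hy]
    noncomm_ring
  have h2 : ∀ k : ℕ, ∃ b ∈ B, y = b + c ^ k * y := by
    intro k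
    induction k with
    | zero => exact ⟨0, B.zero_mem, by simp⟩
    | succ k ih =>
      obtain ⟨b, hb, h⟩ := ih
      refine ⟨b + c ^ (k + 1), B.add_mem hb (LNA_pow hB hcB k), ?_⟩
      calc y = b + c ^ k * y := h
        _ = b + c ^ k * (c + c * y) := by rw [← h1]
        _ = b + c ^ (k + 1) + c ^ (k + 1) * y := by
          rw [mul_add, ← mul_assoc, ← pow_succ]
          noncomm_ring
  obtain ⟨k, hk⟩ := hn c hcB
  obtain ⟨b, hb, h⟩ := h2 k
  rw [hk, zero_mul, add_zero] at h
  rw [h]
  exact hb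

/-- one step of the law -/
def LNA_g (ψ : RingAut S) (z : Sˣ) : Sˣ := z⁻¹ * Units.map ((ψ : S →+* S) : S →* S) z

theorem LNA_g_val (ψ : RingAut S) (z : Sˣ) :
    ((LNA_g ψ z : Sˣ) : S) = ((z⁻¹ : Sˣ) : S) * ψ (z : S) := rfl

end

theorem p_LNA (hPLM : Stmt_PLM.{u}) (hPLI : Stmt_PLI.{u}) (hPLF : Stmt_PLF.{u}) : Stmt_LNA.{u} := by
  intro S _ n p I B T ψ hp hnil hchp hE hBI hBT hψB hψT b hb
  have hp1 : 1 ≤ p := hp.one_lt.le
  have hp2 : 2 ≤ p := hp.two_le
  have hnB : ∀ c ∈ B, IsNilpotent c := fun c hc => hnil c (hBI hc)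
  have htb : ∀ t : ℕ, t • b ∈ B := fun t => B.nsmul_mem hb t
  have hu : ∀ t : ℕ, IsUnit (1 + t • b) := fun t => (hnB _ (htb t)).isUnit_one_add
  set uu : ℕ → Sˣ := fun t => (hu t).unit with huu
  have huv : ∀ t, ((uu t : Sˣ) : S) = 1 + t • b := fun t => (hu t).unit_spec
  -- the iterates stay in `1 + B`
  have hA : ∀ i t, (((LNA_g ψ)^[i] (uu t) : Sˣ) : S) - 1 ∈ B := by
    intro i
    induction i with
    | zero =>
      intro t
      rw [Function.iterate_zero, id, huv, add_sub_cancel_left]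
      exact htb t
    | succ i ih =>
      intro t
      rw [Function.iterate_succ_apply', LNA_g_val]
      set z : Sˣ := (LNA_g ψ)^[i] (uu t) with hz
      have h1 : (z : S) - 1 ∈ B := ih t
      have h2 := LNA_inv hBT.mul hnB z h1
      have h3 : ψ (z : S) - 1 ∈ B := by
        have h4 := hψB _ h1
        rwa [map_sub, map_one] at h4
      have h4 : ((z⁻¹ : Sˣ) : S) * ψ (z : S) - 1 =
          (((z⁻¹ : Sˣ) : S) - 1) * (ψ (z : S) - 1) + (((z⁻¹ : Sˣ) : S) - 1) + (ψ (z : S) - 1) := by
        noncomm_ring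
      rw [h4]
      exact B.add_mem (B.add_mem (hBT.mul _ h2 _ h3) h2) h3
  have hZ : ∀ s : S, s - 1 ∈ B → Z1 B s := fun s hs => ⟨1, by rwa [one_smul]⟩
  -- the polynomials
  have hP : ∀ i, ∃ e : ℕ → S, e 0 = 1 ∧ e 1 = (dl ψ ^ i) b ∧
      Pol p B T (fun t => (((LNA_g ψ)^[i] (uu t) : Sˣ) : S)) e := by
    intro i
    induction i with
    | zero =>
      refine ⟨fun j => if j = 0 then 1 else if j = 1 then b else 0, by simp, by
        simp only [one_ne_zero, if_false, if_true]
        exact (dl_zero ψ b).symm, ?_, ?_⟩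
      · intro j
        by_cases h0 : j = 0
        · subst h0
          simp only [if_true]
          simpa using Pw_list (B := B) [] (by simp)
        · by_cases h1 : j = 1
          · subst h1
            simp only [one_ne_zero, if_false, if_true]
            rw [Pw_one]
            exact hb
          · simp only [h0, h1, if_false]
            exact (Pw B j).zero_mem
      · intro t
        have h1 : ∑ j ∈ Finset.range p, t ^ j • (if j = 0 then (1 : S) else if j = 1 then b else 0) =
            1 + t • b := by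
          rw [← Finset.sum_subset (Finset.range_mono hp2)]
          · rw [Finset.sum_range_succ, Finset.sum_range_succ, Finset.sum_range_zero]
            simp
          · intro j _ hj
            rw [Finset.mem_range] at hj
            have h0 : j ≠ 0 := by omega
            have h1 : j ≠ 1 := by omega
            rw [if_neg h0, if_neg h1, smul_zero]
        rw [h1, Function.iterate_zero, id, huv, sub_self]
        exact T.zero_mem
    | succ i ih =>
      obtain ⟨e, he0, he1, hPol⟩ := ih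
      obtain ⟨e', he0', he1', hPol'⟩ := hPLI S p B T hp1 hBT
        (fun t => (((LNA_g ψ)^[i] (uu t) : Sˣ) : S))
        (fun t => ((((LNA_g ψ)^[i] (uu t))⁻¹ : Sˣ) : S)) e (fun t => hZ _ (hA i t))
        (fun t => hZ _ (LNA_inv hBT.mul hnB _ (hA i t)))
        (fun t => Units.inv_mul _) he0 hPol
      have hPol'' : Pol p B T (fun t => ψ (((LNA_g ψ)^[i] (uu t) : Sˣ) : S)) (fun j => ψ (e j)) := by
        refine ⟨fun j => Pw_aut ψ hψB (hPol.mem j), fun t => ?_⟩
        have h1 := hψT _ (hPol.eq t)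
        rw [map_sub, map_sum] at h1
        simpa only [map_nsmul] using h1
      have h := hPLM S p B T hp1 hBT _ _ e' (fun j => ψ (e j))
        (fun t => hZ _ (LNA_inv hBT.mul hnB _ (hA i t)))
        (fun t => hZ _ (by
          have h4 := hψB _ (hA i t)
          rwa [map_sub, map_one] at h4)) hPol' hPol''
      refine ⟨fun j => ∑ a ∈ Finset.range (j + 1), e' a * ψ (e (j - a)), ?_, ?_, ?_⟩
      · simp [he0', he0]
      · change ∑ a ∈ Finset.range (1 + 1), e' a * ψ (e (1 - a)) = (dl ψ ^ (i + 1)) b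
        rw [Finset.sum_range_succ, Finset.sum_range_succ, Finset.sum_range_zero]
        simp only [zero_add, Nat.sub_zero, Nat.sub_self, he0', he1', he0, map_one, one_mul, mul_one]
        rw [dl_succ', ← he1, dl_apply]
        noncomm_ring
      · have h2 : (fun t => (((LNA_g ψ)^[i + 1] (uu t) : Sˣ) : S)) =
            fun t => ((((LNA_g ψ)^[i] (uu t))⁻¹ : Sˣ) : S) * ψ (((LNA_g ψ)^[i] (uu t) : Sˣ) : S) := by
          funext t
          rw [Function.iterate_succ_apply', LNA_g_val]
        rw [h2]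
        exact h
  obtain ⟨e, he0, he1, hPol⟩ := hP n
  rw [← he1]
  refine hPLF S p hp T e ?_ ?_
  · intro j hj
    exact hchp _ (hBI (Pw_le hBT.mul hj (hPol.mem j)))
  · intro t
    have h1 : (LNA_g ψ)^[n] (uu t) = 1 := by
      refine hE (uu t) ?_
      rw [huv, add_sub_cancel_left]
      exact hBI (htb t)
    have h2 := hPol.eq t
    rw [h1, Units.val_one, Finset.range_eq_Ico, Finset.sum_eq_sum_Ico_succ_bot (by omega), pow_zero, one_smul, he0,
      zero_add, sub_add_cancel_left] at h2
    exact neg_mem_iff.1 h2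

end Pool.EA
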