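import Pool.Agent.Work.MP_3617d5_ea.Basic

/-! # Block NHW of THEOREM EA -/

set_option autoImplicit false

open Nat

universe u

namespace Pool.EA

open Pool.NR

/-- the annihilator of `W` -/
def NHW_T {S : Type u} [Ring S] (W : AddSubgroup S) : AddSubgroup S where
  carrier := {t | ∀ w ∈ W, t * w = 0}
  zero_mem' := fun w _ => zero_mul w
  add_mem' := by
    intro a b ha hb w hw
    rw [add_mul, ha w hw, hb w hw, add_zero]
  neg_mem' := by
    intro a ha w hw
    rw [neg_mul, ha w hw, neg_zero]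

theorem NHW_mem {S : Type u} [Ring S] {W : AddSubgroup S} {t : S} : t ∈ NHW_T W ↔ ∀ w ∈ W, t * w = 0 :=
  Iff.rfl

theorem NHW_coprime {S : Type u} [Ring S] {p m : ℕ} {y : S} (h : Nat.Coprime m p) (h1 : m • y = 0) (h2 : p • y = 0) :
    y = 0 := by
  have h3 : addOrderOf y ∣ m := addOrderOf_dvd_of_nsmul_eq_zero h1
  have h4 : addOrderOf y ∣ p := addOrderOf_dvd_of_nsmul_eq_zero h2
  have h5 : addOrderOf y ∣ 1 := by
    have := Nat.dvd_gcd h3 h4
    rwa [h.gcd_eq_one] at this
  rw [Nat.dvd_one, AddMonoid.addOrderOf_eq_one_iff] at h5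
  exact h5

theorem p_NHW (hKGS : Stmt_KGS.{u}) : Stmt_NHW.{u} := by
  intro S _ n p I hn hp hnp hnil heng hchp B W hB hW hBB hBW hWW l hl hlB
  have hK := hKGS S n I hnil heng B W hB hW hBW hWW
  have hcop : Nat.Coprime (n !) p := by
    rw [Nat.coprime_comm, hp.coprime_iff_not_dvd, hp.dvd_factorial]
    omega
  have := p_NHT S B n hn hBB (NHW_T W) ?_ ?_ ?_ l hl hlB
  · exact NHW_mem.1 this
  · intro b hb t ht
    rw [NHW_mem] at ht
    constructor
    · rw [NHW_mem]
      intro w hw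
      rw [mul_assoc, ht w hw, mul_zero]
    · rw [NHW_mem]
      intro w hw
      rw [mul_assoc, ht _ (hBW b hb w hw).1]
  · intro b hb ht
    rw [NHW_mem] at ht ⊢
    intro w hw
    have h1 := ht w hw
    rw [smul_mul_assoc] at h1
    exact NHW_coprime hcop h1 (hchp _ (hW (hBW b hb w hw).1))
  · intro b hb
    rw [NHW_mem]
    exact hK b hb

end Pool.EA
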