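import Pool.Agent.Work.MP_3617d5_ea.Interface

set_option autoImplicit false

universe u

namespace Pool.EA

open Pool.NR Nat

theorem NSM_id {S : Type u} [Ring S] {T₁ T₂ : AddSubgroup S} (h1 : IdI T₁) (h2 : IdI T₂) :
    IdI (T₁ ⊔ T₂) := by
  constructor
  · intro a b hb
    obtain ⟨y, hy, z, hz, rfl⟩ := AddSubgroup.mem_sup.1 hb
    rw [mul_add]
    exact AddSubgroup.mem_sup.2 ⟨_, h1.left a y hy, _, h2.left a z hz, rfl⟩
  · intro a b hb
    obtain ⟨y, hy, z, hz, rfl⟩ := AddSubgroup.mem_sup.1 hb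
    rw [add_mul]
    exact AddSubgroup.mem_sup.2 ⟨_, h1.right a y hy, _, h2.right a z hz, rfl⟩

theorem NSM_sub {S : Type u} [Ring S] {T₁ T₂ : AddSubgroup S} (h2 : IdI T₂) (l : List S)
    (hl : ∀ b ∈ l, b ∈ T₁ ⊔ T₂) :
    ∃ l' : List S, l'.length = l.length ∧ (∀ b ∈ l', b ∈ T₁) ∧ l.prod - l'.prod ∈ T₂ := by
  induction l with
  | nil => exact ⟨[], rfl, by simp, by simp⟩
  | cons c l ih =>
    obtain ⟨l', h3, h4, h5⟩ := ih fun b hb => hl b (List.mem_cons_of_mem _ hb)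
    obtain ⟨y, hy, z, hz, hc⟩ := AddSubgroup.mem_sup.1 (hl c List.mem_cons_self)
    refine ⟨y :: l', by simp [h3], ?_, ?_⟩
    · intro b hb
      rcases List.mem_cons.1 hb with rfl | hb
      · exact hy
      · exact h4 b hb
    · rw [List.prod_cons, List.prod_cons, ← hc,
        show (y + z) * l.prod - y * l'.prod = y * (l.prod - l'.prod) + z * l.prod by noncomm_ring]
      exact T₂.add_mem (h2.left _ _ h5) (h2.right _ _ hz)

theorem NSM_group {S : Type u} [Ring S] {T₁ T₂ : AddSubgroup S} (h2 : IdI T₂) (M : ℕ)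
    (hM : ∀ l : List S, l.length = M → (∀ b ∈ l, b ∈ T₁) → l.prod = 0) (m : ℕ) :
    ∀ l : List S, l.length = M * m → (∀ b ∈ l, b ∈ T₁ ⊔ T₂) →
      ∃ L : List S, L.length = m ∧ (∀ b ∈ L, b ∈ T₂) ∧ L.prod = l.prod := by
  induction m with
  | zero =>
    intro l hl _
    have : l = [] := List.length_eq_zero_iff.1 (by simpa using hl)
    exact ⟨[], rfl, by simp, by rw [this]⟩
  | succ m ih =>
    intro l hl hb
    have h3 : (l.drop M).length = M * m := by
      rw [List.length_drop, hl, Nat.mul_succ, Nat.add_sub_cancel]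
    obtain ⟨L, h4, h5, h6⟩ := ih (l.drop M) h3 fun b hb' => hb b (List.mem_of_mem_drop hb')
    obtain ⟨l', h7, h8, h9⟩ := NSM_sub (T₁ := T₁) h2 (l.take M)
      fun b hb' => hb b (List.mem_of_mem_take hb')
    have h10 : (l.take M).length = M := by
      rw [List.length_take, hl, Nat.mul_succ]
      omega
    rw [hM l' (h7.trans h10) h8, sub_zero] at h9
    refine ⟨(l.take M).prod :: L, by simp [h4], ?_, ?_⟩
    · intro b hb'
      rcases List.mem_cons.1 hb' with rfl | hb'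
      · exact h9
      · exact h5 b hb'
    · rw [List.prod_cons, h6, ← List.prod_append, List.take_append_drop]

theorem NSM_nil {S : Type u} [Ring S] {T₁ T₂ : AddSubgroup S} (h2 : IdI T₂)
    (n1 : NilT T₁) (n2 : NilT T₂) : NilT (T₁ ⊔ T₂) := by
  obtain ⟨M₁, hM₁⟩ := n1
  obtain ⟨M₂, hM₂⟩ := n2
  refine ⟨M₁ * M₂, fun l hl hb => ?_⟩
  obtain ⟨L, h3, h4, h5⟩ := NSM_group h2 M₁ hM₁ M₂ l hl hb
  rw [← h5]
  exact hM₂ L h3 h4

theorem p_NSM : Stmt_NSM.{u} := by
  intro S _ κ s T hT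
  refine Finset.sup_induction (p := fun X : AddSubgroup S => IdI X ∧ NilT X) ?_ ?_ hT
  · refine ⟨⟨?_, ?_⟩, 1, ?_⟩
    · intro a b hb
      rw [AddSubgroup.mem_bot] at hb ⊢
      rw [hb, mul_zero]
    · intro a b hb
      rw [AddSubgroup.mem_bot] at hb ⊢
      rw [hb, zero_mul]
    · intro l hl hb
      obtain ⟨c, rfl⟩ := List.length_eq_one_iff.1 hl
      have := hb c (by simp)
      rw [AddSubgroup.mem_bot] at this
      simp [this]
  · rintro X ⟨i1, n1⟩ Y ⟨i2, n2⟩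
    exact ⟨NSM_id i1 i2, NSM_nil i2 n1 n2⟩

end Pool.EA
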