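import Pool.Agent.Work.MP_3617d5_ea.Basic

/-!
# MP_3617d5_al, THEOREM EA: block ORE
-/

set_option autoImplicit false

universe u

namespace Pool.EA

open Pool.NR

section
variable {S : Type u} [Ring S]

theorem ORE_one_add (ψ : RingAut S) (j : ℕ) : ∀ a : S, ((dl ψ + 1) ^ j) a = (ψ ^ j) a := by
  induction j with
  | zero => intro a; rfl
  | succ j ih =>
    intro a
    rw [pow_succ, pow_succ, RingAut.mul_apply, ← ih]
    change ((dl ψ + 1) ^ j) ((dl ψ + 1) a) = _
    congr 1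
    change dl ψ a + a = ψ a
    rw [dl_apply, sub_add_cancel]

theorem ORE_pow {I : AddSubgroup S} {ψ : RingAut S} {p : ℕ} (hp : p.Prime) (hI : InvI I ψ) (hc : ∀ b ∈ I, p • b = 0)
    (h : ∀ b ∈ I, (ψ ^ p) b = b) : ∀ w ∈ I, (dl ψ ^ p) w = 0 := by
  intro w hw
  have h1 := (Commute.one_right (dl ψ)).add_pow_prime_eq hp
  have h2 : ((dl ψ + 1) ^ p) w = w := by rw [ORE_one_add, h w hw]
  rw [h1] at h2
  set R : AddMonoid.End S :=
    ∑ k ∈ Finset.Ioo 0 p, dl ψ ^ (k - 1) * 1 ^ (p - k - 1) * ((p.choose k / p : ℕ) : AddMonoid.End S) with hR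
  have h3 : R w ∈ I := by
    rw [hR]
    refine Finset.sum_induction
      (fun k => dl ψ ^ (k - 1) * 1 ^ (p - k - 1) * ((p.choose k / p : ℕ) : AddMonoid.End S))
      (fun r => r w ∈ I) ?_ ?_ ?_
    · intro a b ha hb
      exact I.add_mem ha hb
    · exact I.zero_mem
    · intro k _
      rw [one_pow, mul_one]
      change (dl ψ ^ (k - 1)) (((p.choose k / p : ℕ) : AddMonoid.End S) w) ∈ I
      refine dl_mem (inv_mem hI) ?_
      rw [AddMonoid.End.natCast_apply]
      exact I.nsmul_mem hw _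
  have h4 : (dl ψ ^ p + 1 ^ p + (p : AddMonoid.End S) * dl ψ * 1 * R) w = (dl ψ ^ p) w + w + p • dl ψ (R w) := by
    rw [one_pow, mul_one]
    change (dl ψ ^ p) w + w + (p : AddMonoid.End S) (dl ψ (R w)) = _
    rw [AddMonoid.End.natCast_apply]
  have h5 : dl ψ (R w) ∈ I := by
    rw [dl_apply]
    exact I.sub_mem (inv_mem hI _ h3) h3
  rw [h4, hc _ h5, add_zero] at h2
  exact left_eq_add.1 (by rw [add_comm]; exact h2.symm)

theorem ORE_base (hDWN : Stmt_DWN.{u}) (hTRC : Stmt_TRC.{u}) {n p : ℕ} (hn : 1 ≤ n) (hp : p.Prime) (hnp : n < p)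
    {I : AddSubgroup S} {ψ : RingAut S} (hG : GoodA n p I ψ) (h : ∀ b ∈ I, (ψ ^ p) b = b) : Tr 1 I ψ := by
  have h0 := hTRC S n p I ψ hn hp hnp hG (ORE_pow hp hG.good.inv hG.chp h)
  have h2 : 2 ≤ p := hp.two_le
  have h1 : ∀ j, j + 2 ≤ p → Tr (p - 1 - j) I ψ := by
    intro j
    induction j with
    | zero => intro _; exact h0
    | succ j ih =>
      intro hj
      refine hDWN S n p (p - 1 - (j + 1)) I ψ hn hp hnp hG (by omega) (by omega) ?_
      have h3 : p - 1 - (j + 1) + 1 = p - 1 - j := by omega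
      rw [h3]
      exact ih (by omega)
  have h3 := h1 (p - 2) (by omega)
  have h4 : p - 1 - (p - 2) = 1 := by omega
  rwa [h4] at h3

end

theorem p_ORE (_hQUB : Stmt_QUB.{u}) (hTRQ : Stmt_TRQ.{u}) (hDWN : Stmt_DWN.{u}) (hTRC : Stmt_TRC.{u}) : Stmt_ORE.{u} := by
  intro n p hn hp hnp e
  induction e with
  | zero =>
    intro S _ I ψ hG h
    refine Tr_of_zero fun b hb => ?_
    have h1 := h b hb
    rw [pow_zero, pow_one] at h1
    rw [dl_one, h1, sub_self]
  | succ e ih =>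
    intro S _ I ψ hG h
    have hG' := GoodA_pow hG (p ^ e)
    obtain ⟨T₀, t1, t2, t3, t4, t5⟩ := ORE_base hDWN hTRC hn hp hnp hG' (by
      intro b hb
      rw [← pow_mul, ← pow_succ]
      exact h b hb)
    set φ : RingAut S := ψ ^ p ^ e with hφ
    have hcomm : ∀ a, ψ (φ a) = φ (ψ a) := by
      intro a
      rw [← RingAut.mul_apply, ← RingAut.mul_apply, hφ, ← pow_succ, ← pow_succ']
    have hZ : InvI (I.map (dl φ)) ψ := by
      intro b
      constructor
      · rintro ⟨c, hc, hcb⟩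
        refine ⟨ψ.symm c, ?_, ?_⟩
        · change ψ.symm c ∈ I
          rw [← hG.good.inv, RingEquiv.apply_symm_apply]
          exact hc
        · apply ψ.injective
          rw [← hcb]
          change ψ (φ (ψ.symm c) - ψ.symm c) = φ c - c
          rw [map_sub, hcomm, RingEquiv.apply_symm_apply]
      · rintro ⟨c, hc, rfl⟩
        refine ⟨ψ c, (hG.good.inv c).2 hc, ?_⟩
        change φ (ψ c) - ψ c = ψ (φ c - c)
        rw [map_sub, hcomm]
    have hT0 : idg (I.map (dl φ)) ≤ T₀ := by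
      refine idg_le t1 ?_
      rintro _ ⟨c, hc, rfl⟩
      have h1 := t5 c hc
      rwa [pow_one] at h1
    obtain ⟨S', _, π, ψ', k1, k2, k3, k4⟩ := QUA hG (idg_idl (I.map (dl φ))) (hT0.trans t2) (idg_inv hZ)
    have h5 := ih S' (I.map π.toAddMonoidHom) ψ' k4 (by
      rintro _ ⟨c, hc, rfl⟩
      change (ψ' ^ p ^ e) (π c) = π c
      rw [aut_pow_map k3, ← sub_eq_zero, ← map_sub, k2]
      exact le_idg _ ⟨c, hc, rfl⟩)
    exact hTRQ S S' I _ ψ π ψ' 1 k1 k2 k3 hG.good.idl hG.good.inv (hT0.trans t2) (NilT_mono hT0 t3) h5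

end Pool.EA
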