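import Pool.Agent.Work.MP_3617d5_ea.Basic

/-!
# Block PLF: power sums modulo a prime
-/

set_option autoImplicit false

universe u

namespace Pool.EA

open Pool.NR

theorem PLF_cast (p : ℕ) [Fact p.Prime] (i : ℕ) :
    ((∑ t ∈ Finset.range p, t ^ i : ℕ) : ZMod p) = ∑ x : ZMod p, x ^ i := by
  rw [Nat.cast_sum]
  refine Finset.sum_nbij' (fun t : ℕ => (t : ZMod p)) ZMod.val ?_ ?_ ?_ ?_ ?_
  · intro a _
    exact Finset.mem_univ _
  · intro a _
    exact Finset.mem_range.2 (ZMod.val_lt a)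
  · intro a ha
    exact ZMod.val_cast_of_lt (Finset.mem_range.1 ha)
  · intro a _
    exact ZMod.natCast_zmod_val a
  · intro a _
    exact Nat.cast_pow _ _

theorem PLF_one (p : ℕ) [Fact p.Prime] : ∑ x : ZMod p, x ^ (p - 1) = -1 := by
  have hp : 1 < p := (Fact.out : p.Prime).one_lt
  have h1 : ∀ x : ZMod p, x ^ (p - 1) = 1 - if x = 0 then 1 else 0 := by
    intro x
    by_cases hx : x = 0
    · rw [if_pos hx, hx, zero_pow (by omega)]
      ring
    · rw [if_neg hx, ZMod.pow_card_sub_one_eq_one hx]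
      ring
  simp only [h1, Finset.sum_sub_distrib, Finset.sum_ite_eq', Finset.mem_univ, if_true,
    Finset.sum_const, Finset.card_univ, ZMod.card, nsmul_eq_mul, mul_one]
  rw [ZMod.natCast_self]
  ring

theorem PLF_zero (p : ℕ) [Fact p.Prime] (j : ℕ) (h2 : 2 ≤ j) (hj : j < p) :
    ∑ x : ZMod p, x ^ (p - 2 + j) = 0 := by
  have h1 : ∀ x : ZMod p, x ^ (p - 2 + j) = x ^ (j - 1) := by
    intro x
    by_cases hx : x = 0
    · rw [hx, zero_pow (by omega), zero_pow (by omega)]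
    · have h3 : p - 2 + j = (p - 1) + (j - 1) := by omega
      rw [h3, pow_add, ZMod.pow_card_sub_one_eq_one hx, one_mul]
  simp only [h1]
  refine FiniteField.sum_pow_lt_card_sub_one (ZMod p) (j - 1) ?_
  rw [ZMod.card]
  omega

theorem p_PLF : Stmt_PLF.{u} := by
  intro S _ p hp T e he hT
  have : Fact p.Prime := ⟨hp⟩
  have hp1 : 1 < p := hp.one_lt
  have hmem : ∑ t ∈ Finset.range p, t ^ (p - 2) • ∑ j ∈ Finset.Ico 1 p, t ^ j • e j ∈ T :=
    T.sum_mem fun t _ => T.nsmul_mem (hT t) _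
  have h1 : ∑ t ∈ Finset.range p, t ^ (p - 2) • ∑ j ∈ Finset.Ico 1 p, t ^ j • e j =
      ∑ j ∈ Finset.Ico 1 p, (∑ t ∈ Finset.range p, t ^ (p - 2 + j)) • e j := by
    simp only [Finset.smul_sum, Finset.sum_smul]
    rw [Finset.sum_comm]
    refine Finset.sum_congr rfl fun j _ => Finset.sum_congr rfl fun t _ => ?_
    rw [smul_smul, pow_add]
  have h2 : ∀ j ∈ Finset.Ico 2 p, (∑ t ∈ Finset.range p, t ^ (p - 2 + j)) • e j = 0 := by
    intro j hj
    rw [Finset.mem_Ico] at hj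
    have h3 : (p : ℕ) ∣ ∑ t ∈ Finset.range p, t ^ (p - 2 + j) := by
      rw [← ZMod.natCast_eq_zero_iff, PLF_cast, PLF_zero p j hj.1 hj.2]
    obtain ⟨c, hc⟩ := h3
    rw [hc, mul_comm, mul_smul, he j (by omega), smul_zero]
  have h4 : (∑ t ∈ Finset.range p, t ^ (p - 2 + 1)) • e 1 = - e 1 := by
    have h3 : (p : ℕ) ∣ (∑ t ∈ Finset.range p, t ^ (p - 2 + 1)) + 1 := by
      have h5 : p - 2 + 1 = p - 1 := by omega
      rw [← ZMod.natCast_eq_zero_iff, Nat.cast_add, PLF_cast, h5, PLF_one, Nat.cast_one]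
      ring
    obtain ⟨c, hc⟩ := h3
    have h6 : ((∑ t ∈ Finset.range p, t ^ (p - 2 + 1)) + 1) • e 1 = 0 := by
      rw [hc, mul_comm, mul_smul, he 1 le_rfl, smul_zero]
    rw [add_smul, one_smul] at h6
    exact eq_neg_of_add_eq_zero_left h6
  rw [h1, Finset.sum_eq_sum_Ico_succ_bot hp1, Finset.sum_eq_zero h2, add_zero, h4] at hmem
  exact neg_mem_iff.1 hmem

end Pool.EA
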