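import Pool.Agent.Work.MP_3617d5_ea.Interface

/-!
# MP_3617d5_al, THEOREM EA: block PLI
-/

set_option autoImplicit false

open Nat

universe u

namespace Pool.EA

open Pool.NR Nat

section
variable {S : Type u} [Ring S]

/-- the coefficients of the inverse -/
def PLI_e (e : ℕ → S) : ℕ → S
  | 0 => 1
  | n + 1 => - ∑ a : Fin (n + 1), e (n + 1 - a.1) * PLI_e e a.1
decreasing_by exact a.2

theorem PLI_e_zero (e : ℕ → S) : PLI_e e 0 = 1 := by rw [PLI_e]

theorem PLI_e_succ (e : ℕ → S) (n : ℕ) :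
    PLI_e e (n + 1) = - ∑ a ∈ Finset.range (n + 1), e (n + 1 - a) * PLI_e e a := by
  rw [PLI_e, Finset.sum_range fun a => e (n + 1 - a) * PLI_e e a]

theorem PLI_one (B : AddSubgroup S) : (1 : S) ∈ Pw B 0 :=
  AddSubgroup.subset_closure ⟨[], rfl, by simp, rfl⟩

theorem PLI_mul (B : AddSubgroup S) (a b : ℕ) {x y : S} (hx : x ∈ Pw B a) (hy : y ∈ Pw B b) :
    x * y ∈ Pw B (a + b) := by
  have h1 : ∀ y ∈ Pw B b, ∀ x ∈ {x | ∃ l : List S, l.length = a ∧ (∀ b ∈ l, b ∈ B) ∧ l.prod = x},
      x * y ∈ Pw B (a + b) := by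
    rintro y hy x ⟨l, hl, hlB, rfl⟩
    induction hy using AddSubgroup.closure_induction with
    | mem y hy =>
      obtain ⟨l', hl', hlB', rfl⟩ := hy
      refine AddSubgroup.subset_closure ⟨l ++ l', by rw [List.length_append, hl, hl'], ?_, by
        rw [List.prod_append]⟩
      intro b hb
      rcases List.mem_append.1 hb with hb | hb
      · exact hlB b hb
      · exact hlB' b hb
    | zero => rw [mul_zero]; exact zero_mem _
    | add y y' _ _ h h' => rw [mul_add]; exact add_mem h h'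
    | neg y _ h => rw [mul_neg]; exact neg_mem h
  induction hx using AddSubgroup.closure_induction with
  | mem x hx => exact h1 y hy x hx
  | zero => rw [zero_mul]; exact zero_mem _
  | add x x' _ _ h h' => rw [add_mul]; exact add_mem h h'
  | neg x _ h => rw [neg_mul]; exact neg_mem h

theorem PLI_le {B : AddSubgroup S} (hB : ∀ a ∈ B, ∀ b ∈ B, a * b ∈ B) {j : ℕ} (hj : 1 ≤ j) :
    Pw B j ≤ B := by
  refine (AddSubgroup.closure_le B).2 ?_
  rintro x ⟨l, hl, hlB, rfl⟩
  have key : ∀ l : List S, l ≠ [] → (∀ b ∈ l, b ∈ B) → l.prod ∈ B := by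
    intro l
    induction l with
    | nil => intro h _; exact absurd rfl h
    | cons a l ih =>
      intro _ h
      by_cases hl : l = []
      · subst hl
        rw [List.prod_singleton]
        exact h a (by simp)
      · rw [List.prod_cons]
        exact hB a (h a (by simp)) _ (ih hl fun b hb => h b (List.mem_cons_of_mem a hb))
  refine key l ?_ hlB
  intro h0
  rw [h0, List.length_nil] at hl
  omega

theorem PLI_mem (B : AddSubgroup S) (e : ℕ → S) (he : ∀ j, e j ∈ Pw B j) (j : ℕ) :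
    PLI_e e j ∈ Pw B j := by
  induction j using Nat.strong_induction_on with
  | _ j ih =>
    cases j with
    | zero => rw [PLI_e_zero]; exact PLI_one B
    | succ n =>
      rw [PLI_e_succ]
      refine neg_mem (sum_mem fun a ha => ?_)
      have ha' : a < n + 1 := Finset.mem_range.1 ha
      have h := PLI_mul B _ _ (he (n + 1 - a)) (ih a ha')
      rwa [Nat.sub_add_cancel ha'.le] at h

theorem PLI_conv (e : ℕ → S) (h0 : e 0 = 1) (n : ℕ) :
    ∑ a ∈ Finset.range (n + 1 + 1), e a * PLI_e e (n + 1 - a) = 0 := by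
  rw [← Finset.sum_range_reflect, Finset.sum_range_succ]
  have e1 : n + 1 + 1 - 1 - (n + 1) = 0 := by omega
  have e2 : n + 1 - (n + 1 + 1 - 1 - (n + 1)) = n + 1 := by omega
  rw [e1, h0, one_mul, Nat.sub_zero, PLI_e_succ, add_neg_eq_zero]
  refine Finset.sum_congr rfl fun a ha => ?_
  have ha' : a < n + 1 := Finset.mem_range.1 ha
  have e3 : n + 1 + 1 - 1 - a = n + 1 - a := by omega
  have e4 : n + 1 - (n + 1 - a) = a := by omega
  rw [e3, e4]

theorem PLI_Z1 {p : ℕ} {B T : AddSubgroup S} (hBT : BT p B T) {s t : S} (hs : Z1 B s) (ht : t ∈ T) :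
    s * t ∈ T := by
  obtain ⟨k, hk⟩ := hs
  have e : s * t = k • t + (s - k • (1 : S)) * t := by
    rw [sub_mul, smul_mul_assoc, one_mul]; abel
  rw [e]
  exact add_mem (zsmul_mem ht k) (hBT.idl _ hk t ht).1

end

theorem p_PLI (hPLM : Stmt_PLM.{u}) : Stmt_PLI.{u} := by
  intro S _ p B T hp hBT f g e hf hg hgf he0 hP
  have hmem := PLI_mem B e hP.mem
  set F : ℕ → S := fun t => ∑ j ∈ Finset.range p, t ^ j • PLI_e e j with hF
  have hFP : Pol p B T F (PLI_e e) := ⟨hmem, fun t => by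
    rw [hF, sub_self]; exact zero_mem _⟩
  have hFZ : ∀ t, Z1 B (F t) := by
    intro t
    refine ⟨1, ?_⟩
    obtain ⟨q, rfl⟩ : ∃ q, p = q + 1 := ⟨p - 1, by omega⟩
    have e1 : F t - (1 : ℤ) • (1 : S) = ∑ j ∈ Finset.range q, t ^ (j + 1) • PLI_e e (j + 1) := by
      simp only [hF]
      rw [Finset.sum_range_succ', PLI_e_zero, pow_zero, one_smul, one_smul, add_sub_cancel_right]
    rw [e1]
    refine sum_mem fun j _ => nsmul_mem ?_ _
    exact PLI_le hBT.mul (Nat.succ_le_succ (Nat.zero_le j)) (hmem (j + 1))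
  have h1 := hPLM S p B T hp hBT f F e (PLI_e e) hf hFZ hP hFP
  refine ⟨PLI_e e, PLI_e_zero e, ?_, hmem, fun t => ?_⟩
  · have h2 := PLI_e_succ e 0
    rw [zero_add, Finset.sum_range_one, PLI_e_zero, mul_one] at h2
    exact h2
  · have h2 := h1.eq t
    have e1 : ∑ j ∈ Finset.range p, t ^ j • ∑ a ∈ Finset.range (j + 1), e a * PLI_e e (j - a) = 1 := by
      obtain ⟨q, rfl⟩ : ∃ q, p = q + 1 := ⟨p - 1, by omega⟩
      rw [Finset.sum_range_succ', Finset.sum_eq_zero fun j _ => by
        rw [PLI_conv e he0 j, smul_zero]]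
      simp [he0, PLI_e_zero]
    rw [e1] at h2
    have h3 := PLI_Z1 hBT (hg t) h2
    rw [mul_sub, ← mul_assoc, hgf, one_mul, mul_one] at h3
    have h4 := neg_mem h3
    rw [neg_sub] at h4
    exact h4

end Pool.EA
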