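import Pool.Agent.Work.MP_3617d5_ea.Basic

/-!
# MP_3617d5_al, THEOREM EA: block PLM
-/

set_option autoImplicit false

open Nat

universe u

namespace Pool.EA

open Pool.NR Nat

section
variable {S : Type u} [Ring S]

theorem PLM_Z1 {p : ℕ} {B T : AddSubgroup S} (hBT : BT p B T) {s t : S} (hs : Z1 B s) (ht : t ∈ T) :
    t * s ∈ T := by
  obtain ⟨k, hk⟩ := hs
  have e : t * s = k • t + t * (s - k • (1 : S)) := by
    rw [mul_sub, mul_smul_comm, mul_one]; abel
  rw [e]
  exact add_mem (zsmul_mem ht k) (hBT.idl _ hk t ht).2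

theorem PLM_list {p : ℕ} {B T : AddSubgroup S} (hBT : BT p B T) {x : S} (hx : x ∈ T) :
    ∀ l : List S, (∀ b ∈ l, b ∈ B) → l.prod * x ∈ T := by
  intro l
  induction l with
  | nil =>
    intro _
    rw [List.prod_nil, one_mul]
    exact hx
  | cons a l ih =>
    intro hl
    rw [List.prod_cons, mul_assoc]
    exact (hBT.idl a (hl a (by simp)) _ (ih fun b hb => hl b (List.mem_cons_of_mem a hb))).1

theorem PLM_Pw {p : ℕ} {B T : AddSubgroup S} (hBT : BT p B T) {j : ℕ} {y x : S} (hy : y ∈ Pw B j) (hx : x ∈ T) :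
    y * x ∈ T := by
  refine Pw_ind (P := fun y => y * x ∈ T) ?_ ?_ ?_ ?_ hy
  · rw [zero_mul]
    exact T.zero_mem
  · intro a b ha hb
    rw [add_mul]
    exact add_mem ha hb
  · intro a ha
    rw [neg_mul]
    exact neg_mem ha
  · intro l _ hl
    exact PLM_list hBT hx l hl

theorem PLM_alg (a b c d g : S) : a * b - g = (a - c) * b + c * (b - d) + (c * d - g) := by
  rw [sub_mul, mul_sub]
  abel

theorem PLM_sum (e e' : ℕ → S) (p t : ℕ) :
    (∑ j ∈ Finset.range p, t ^ j • e j) * (∑ j ∈ Finset.range p, t ^ j • e' j) -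
      ∑ j ∈ Finset.range p, t ^ j • ∑ a ∈ Finset.range (j + 1), e a * e' (j - a) =
    ∑ a ∈ Finset.range p, ∑ b ∈ Finset.Ico (p - a) p, t ^ (a + b) • (e a * e' b) := by
  have h1 : ∑ j ∈ Finset.range p, t ^ j • ∑ a ∈ Finset.range (j + 1), e a * e' (j - a) =
      ∑ j ∈ Finset.range p, ∑ a ∈ Finset.range (j + 1), t ^ (a + (j - a)) • (e a * e' (j - a)) := by
    refine Finset.sum_congr rfl fun j _ => ?_
    rw [Finset.smul_sum]
    refine Finset.sum_congr rfl fun a ha => ?_
    have h2 : a + (j - a) = j := by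
      have := Finset.mem_range.1 ha
      omega
    rw [h2]
  rw [h1, Finset.sum_range_diag_flip p (fun a b => t ^ (a + b) • (e a * e' b)), Finset.sum_mul_sum,
    ← Finset.sum_sub_distrib]
  refine Finset.sum_congr rfl fun a _ => ?_
  rw [Finset.sum_Ico_eq_sub _ (Nat.sub_le p a)]
  refine congrArg₂ (· - ·) ?_ rfl
  refine Finset.sum_congr rfl fun b _ => ?_
  rw [smul_mul_smul_comm, ← pow_add]

end

theorem p_PLM : Stmt_PLM.{u} := by
  intro S _ p B T hp hBT f f' e e' _ hf' hP hP'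
  refine ⟨fun j => ?_, fun t => ?_⟩
  · refine sum_mem fun a ha => ?_
    have h := Pw_mul (hP.mem a) (hP'.mem (j - a))
    have h2 : a + (j - a) = j := by
      have := Finset.mem_range.1 ha
      omega
    rwa [h2] at h
  · rw [PLM_alg (f t) (f' t) (∑ j ∈ Finset.range p, t ^ j • e j) (∑ j ∈ Finset.range p, t ^ j • e' j), PLM_sum]
    refine add_mem (add_mem (PLM_Z1 hBT (hf' t) (hP.eq t)) ?_) ?_
    · rw [Finset.sum_mul]
      refine sum_mem fun j _ => ?_
      rw [smul_mul_assoc]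
      exact nsmul_mem (PLM_Pw hBT (hP.mem j) (hP'.eq t)) _
    · refine sum_mem fun a ha => sum_mem fun b hb => nsmul_mem ?_ _
      have h1 : p ≤ a + b := by
        have := Finset.mem_Ico.1 hb
        omega
      exact hBT.pw (Pw_anti hBT.mul hp h1 (Pw_mul (hP.mem a) (hP'.mem b)))

end Pool.EA
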