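import Pool.Agent.Work.MP_3617d5_ea.Interface

/-!
# MP_3617d5_al, THEOREM EA: block QUB (quotients)
-/

set_option autoImplicit false

open Nat

universe u

namespace Pool.EA

open Pool.NR

/-- the automorphism induced on a quotient -/
theorem QUB_aut {S S' : Type u} [Ring S] [Ring S'] (T : AddSubgroup S) (ψ : RingAut S) (π : S →+* S')
    (hπ : Function.Surjective π) (hker : ∀ a, π a = 0 ↔ a ∈ T) (hT : InvI T ψ) :
    ∃ ψ' : RingAut S', ∀ a, ψ' (π a) = π (ψ a) := by
  have hwd : ∀ a b, π a = π b ↔ π (ψ a) = π (ψ b) := by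
    intro a b
    rw [← sub_eq_zero, ← map_sub, hker, ← sub_eq_zero (a := π (ψ a)), ← map_sub, ← map_sub, hker, hT]
  let g : S' → S := Function.surjInv hπ
  have hg : ∀ s, π (g s) = s := Function.surjInv_eq hπ
  have key : ∀ a, π (ψ (g (π a))) = π (ψ a) := fun a => (hwd _ _).1 (hg (π a))
  let f : S' →+* S' :=
    { toFun := fun s => π (ψ (g s))
      map_one' := by
        have := key 1
        rw [map_one, map_one, map_one] at this
        exact this
      map_zero' := by
        have := key 0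
        rw [map_zero, map_zero, map_zero] at this
        exact this
      map_mul' := by
        intro s t
        have h := key (g s * g t)
        rw [map_mul, hg, hg, map_mul, map_mul] at h
        exact h
      map_add' := by
        intro s t
        have h := key (g s + g t)
        rw [map_add, hg, hg, map_add, map_add] at h
        exact h }
  have hf : ∀ a, f (π a) = π (ψ a) := key
  refine ⟨RingEquiv.ofBijective f ⟨?_, ?_⟩, hf⟩
  · intro s t hst
    obtain ⟨a, rfl⟩ := hπ s
    obtain ⟨b, rfl⟩ := hπ t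
    rw [hf, hf] at hst
    exact (hwd a b).2 hst
  · intro s
    obtain ⟨a, rfl⟩ := hπ s
    refine ⟨π (ψ.symm a), ?_⟩
    rw [hf, RingEquiv.apply_symm_apply]

theorem QUB_pow {S S' : Type u} [Ring S] [Ring S'] {ψ : RingAut S} {π : S →+* S'} {ψ' : RingAut S'}
    (h : ∀ a, ψ' (π a) = π (ψ a)) (j : ℕ) (a : S) : (ψ' ^ j) (π a) = π ((ψ ^ j) a) := by
  induction j generalizing a with
  | zero => simp
  | succ j ih => rw [pow_succ, pow_succ, RingAut.mul_apply, RingAut.mul_apply, h, ih]

theorem p_QUB : Stmt_QUB.{u} := by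
  intro S _ n I ψ hG T hT hTI hTψ
  obtain ⟨S', hS', π, hπ, hker⟩ := p_QUO S T hT
  obtain ⟨ψ', hψ'⟩ := QUB_aut T ψ π hπ hker hTψ
  have lift : ∀ (x' : S'ˣ), (x' : S') - 1 ∈ I.map π.toAddMonoidHom →
      ∃ x : Sˣ, (x : S) - 1 ∈ I ∧ Units.map (π : S →* S') x = x' := by
    intro x' hx
    obtain ⟨b, hb, hbx⟩ := AddSubgroup.mem_map.1 hx
    have hu : IsUnit (1 + b) := hG.uni b hb
    refine ⟨hu.unit, ?_, ?_⟩
    · rw [IsUnit.unit_spec, add_sub_cancel_left]
      exact hb
    · apply Units.ext
      rw [Units.coe_map]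
      have h1 : π b = (x' : S') - 1 := hbx
      change π ((hu.unit : Sˣ) : S) = (x' : S')
      rw [IsUnit.unit_spec, map_add, map_one, h1]
      abel
  refine ⟨S', hS', π, ψ', hπ, hker, hψ', QIL_ideal I π hπ hG.idl, ?_, ?_, ?_, ?_⟩
  · intro b hb
    obtain ⟨b0, hb0, rfl⟩ := AddSubgroup.mem_map.1 hb
    have h := (hG.uni b0 hb0).map π
    rw [map_add, map_one] at h
    exact h
  · intro x' y' hx hy
    obtain ⟨x, hx1, rfl⟩ := lift x' hx
    obtain ⟨y, hy1, rfl⟩ := lift y' hy
    rw [← SK_iter (Units.map (π : S →* S')) x n y, hG.eng x y hx1 hy1, map_one]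
  · intro b'
    obtain ⟨b, rfl⟩ := hπ b'
    rw [hψ']
    constructor
    · intro h
      obtain ⟨c, hc, hcb⟩ := AddSubgroup.mem_map.1 h
      have h1 : π (c - ψ b) = 0 := by
        rw [map_sub, sub_eq_zero]
        exact hcb
      have h2 : ψ b ∈ I := by
        have h3 := I.sub_mem hc (hTI ((hker _).1 h1))
        rwa [sub_sub_cancel] at h3
      exact AddSubgroup.mem_map.2 ⟨b, (hG.inv b).1 h2, rfl⟩
    · intro h
      obtain ⟨c, hc, hcb⟩ := AddSubgroup.mem_map.1 h
      have h1 : π (c - b) = 0 := by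
        rw [map_sub, sub_eq_zero]
        exact hcb
      have h2 : b ∈ I := by
        have h3 := I.sub_mem hc (hTI ((hker _).1 h1))
        rwa [sub_sub_cancel] at h3
      exact AddSubgroup.mem_map.2 ⟨ψ b, (hG.inv b).2 h2, rfl⟩
  · intro j x' hx
    obtain ⟨x, hx1, rfl⟩ := lift x' hx
    have hsc : Function.Semiconj (Units.map (π : S →* S'))
        (fun z : Sˣ => z⁻¹ * Units.map (((ψ ^ j : RingAut S) : S →+* S) : S →* S) z)
        (fun z : S'ˣ => z⁻¹ * Units.map (((ψ' ^ j : RingAut S') : S' →+* S') : S' →* S') z) := by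
      intro z
      rw [map_mul, map_inv]
      congr 1
      apply Units.ext
      exact (QUB_pow hψ' j (z : S)).symm
    rw [← (hsc.iterate_right n) x, hG.enga j x hx1, map_one]

end Pool.EA
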