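import Pool.Agent.Work.MP_3617d5_ea.Interface

set_option autoImplicit false

open Nat

universe u

namespace Pool.EA

open Pool.NR

section
variable {S : Type u} [Ring S]

/-- the additive subgroup generated by the `z * a` -/
def SQZ_B (Z : AddSubgroup S) : AddSubgroup S :=
  AddSubgroup.closure {x | ∃ z ∈ Z, ∃ a, x = z * a}

/-- the additive subgroup generated by the `z * a * z'` -/
def SQZ_W (Z : AddSubgroup S) : AddSubgroup S :=
  AddSubgroup.closure {x | ∃ z ∈ Z, ∃ a, ∃ z' ∈ Z, x = z * a * z'}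

/-- the elements `a * m.prod * (z * b)` with `m` of length `k` -/
def SQZ_P (Z : AddSubgroup S) (k : ℕ) : Set S :=
  {x | ∃ (a b : S) (m : List S), m.length = k ∧ (∀ c ∈ m, c ∈ SQZ_B Z) ∧ ∃ z ∈ Z, x = a * m.prod * (z * b)}

theorem SQZ_Br (Z : AddSubgroup S) (x s : S) (hx : x ∈ SQZ_B Z) : x * s ∈ SQZ_B Z := by
  unfold SQZ_B at hx ⊢
  induction hx using AddSubgroup.closure_induction with
  | mem x hx =>
    obtain ⟨z, hz, a, rfl⟩ := hx
    exact AddSubgroup.subset_closure ⟨z, hz, a * s, by rw [mul_assoc]⟩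
  | zero => rw [zero_mul]; exact zero_mem _
  | add x y _ _ h h' => rw [add_mul]; exact add_mem h h'
  | neg x _ h => rw [neg_mul]; exact neg_mem h

theorem SQZ_BZ (Z : AddSubgroup S) (x z : S) (hx : x ∈ SQZ_B Z) (hz : z ∈ Z) : x * z ∈ SQZ_W Z := by
  unfold SQZ_B at hx
  unfold SQZ_W
  induction hx using AddSubgroup.closure_induction with
  | mem x hx =>
    obtain ⟨z', hz', a, rfl⟩ := hx
    exact AddSubgroup.subset_closure ⟨z', hz', a, z, hz, rfl⟩
  | zero => rw [zero_mul]; exact zero_mem _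
  | add x y _ _ h h' => rw [add_mul]; exact add_mem h h'
  | neg x _ h => rw [neg_mul]; exact neg_mem h

theorem SQZ_BW (Z : AddSubgroup S) (x w : S) (hx : x ∈ SQZ_B Z) (hw : w ∈ SQZ_W Z) : x * w ∈ SQZ_W Z := by
  unfold SQZ_W at hw
  induction hw using AddSubgroup.closure_induction with
  | mem w hw =>
    obtain ⟨z, hz, a, z', hz', rfl⟩ := hw
    have h : x * (z * a * z') = x * (z * a) * z' := by simp only [mul_assoc]
    rw [h]
    exact SQZ_BZ Z _ _ (SQZ_Br Z _ _ hx) hz'
  | zero => rw [mul_zero]; exact zero_mem _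
  | add y y' _ _ h h' => rw [mul_add]; exact add_mem h h'
  | neg y _ h => rw [mul_neg]; exact neg_mem h

theorem SQZ_WZ (Z : AddSubgroup S) (hZ : ∀ z ∈ Z, ∀ z' ∈ Z, z * z' = 0) (w z : S) (hw : w ∈ SQZ_W Z) (hz : z ∈ Z) :
    w * z = 0 := by
  unfold SQZ_W at hw
  induction hw using AddSubgroup.closure_induction with
  | mem w hw =>
    obtain ⟨z1, hz1, a, z', hz', rfl⟩ := hw
    rw [mul_assoc, hZ z' hz' z hz, mul_zero]
  | zero => rw [zero_mul]
  | add x y _ _ h h' => rw [add_mul, h, h', add_zero]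
  | neg x _ h => rw [neg_mul, h, neg_zero]

theorem SQZ_WB (Z : AddSubgroup S) (hZ : ∀ z ∈ Z, ∀ z' ∈ Z, z * z' = 0) (w b : S) (hw : w ∈ SQZ_W Z)
    (hb : b ∈ SQZ_B Z) : w * b = 0 := by
  unfold SQZ_B at hb
  induction hb using AddSubgroup.closure_induction with
  | mem x hx =>
    obtain ⟨z, hz, a, rfl⟩ := hx
    rw [← mul_assoc, SQZ_WZ Z hZ w z hw hz, zero_mul]
  | zero => rw [mul_zero]
  | add x y _ _ h h' => rw [mul_add, h, h', add_zero]
  | neg x _ h => rw [mul_neg, h, neg_zero]

theorem SQZ_WW (Z : AddSubgroup S) (hZ : ∀ z ∈ Z, ∀ z' ∈ Z, z * z' = 0) (w w' : S) (hw : w ∈ SQZ_W Z)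
    (hw' : w' ∈ SQZ_W Z) : w * w' = 0 := by
  unfold SQZ_W at hw'
  induction hw' using AddSubgroup.closure_induction with
  | mem x hx =>
    obtain ⟨z, hz, a, z', hz', rfl⟩ := hx
    rw [mul_assoc z, ← mul_assoc w, SQZ_WZ Z hZ w z hw hz, zero_mul]
  | zero => rw [mul_zero]
  | add x y _ _ h h' => rw [mul_add, h, h', add_zero]
  | neg x _ h => rw [mul_neg, h, neg_zero]

theorem SQZ_mul (Z : AddSubgroup S) (k : ℕ) (t q : S) (ht : t ∈ idg Z)
    (hq : q ∈ AddSubgroup.closure (SQZ_P Z k)) : t * q ∈ AddSubgroup.closure (SQZ_P Z (k + 1)) := by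
  unfold idg at ht
  induction ht using AddSubgroup.closure_induction with
  | mem x hx =>
    obtain ⟨a, z, hz, b, rfl⟩ := hx
    induction hq using AddSubgroup.closure_induction with
    | mem y hy =>
      obtain ⟨a', b', m, hm, hmB, z', hz', rfl⟩ := hy
      refine AddSubgroup.subset_closure ⟨a, b', (z * (b * a')) :: m, by simp [hm], ?_, z', hz', ?_⟩
      · intro c hc
        rcases List.mem_cons.1 hc with h | h
        · rw [h]
          exact AddSubgroup.subset_closure ⟨z, hz, b * a', rfl⟩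
        · exact hmB c h
      · simp only [List.prod_cons, mul_assoc]
    | zero => rw [mul_zero]; exact zero_mem _
    | add y y' _ _ h h' => rw [mul_add]; exact add_mem h h'
    | neg y _ h => rw [mul_neg]; exact neg_mem h
  | zero => rw [zero_mul]; exact zero_mem _
  | add x y _ _ h h' => rw [add_mul]; exact add_mem h h'
  | neg x _ h => rw [neg_mul]; exact neg_mem h

theorem SQZ_prod (Z : AddSubgroup S) (k : ℕ) : ∀ l : List S, l.length = k + 1 → (∀ b ∈ l, b ∈ idg Z) →
    l.prod ∈ AddSubgroup.closure (SQZ_P Z k) := by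
  induction k with
  | zero =>
    intro l hl h
    obtain ⟨t, rfl⟩ := List.length_eq_one_iff.1 hl
    have ht := h t (by simp)
    rw [List.prod_singleton]
    refine AddSubgroup.closure_mono ?_ ht
    rintro x ⟨a, z, hz, b, rfl⟩
    refine ⟨a, b, [], rfl, by simp, z, hz, by simp [mul_assoc]⟩
  | succ k ih =>
    intro l hl h
    match l, hl, h with
    | t :: l', hl, h =>
      rw [List.prod_cons]
      refine SQZ_mul Z k t _ (h t (by simp)) (ih l' (by simpa using hl) fun b hb => h b (by simp [hb]))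

end

theorem p_SQZ (hNHW : Stmt_NHW.{u}) : Stmt_SQZ.{u} := by
  intro S _ n p I hn hp hnp hI hnil hE hchp Z hZI hZ
  have hBI : SQZ_B Z ≤ I := by
    unfold SQZ_B
    rw [AddSubgroup.closure_le]
    rintro x ⟨z, hz, a, rfl⟩
    exact hI.right a z (hZI hz)
  have hWI : SQZ_W Z ≤ I := by
    unfold SQZ_W
    rw [AddSubgroup.closure_le]
    rintro x ⟨z, hz, a, z', hz', rfl⟩
    exact hI.left (z * a) z' (hZI hz')
  have hNH := hNHW S n p I hn hp hnp hnil hE hchp (SQZ_B Z) (SQZ_W Z) hBI hWI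
    (fun a ha b _ => SQZ_Br Z a b ha)
    (fun b hb w hw => ⟨SQZ_BW Z b w hb hw, SQZ_WB Z hZ w b hw hb⟩)
    (fun w hw w' hw' => SQZ_WW Z hZ w w' hw hw')
  refine ⟨⟨?_, ?_⟩, ?_, ?_, ?_⟩
  · intro a b hb
    unfold idg at hb ⊢
    induction hb using AddSubgroup.closure_induction with
    | mem x hx =>
      obtain ⟨c, z, hz, d, rfl⟩ := hx
      exact AddSubgroup.subset_closure ⟨a * c, z, hz, d, by simp only [mul_assoc]⟩
    | zero => rw [mul_zero]; exact zero_mem _
    | add y y' _ _ h h' => rw [mul_add]; exact add_mem h h'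
    | neg y _ h => rw [mul_neg]; exact neg_mem h
  · intro a b hb
    unfold idg at hb ⊢
    induction hb using AddSubgroup.closure_induction with
    | mem x hx =>
      obtain ⟨c, z, hz, d, rfl⟩ := hx
      exact AddSubgroup.subset_closure ⟨c, z, hz, d * a, by simp only [mul_assoc]⟩
    | zero => rw [zero_mul]; exact zero_mem _
    | add y y' _ _ h h' => rw [add_mul]; exact add_mem h h'
    | neg y _ h => rw [neg_mul]; exact neg_mem h
  · intro z hz
    exact AddSubgroup.subset_closure ⟨1, z, hz, 1, by simp⟩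
  · unfold idg
    rw [AddSubgroup.closure_le]
    rintro x ⟨a, z, hz, b, rfl⟩
    exact hI.right b _ (hI.left a z (hZI hz))
  · refine ⟨2 ^ n - 1 + 1 + 1, fun l hl h => ?_⟩
    have h1 := SQZ_prod Z (2 ^ n - 1 + 1) l hl h
    have h2 : SQZ_P Z (2 ^ n - 1 + 1) ⊆ ((⊥ : AddSubgroup S) : Set S) := by
      rintro x ⟨a, b, m, hm, hmB, z, hz, rfl⟩
      have hne : m ≠ [] := by
        rintro rfl
        simp at hm
      have hm2 : m = m.dropLast ++ [m.getLast hne] := (List.dropLast_append_getLast hne).symm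
      have hlen : m.dropLast.length = 2 ^ n - 1 := by
        rw [List.length_dropLast, hm]
        rfl
      have h3 := hNH m.dropLast hlen (fun c hc => hmB c (List.dropLast_subset m hc)) (m.getLast hne * z)
        (SQZ_BZ Z _ z (hmB _ (List.getLast_mem hne)) hz)
      have h4 : m.prod * z = 0 := by
        rw [hm2, List.prod_append, List.prod_singleton, mul_assoc]
        exact h3
      rw [mul_assoc a, ← mul_assoc m.prod, h4]
      simp
    have h3 := (AddSubgroup.closure_le _).2 h2 h1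
    exact (AddSubgroup.mem_bot).1 h3

end Pool.EA
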