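import Pool.Agent.Work.MP_3617d5_ea.Basic
import Pool.Agent.Work.MP_3617d5_nr.B_TRA

/-!
# MP_3617d5_al, THEOREM EA: block TRB (factoring out the `p`-torsion)
-/

set_option autoImplicit false

open Nat

universe u

namespace Pool.EA

open Pool.NR

theorem TRB_inv {S : Type u} [Ring S] (p : ℕ) {I : AddSubgroup S} {ψ : RingAut S} (h : InvI I ψ) :
    InvI (TRA_A p I) ψ := by
  intro b
  rw [TRA_mem, TRA_mem, h b]
  refine and_congr_right fun _ => exists_congr fun k => ?_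
  rw [← map_nsmul]
  exact map_eq_zero_iff ψ ψ.injective

/-- BLOCK TRB. -/
theorem p_TRB (h1 : Stmt_QUB.{u}) (h2 : Stmt_CEA.{u}) : Stmt_TRB.{u} := by
  intro S _ m p e I ψ hG hψ s hs
  obtain ⟨S', _, π, ψ', hπ, hker, hψ', hG'⟩ :=
    h1 S m I ψ hG (TRA_A p I) (TRA_idl p I hG.idl) (fun b hb => hb.1) (TRB_inv p hG.inv)
  have hT' : ∀ b' ∈ I.map π.toAddMonoidHom, p • b' = 0 → b' = 0 := by
    rintro b' ⟨b, hb, rfl⟩ hpb
    have h3 : π (p • b) = 0 := by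
      rw [map_nsmul]
      exact hpb
    obtain ⟨_, k, hk⟩ := (hker _).1 h3
    refine (hker b).2 ⟨hb, k + 1, ?_⟩
    rw [pow_succ, mul_smul, hk]
  have hq' : ∀ b' ∈ I.map π.toAddMonoidHom, (ψ' ^ p ^ e) b' = b' := by
    rintro b' ⟨b, hb, rfl⟩
    exact (QUB_pow hψ' (p ^ e) b).trans (congrArg π (hψ b hb))
  have h4 : ψ' (π s) = π s := h2 S' m p e (I.map π.toAddMonoidHom) ψ' hG' hT' hq' (π s) ⟨s, hs, rfl⟩
  have h5 : π (ψ s - s) = 0 := by
    rw [map_sub, ← hψ', h4, sub_self]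
  exact ((hker _).1 h5).2

end Pool.EA
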