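import Pool.Agent.Work.MP_3617d5_ea.Basic

/-!
# MP_3617d5_al, THEOREM EA: block TRC
-/

set_option autoImplicit false

open Nat

universe u

namespace Pool.EA

open Pool.NR

theorem TRC_lift {α β : Type u} (f : α → β) (P : α → Prop) : ∀ l : List β, (∀ c ∈ l, ∃ a, P a ∧ f a = c) →
    ∃ m : List α, (∀ a ∈ m, P a) ∧ m.map f = l := by
  intro l
  induction l with
  | nil => exact fun _ => ⟨[], by simp, rfl⟩
  | cons c l ih =>
    intro h
    obtain ⟨m, h1, h2⟩ := ih fun c hc => h c (List.mem_cons_of_mem _ hc)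
    obtain ⟨a, h3, h4⟩ := h c List.mem_cons_self
    refine ⟨a :: m, ?_, by rw [List.map_cons, h2, h4]⟩
    intro b hb
    rcases List.mem_cons.1 hb with rfl | hb
    · exact h3
    · exact h1 b hb

theorem TRC_bot {S : Type u} [Ring S] {C : AddSubgroup S} {j k : ℕ}
    (h : ∀ m : List S, m.length = j → (∀ c ∈ m, c ∈ C) → m.prod = 0) (hjk : j ≤ k) : Pw C k ≤ ⊥ := by
  rw [Pw_le_iff]
  intro l h1 h2
  rw [AddSubgroup.mem_bot, ← List.take_append_drop j l, List.prod_append,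
    h (l.take j) (by rw [List.length_take, h1]; omega) fun c hc => h2 c (List.mem_of_mem_take hc), zero_mul]

theorem TRC_fix {S : Type u} [Ring S] {ψ : RingAut S} {C : AddSubgroup S} (h : ∀ c ∈ C, ψ c = c) {k : ℕ} {x : S}
    (hx : x ∈ Pw C k) : ψ x = x := by
  refine Pw_ind (P := fun x => ψ x = x) (map_zero _) ?_ ?_ ?_ hx
  · intro x y hx hy
    rw [map_add, hx, hy]
  · intro x hx
    rw [map_neg, hx]
  · intro l _ h2
    rw [map_list_prod]
    congr 1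
    exact (List.map_congr_left (g := id) fun c hc => h c (h2 c hc)).trans (List.map_id _)

theorem TRC_ind (hTRQ : Stmt_TRQ.{u}) (hSQZ : Stmt_SQZ.{u}) (n p : ℕ) (h1 : 1 ≤ n) (hp : p.Prime) (hnp : n < p) :
    ∀ (L : ℕ) (S : Type u) [Ring S] (I : AddSubgroup S) (ψ : RingAut S), GoodA n p I ψ →
      (∀ w ∈ I, (dl ψ ^ p) w = 0) →
      (∀ m : List S, m.length = L + 1 → (∀ c ∈ m, ∃ w ∈ I, (dl ψ ^ (p - 1)) w = c) → m.prod = 0) →
      Tr (p - 1) I ψ := by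
  intro L
  induction L with
  | zero =>
    intro S _ I ψ _ _ h
    refine Tr_of_zero fun b hb => ?_
    have h2 := h [(dl ψ ^ (p - 1)) b] rfl (by
      intro c hc
      rw [List.mem_singleton.1 hc]
      exact ⟨b, hb, rfl⟩)
    rwa [List.prod_singleton] at h2
  | succ L ih =>
    intro S _ I ψ hG hz h
    have hidl : IdI I := hG.good.idl
    have hC : ∀ c, c ∈ I.map (dl ψ ^ (p - 1)) ↔ ∃ w ∈ I, (dl ψ ^ (p - 1)) w = c := fun c => AddSubgroup.mem_map
    have hCI : I.map (dl ψ ^ (p - 1)) ≤ I := by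
      intro c hc
      obtain ⟨w, hw, rfl⟩ := (hC c).1 hc
      exact dl_mem (inv_mem hG.good.inv) hw
    have hprod : ∀ m : List S, m.length = L + 1 + 1 → (∀ c ∈ m, c ∈ I.map (dl ψ ^ (p - 1))) → m.prod = 0 :=
      fun m hm hm' => h m hm fun c hc => (hC c).1 (hm' c hc)
    have hfix : ∀ c ∈ I.map (dl ψ ^ (p - 1)), ψ c = c := by
      intro c hc
      obtain ⟨w, hw, rfl⟩ := (hC c).1 hc
      rw [← dl_eq_zero, ← dl_succ', Nat.sub_add_cancel hp.one_le]
      exact hz w hw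
    have hZI : Pw (I.map (dl ψ ^ (p - 1))) (L + 1) ≤ I :=
      (Pw_mono hCI _).trans (Pw_le (fun a _ b hb => hidl.left a b hb) (Nat.le_add_left 1 L))
    have hZZ : ∀ z ∈ Pw (I.map (dl ψ ^ (p - 1))) (L + 1), ∀ z' ∈ Pw (I.map (dl ψ ^ (p - 1))) (L + 1), z * z' = 0 := by
      intro z hz z' hz'
      exact (AddSubgroup.mem_bot).1 (TRC_bot hprod (by omega) (Pw_mul hz hz'))
    have hZfix : ∀ z ∈ Pw (I.map (dl ψ ^ (p - 1))) (L + 1), ψ z = z := fun z hz => TRC_fix hfix hz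
    obtain ⟨k1, k2, k3, k4⟩ := hSQZ S n p I h1 hp hnp hidl hG.nil hG.good.eng hG.chp _ hZI hZZ
    have hinv : InvI (idg (Pw (I.map (dl ψ ^ (p - 1))) (L + 1))) ψ := idg_inv_fix hZfix
    obtain ⟨S', hS', π, ψ', hπ, hker, hψ', hG'⟩ := QUA hG k1 k3 hinv
    refine hTRQ S S' I _ ψ π ψ' (p - 1) hπ hker hψ' hidl hG.good.inv k3 k4 (ih S' (I.map π.toAddMonoidHom) ψ' hG' ?_ ?_)
    · intro w' hw'
      obtain ⟨w, hw, rfl⟩ := AddSubgroup.mem_map.1 hw'
      change (dl ψ' ^ p) (π w) = 0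
      rw [dl_map hψ', hz w hw, map_zero]
    · intro m' hm' hc'
      obtain ⟨m, hm, rfl⟩ := TRC_lift π (fun c => c ∈ I.map (dl ψ ^ (p - 1))) m' (by
        intro c' hc
        obtain ⟨w', hw', rfl⟩ := hc' c' hc
        obtain ⟨w, hw, rfl⟩ := AddSubgroup.mem_map.1 hw'
        refine ⟨(dl ψ ^ (p - 1)) w, (hC _).2 ⟨w, hw, rfl⟩, ?_⟩
        rw [← dl_map hψ']
        rfl)
      rw [← map_list_prod, hker]
      rw [List.length_map] at hm'
      exact k2 (hm' ▸ Pw_list m hm)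

theorem p_TRC (_ : Stmt_QUB.{u}) (hTRQ : Stmt_TRQ.{u}) (hSQZ : Stmt_SQZ.{u}) (hBDC : Stmt_BDC.{u}) : Stmt_TRC.{u} := by
  intro S _ n p I ψ h1 hp hnp hG hz
  obtain ⟨L, hL⟩ := hBDC n p h1 hp hnp
  refine TRC_ind hTRQ hSQZ n p h1 hp hnp L S I ψ hG hz ?_
  intro m hm hc
  match m, hm, hc with
  | c :: m, hm, hc =>
    rw [List.prod_cons, hL S I ψ hG hz m (by simpa using hm) fun c hc' => hc c (List.mem_cons_of_mem _ hc'), mul_zero]

end Pool.EA
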