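import Pool.Agent.Work.MP_3617d5_ea.Basic

/-!
# MP_3617d5_al, THEOREM EA: block TRQ
-/

set_option autoImplicit false

universe u

namespace Pool.EA

open Pool.NR

theorem TRQ_group {S : Type u} [Ring S] {A T : AddSubgroup S} {M' : ℕ} (h : ∀ l : List S, l.length = M' → (∀ b ∈ l, b ∈ A) → l.prod ∈ T)
    (M : ℕ) : ∀ l : List S, l.length = M' * M → (∀ b ∈ l, b ∈ A) → ∃ l' : List S, l'.length = M ∧ (∀ b ∈ l', b ∈ T) ∧ l'.prod = l.prod := by
  induction M with
  | zero =>
    intro l h1 _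
    rw [mul_zero, List.length_eq_zero_iff] at h1
    subst h1
    exact ⟨[], rfl, by simp, rfl⟩
  | succ M ih =>
    intro l h1 h2
    have h3 : (l.take M').length = M' := by
      rw [List.length_take, h1]
      exact min_eq_left (Nat.le_mul_of_pos_right _ (by omega))
    have h4 : (l.drop M').length = M' * M := by
      rw [List.length_drop, h1, Nat.mul_succ, Nat.add_sub_cancel]
    obtain ⟨l', k1, k2, k3⟩ := ih (l.drop M') h4 fun b hb => h2 b (List.mem_of_mem_drop hb)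
    refine ⟨(l.take M').prod :: l', by simp [k1], ?_, ?_⟩
    · intro b hb
      rcases List.mem_cons.1 hb with rfl | hb
      · exact h _ h3 fun b hb => h2 b (List.mem_of_mem_take hb)
      · exact k2 b hb
    · rw [List.prod_cons, k3, ← List.prod_append, List.take_append_drop]

theorem p_TRQ : Stmt_TRQ.{u} := by
  intro S S' _ _ I T ψ π ψ' k hπ hker hψ' hI hinv hTI hTn hTr
  obtain ⟨T', t1, t2, t3, t4, t5⟩ := hTr
  have hmem : ∀ b, b ∈ I ⊓ T'.comap π.toAddMonoidHom ↔ b ∈ I ∧ π b ∈ T' := fun b => Iff.rfl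
  refine ⟨I ⊓ T'.comap π.toAddMonoidHom, ⟨?_, ?_⟩, inf_le_left, ?_, ?_, ?_⟩
  · intro a b hb
    rw [hmem] at hb ⊢
    exact ⟨hI.left a b hb.1, by rw [map_mul]; exact t1.left _ _ hb.2⟩
  · intro a b hb
    rw [hmem] at hb ⊢
    exact ⟨hI.right a b hb.1, by rw [map_mul]; exact t1.right _ _ hb.2⟩
  · obtain ⟨M, hM⟩ := hTn
    obtain ⟨M', hM'⟩ := t3
    refine ⟨M' * M, ?_⟩
    intro l h1 h2
    obtain ⟨l', k1, k2, k3⟩ := TRQ_group (A := I ⊓ T'.comap π.toAddMonoidHom) (T := T) (M' := M') (by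
      intro l h1 h2
      rw [← hker, map_list_prod]
      refine hM' _ (by rw [List.length_map, h1]) ?_
      intro c hc
      obtain ⟨b, hb, rfl⟩ := List.mem_map.1 hc
      exact ((hmem b).1 (h2 b hb)).2) M l h1 h2
    rw [← k3]
    exact hM l' k1 k2
  · intro b
    rw [hmem, hmem, hinv, ← hψ', t4]
  · intro b hb
    rw [hmem]
    refine ⟨dl_mem (inv_mem hinv) hb, ?_⟩
    rw [← dl_map hψ']
    exact t5 _ (AddSubgroup.mem_map_of_mem _ hb)

end Pool.EA
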