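import Pool.Agent.Work.MP_3617d5_ea.Basic

/-!
# Block UNB: a bound for the torsion
-/

set_option autoImplicit false

universe u

namespace Pool.EA

open Pool.NR

/-- The functions with values in `I`. -/
def UNB_pi {S : Type u} [Ring S] (I : AddSubgroup S) : AddSubgroup (ℕ → S) where
  carrier := {f | ∀ n, f n ∈ I}
  zero_mem' := fun _ => I.zero_mem
  add_mem' := fun ha hb n => I.add_mem (ha n) (hb n)
  neg_mem' := fun ha n => I.neg_mem (ha n)

theorem UNB_idl {S : Type u} [Ring S] (I : AddSubgroup S) (h : IdI I) : IdI (UNB_pi I) where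
  left := fun a b hb n => h.left (a n) (b n) (hb n)
  right := fun a b hb n => h.right (a n) (b n) (hb n)

theorem UNB_eng {S : Type u} [Ring S] (m : ℕ) (I : AddSubgroup S) (h : EngI m I) : EngI m (UNB_pi I) := by
  intro x y hx hy
  refine Units.ext (funext fun n => ?_)
  let ev : (ℕ → S)ˣ →* Sˣ := Units.map ((Pi.evalRingHom (fun _ : ℕ => S) n : (ℕ → S) →+* S) : (ℕ → S) →* S)
  have hev : ∀ z : (ℕ → S)ˣ, ((ev z : Sˣ) : S) = (z : ℕ → S) n := fun z => rfl
  have hs : Function.Semiconj ev (fun z : (ℕ → S)ˣ => z⁻¹ * x⁻¹ * z * x) (fun z : Sˣ => z⁻¹ * (ev x)⁻¹ * z * ev x) := by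
    intro z
    simp only [map_mul, map_inv]
  have h1 := hs.iterate_right m y
  have h2 := h (ev x) (ev y) (by rw [hev]; exact hx n) (by rw [hev]; exact hy n)
  rw [h2] at h1
  have h3 := hev ((fun z : (ℕ → S)ˣ => z⁻¹ * x⁻¹ * z * x)^[m] y)
  rw [h1] at h3
  rw [← h3]
  rfl

/-- The automorphism acting componentwise. -/
def UNB_au {S : Type u} [Ring S] (ψ : RingAut S) : RingAut (ℕ → S) :=
  RingEquiv.piCongrRight fun _ : ℕ => (ψ : S ≃+* S)

theorem UNB_au_apply {S : Type u} [Ring S] (ψ : RingAut S) (f : ℕ → S) (n : ℕ) : UNB_au ψ f n = ψ (f n) := rfl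

theorem UNB_pow {S : Type u} [Ring S] (ψ : RingAut S) (j : ℕ) (f : ℕ → S) (n : ℕ) :
    (UNB_au ψ ^ j) f n = (ψ ^ j) (f n) := by
  induction j with
  | zero => rfl
  | succ j ih =>
    rw [pow_succ', pow_succ']
    change ψ ((UNB_au ψ ^ j) f n) = ψ ((ψ ^ j) (f n))
    rw [ih]

theorem UNB_enga {S : Type u} [Ring S] (m : ℕ) (I : AddSubgroup S) (ψ : RingAut S) (j : ℕ) (h : EngA m I (ψ ^ j)) :
    EngA m (UNB_pi I) (UNB_au ψ ^ j) := by
  intro x hx
  refine Units.ext (funext fun n => ?_)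
  let ev : (ℕ → S)ˣ →* Sˣ := Units.map ((Pi.evalRingHom (fun _ : ℕ => S) n : (ℕ → S) →+* S) : (ℕ → S) →* S)
  have hev : ∀ z : (ℕ → S)ˣ, ((ev z : Sˣ) : S) = (z : ℕ → S) n := fun z => rfl
  have hs : Function.Semiconj ev
      (fun z : (ℕ → S)ˣ => z⁻¹ * Units.map (((UNB_au ψ ^ j : RingAut (ℕ → S)) : (ℕ → S) →+* (ℕ → S)) : (ℕ → S) →* (ℕ → S)) z)
      (fun z : Sˣ => z⁻¹ * Units.map (((ψ ^ j : RingAut S) : S →+* S) : S →* S) z) := by
    intro z
    simp only [map_mul, map_inv]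
    congr 1
    refine Units.ext ?_
    exact UNB_pow ψ j (z : ℕ → S) n
  have h1 := hs.iterate_right m x
  have h2 := h (ev x) (by rw [hev]; exact hx n)
  rw [h2] at h1
  have h3 := hev ((fun z : (ℕ → S)ˣ => z⁻¹ * Units.map (((UNB_au ψ ^ j : RingAut (ℕ → S)) : (ℕ → S) →+* (ℕ → S)) : (ℕ → S) →* (ℕ → S)) z)^[m] x)
  rw [h1] at h3
  rw [← h3]
  rfl

theorem p_UNB (hTRB : Stmt_TRB.{u}) : Stmt_UNB.{u} := by
  intro S _ m p e I ψ hG hψ
  by_contra hcon
  push Not at hcon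
  choose s hsI hs using hcon
  have hG' : GoodB m (UNB_pi I) (UNB_au ψ) := by
    refine ⟨UNB_idl I hG.idl, fun b hb => Pi.isUnit_iff.2 fun n => hG.uni (b n) (hb n), UNB_eng m I hG.eng, ?_, ?_⟩
    · intro b
      constructor
      · intro h n
        exact (hG.inv (b n)).1 (h n)
      · intro h n
        exact (hG.inv (b n)).2 (h n)
    · intro j
      exact UNB_enga m I ψ j (hG.enga j)
  obtain ⟨k, hk⟩ := hTRB (ℕ → S) m p e (UNB_pi I) (UNB_au ψ) hG'
    (fun b hb => funext fun n => by rw [UNB_pow]; exact hψ (b n) (hb n)) s hsI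
  exact hs k (congrFun hk k)

end Pool.EA
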