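import Pool.Agent.Work.MP_3617d5_ea.Interface

/-! # Block UNE: the unitization of a radical ring and the automorphisms -/

set_option autoImplicit false

open Nat

universe u

namespace Pool.EA

open Pool.NR

/-- the map `(k, a) ↦ (k, ψ a)` -/
def UNE_f {R : Type u} [NonUnitalRing R] (ψ : R ≃+* R) (x : Unitization ℤ R) : Unitization ℤ R :=
  Unitization.inl x.fst + Unitization.inr (ψ x.snd)

theorem UNE_fst {R : Type u} [NonUnitalRing R] (ψ : R ≃+* R) (x : Unitization ℤ R) :
    (UNE_f ψ x).fst = x.fst := by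
  show (Unitization.inl x.fst + Unitization.inr (ψ x.snd) : Unitization ℤ R).fst = x.fst
  rw [Unitization.fst_add, Unitization.fst_inl, Unitization.fst_inr, add_zero]

theorem UNE_snd {R : Type u} [NonUnitalRing R] (ψ : R ≃+* R) (x : Unitization ℤ R) :
    (UNE_f ψ x).snd = ψ x.snd := by
  show (Unitization.inl x.fst + Unitization.inr (ψ x.snd) : Unitization ℤ R).snd = ψ x.snd
  rw [Unitization.snd_add, Unitization.snd_inl, Unitization.snd_inr, zero_add]

/-- the automorphism `(k, a) ↦ (k, ψ a)` -/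
def UNE_Phi {R : Type u} [NonUnitalRing R] (ψ : R ≃+* R) : RingAut (Unitization ℤ R) where
  toFun := UNE_f ψ
  invFun := UNE_f ψ.symm
  left_inv := by
    intro x
    ext
    · rw [UNE_fst, UNE_fst]
    · rw [UNE_snd, UNE_snd, RingEquiv.symm_apply_apply]
  right_inv := by
    intro x
    ext
    · rw [UNE_fst, UNE_fst]
    · rw [UNE_snd, UNE_snd, RingEquiv.apply_symm_apply]
  map_mul' := by
    intro x y
    ext
    · rw [UNE_fst, Unitization.fst_mul, Unitization.fst_mul, UNE_fst, UNE_fst]
    · rw [UNE_snd, Unitization.snd_mul, Unitization.snd_mul, UNE_snd, UNE_snd, UNE_fst, UNE_fst,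
        map_add, map_add, map_mul, map_zsmul, map_zsmul]
  map_add' := by
    intro x y
    ext
    · rw [UNE_fst, Unitization.fst_add, Unitization.fst_add, UNE_fst, UNE_fst]
    · rw [UNE_snd, Unitization.snd_add, Unitization.snd_add, UNE_snd, UNE_snd, map_add]

theorem UNE_Phi_inr {R : Type u} [NonUnitalRing R] (ψ : R ≃+* R) (a : R) :
    UNE_Phi ψ (Unitization.inr a : Unitization ℤ R) = Unitization.inr (ψ a) := by
  show UNE_f ψ (Unitization.inr a : Unitization ℤ R) = Unitization.inr (ψ a)
  ext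
  · rw [UNE_fst, Unitization.fst_inr, Unitization.fst_inr]
  · rw [UNE_snd, Unitization.snd_inr, Unitization.snd_inr]

/-- BLOCK UNE. -/
theorem p_UNE : Stmt_UNE.{u} := by
  intro R _ hR
  refine ⟨Unitization ℤ R, inferInstance, UN3_I R, fun a => Unitization.inr a,
    (Unitization.unitsFstOne ℤ R).subtype.comp
      (Unitization.unitsFstOne_mulEquiv_quasiregular ℤ (A := R)).symm.toMonoidHom,
    UNE_Phi, ⟨?_, ?_⟩, ?_, Unitization.inr_injective, ?_, ?_, ?_, ?_, ?_, ?_, ?_, ?_⟩
  · intro a b hb
    rw [UN3_mem] at hb ⊢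
    rw [Unitization.fst_mul, hb, mul_zero]
  · intro a b hb
    rw [UN3_mem] at hb ⊢
    rw [Unitization.fst_mul, hb, zero_mul]
  · intro b hb
    have h1 := (isQuasiregular_iff_isUnit' ℤ).1 (hR b.snd)
    rw [UN3_eq b hb] at h1
    exact h1
  · intro a
    exact Unitization.fst_inr ℤ a
  · intro b hb
    exact ⟨b.snd, UN3_eq b hb⟩
  · intro a b
    exact Unitization.inr_mul ℤ a b
  · intro a b
    exact Unitization.inr_add ℤ a b
  · exact (Subtype.val_injective).comp
      (Unitization.unitsFstOne_mulEquiv_quasiregular ℤ (A := R)).symm.injective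
  · intro x
    have h1 : (x : Unitization ℤ R) - 1 ∈ UN3_I R ↔ x ∈ Unitization.unitsFstOne ℤ R := by
      rw [UN3_mem, Unitization.mem_unitsFstOne, sub_eq_add_neg, Unitization.fst_add,
        Unitization.fst_neg, Unitization.fst_one, ← sub_eq_add_neg, sub_eq_zero]
    rw [h1]
    constructor
    · intro hx
      refine ⟨(Unitization.unitsFstOne_mulEquiv_quasiregular ℤ (A := R)) ⟨x, hx⟩, ?_⟩
      show (((Unitization.unitsFstOne_mulEquiv_quasiregular ℤ (A := R)).symm
        ((Unitization.unitsFstOne_mulEquiv_quasiregular ℤ (A := R)) ⟨x, hx⟩)) :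
          (Unitization ℤ R)ˣ) = x
      rw [MulEquiv.symm_apply_apply]
    · rintro ⟨y, rfl⟩
      exact ((Unitization.unitsFstOne_mulEquiv_quasiregular ℤ (A := R)).symm y).2
  · intro u
    rfl
  · intro ψ a
    exact UNE_Phi_inr ψ a

end Pool.EA
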