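import Pool.Agent.Work.MP_3617d5_ea.Basic

/-!
# MP_3617d5_al, THEOREM EA: block WRD
-/

set_option autoImplicit false

universe u

namespace Pool.EA

open Pool.NR

theorem WRD_enga {S : Type u} [Ring S] {n : ℕ} (hn : 1 ≤ n) (I : AddSubgroup S) (j : ℕ) : EngA n I ((1 : RingAut S) ^ j) := by
  intro x _
  obtain ⟨m, rfl⟩ : ∃ m, n = m + 1 := ⟨n - 1, by omega⟩
  rw [Function.iterate_succ_apply']
  generalize (fun z : Sˣ => z⁻¹ * Units.map ((((1 : RingAut S) ^ j : RingAut S) : S →+* S) : S →* S) z)^[m] x = y
  rw [inv_mul_eq_one]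
  apply Units.ext
  rw [Units.coe_map, one_pow]
  rfl

theorem WRD_map {S S' : Type u} [Ring S] [Ring S'] (π : S →+* S') (c : S) (l : List S) : π (zw c l) = zw (π c) (l.map π) := by
  induction l with
  | nil => rfl
  | cons a l ih => rw [zw, List.map_cons, zw, map_mul, map_mul, ih]

theorem WRD_app {S : Type u} [Ring S] (c : S) (l l' : List S) : zw c (l ++ l') = (l.map (c * ·)).prod * zw c l' := by
  induction l with
  | nil => simp
  | cons a l ih => rw [List.cons_append, zw, ih, List.map_cons, List.prod_cons, ← mul_assoc]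

theorem p_WRD (hNHW : Stmt_NHW.{u}) (hQUB : Stmt_QUB.{u}) : Stmt_WRD.{u} := by
  intro n p hn hp hnp k
  induction k with
  | zero => intro S _ I _ _ _ _ c _ h; omega
  | succ k ih =>
    intro S _ I hid hnil hE hch c hc _ hck l hl
    rcases Nat.eq_zero_or_pos k with rfl | hk
    · rw [zero_add, pow_one] at hck
      have h0 : l = [] := by
        rw [← List.length_eq_zero_iff, hl]
        simp
      rw [h0, zw, hck]
    · set Z := AddSubgroup.zmultiples (c ^ k) with hZ
      have hcI : ∀ j, 1 ≤ j → c ^ j ∈ I := by
        intro j hj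
        obtain ⟨i, rfl⟩ : ∃ i, j = i + 1 := ⟨j - 1, by omega⟩
        rw [pow_succ]
        exact hid.left _ _ hc
      have hZI : Z ≤ I := by
        rw [hZ]
        exact AddSubgroup.zmultiples_le_of_mem (hcI k hk)
      have hG : GoodA n p I (1 : RingAut S) :=
        ⟨⟨hid, fun b hb => (hnil b hb).isUnit_one_add, hE, InvI_one I, fun j => WRD_enga hn I j⟩, hnil, hch⟩
      obtain ⟨S', hS', π, ψ', hπ, hker, hψ', hG'⟩ := QUA hG (idg_idl Z) (idg_le hid hZI) (idg_inv_fix (ψ := 1) fun z _ => rfl)
      have h1 : l = l.take (2 ^ n) ++ l.drop (2 ^ n) := (List.take_append_drop _ _).symm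
      have hle : 2 ^ n ≤ 2 ^ n * (k + 1 - 1) := Nat.le_mul_of_pos_right _ (by omega)
      have hl1 : (l.take (2 ^ n)).length = 2 ^ n := by
        rw [List.length_take, hl]
        exact min_eq_left hle
      have hl2 : (l.drop (2 ^ n)).length = 2 ^ n * (k - 1) := by
        rw [List.length_drop, hl, Nat.add_sub_cancel, Nat.mul_sub, mul_one]
      have hT : zw c (l.drop (2 ^ n)) ∈ idg Z := by
        rw [← hker, WRD_map]
        refine ih S' (I.map π.toAddMonoidHom) hG'.good.idl hG'.nil hG'.good.eng hG'.chp (π c) (AddSubgroup.mem_map_of_mem _ hc) hk ?_ _ ?_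
        · rw [← map_pow, hker]
          exact le_idg Z (AddSubgroup.mem_zmultiples _)
        · rw [List.length_map, hl2]
      rw [h1, WRD_app]
      generalize l.drop (2 ^ n) = l2 at hT
      generalize l.take (2 ^ n) = l1 at hl1
      have key : ∀ a : S, (l1.map (c * ·)).prod * (a * c ^ k) = 0 := by
        intro a
        have hne : l1 ≠ [] := by
          rintro rfl
          rw [List.length_nil] at hl1
          have := Nat.one_le_two_pow (n := n)
          omega
        rcases List.eq_nil_or_concat l1 with h | ⟨l0, x, h⟩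
        · exact absurd h hne
        · rw [List.concat_eq_append] at h
          subst h
          rw [List.map_append, List.prod_append, List.map_singleton, List.prod_singleton]
          let W : AddSubgroup S := ((AddMonoidHom.mulLeft c).comp (AddMonoidHom.mulRight (c ^ k))).range
          have hWm : ∀ w, w ∈ W ↔ ∃ a, c * (a * c ^ k) = w := fun w => Iff.rfl
          have hcc : c ^ k * c = 0 := by rw [← pow_succ, hck]
          have h2 := hNHW S n p I hn hp hnp hnil hE hch (rS c) W (rS_le hid hc) (by
            intro w hw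
            obtain ⟨a, rfl⟩ := (hWm w).1 hw
            exact hid.right _ _ hc) (rS_mul c) (by
            intro b hb w hw
            obtain ⟨a', rfl⟩ := mem_rS.1 hb
            obtain ⟨a, rfl⟩ := (hWm w).1 hw
            refine ⟨(hWm _).2 ⟨a' * (c * a), by noncomm_ring⟩, ?_⟩
            rw [show c * (a * c ^ k) * (c * a') = c * a * (c ^ k * c) * a' by noncomm_ring, hcc, mul_zero, zero_mul]) (by
            intro w hw w' hw'
            obtain ⟨a, rfl⟩ := (hWm w).1 hw
            obtain ⟨a', rfl⟩ := (hWm w').1 hw'
            rw [show c * (a * c ^ k) * (c * (a' * c ^ k)) = c * a * (c ^ k * c) * (a' * c ^ k) by noncomm_ring, hcc, mul_zero, zero_mul])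
            (l0.map (c * ·)) (by
              rw [List.length_map]
              rw [List.length_append, List.length_singleton] at hl1
              omega) (by
              intro b hb
              obtain ⟨a, _, rfl⟩ := List.mem_map.1 hb
              exact mem_rS.2 ⟨a, rfl⟩) (c * ((x * a) * c ^ k)) ((hWm _).2 ⟨x * a, rfl⟩)
          rw [← h2]
          noncomm_ring
      refine idg_ind (P := fun t => (l1.map (c * ·)).prod * t = 0) (mul_zero _) ?_ ?_ ?_ hT
      · intro x y hx hy
        rw [mul_add, hx, hy, add_zero]
      · intro x hx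
        rw [mul_neg, hx, neg_zero]
      · intro a z hz b
        obtain ⟨j, rfl⟩ := AddSubgroup.mem_zmultiples_iff.1 hz
        rw [← mul_assoc, mul_smul_comm, mul_smul_comm, key, smul_zero, zero_mul]

end Pool.EA
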