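import Pool.Agent.Work.MP_3617d5_ea.Skel
import Pool.Agent.Work.MP_3617d5_ea.B_KGS
import Pool.Agent.Work.MP_3617d5_ea.B_NHW
import Pool.Agent.Work.MP_3617d5_ea.B_QUB
import Pool.Agent.Work.MP_3617d5_ea.B_WRD
import Pool.Agent.Work.MP_3617d5_ea.B_SQZ
import Pool.Agent.Work.MP_3617d5_ea.B_PLM
import Pool.Agent.Work.MP_3617d5_ea.B_PLI
import Pool.Agent.Work.MP_3617d5_ea.B_PLF
import Pool.Agent.Work.MP_3617d5_ea.B_LNA
import Pool.Agent.Work.MP_3617d5_ea.B_CPW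
import Pool.Agent.Work.MP_3617d5_ea.B_LEV
import Pool.Agent.Work.MP_3617d5_ea.B_BDC
import Pool.Agent.Work.MP_3617d5_ea.B_LBZ
import Pool.Agent.Work.MP_3617d5_ea.B_TRQ
import Pool.Agent.Work.MP_3617d5_ea.B_DWN
import Pool.Agent.Work.MP_3617d5_ea.B_TRC
import Pool.Agent.Work.MP_3617d5_ea.B_ORE
import Pool.Agent.Work.MP_3617d5_ea.B_CPK
import Pool.Agent.Work.MP_3617d5_ea.B_PRA
import Pool.Agent.Work.MP_3617d5_ea.B_CIA
import Pool.Agent.Work.MP_3617d5_ea.B_CEA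
import Pool.Agent.Work.MP_3617d5_ea.B_TRB
import Pool.Agent.Work.MP_3617d5_ea.B_UNB
import Pool.Agent.Work.MP_3617d5_ea.B_GCH
import Pool.Agent.Work.MP_3617d5_ea.B_UNE
import Pool.Agent.Work.MP_3617d5_ea.B_ACT
import Pool.Agent.Work.MP_3617d5_ea.B_NSM
import Pool.Agent.Work.MP_3617d5_ea.B_INV
import Pool.Agent.Work.MP_3617d5_ea.B_GRH

/-!
# MP_3617d5_al, THEOREM EA: all blocks together
-/

set_option autoImplicit false

universe u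

namespace Pool.EA

open Pool.NR

theorem ea_NHW : Stmt_NHW.{u} := p_NHW p_KGS

theorem ea_SQZ : Stmt_SQZ.{u} := p_SQZ ea_NHW

theorem ea_CPW : Stmt_CPW.{u} := p_CPW (p_LNA p_PLM (p_PLI p_PLM) p_PLF)

theorem ea_BDC : Stmt_BDC.{u} := p_BDC (p_WRD ea_NHW p_QUB) (p_LEV ea_CPW)

theorem ea_ORE : Stmt_ORE.{u} :=
  p_ORE p_QUB p_TRQ (p_DWN p_QUB p_TRQ ea_SQZ p_LBZ) (p_TRC p_QUB p_TRQ ea_SQZ ea_BDC)

theorem ea_UNB : Stmt_UNB.{u} := p_UNB (p_TRB p_QUB (p_CEA p_PRA p_CIA))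

theorem ea_GCH : Stmt_GCH.{u} := p_GCH ea_UNB (p_CPK p_QUB p_TRQ ea_ORE) p_QUB

theorem ea_main (p n m : ℕ) (hp : p.Prime) (hn : n < p) (hm : m < p) (G : Type u) [Group G] (hG : IsPGroup p G) (hGE : Engel n G)
    (K : Type u) [Group K] (hK : IsPGroup p K) (hE : Engel m K) (R : Type u) [NonUnitalRing R]
    (hR : ∀ a : R, IsQuasiregular a) (i : Adj R →* K) (hi : FiniteExt K R i) (f : G →* K)
    (hf : Group.IsSolvable f.ker) : Fitting G :=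
  SKE_main ea_GCH (p_ACT p_UNE) (p_INV p_NSM) p_GRH p n m hp hn hm G hG hGE K hK hE R hR i hi f hf

end Pool.EA
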