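import Pool.Agent.Work.MP_3617d5_ea.Basic

/-! # Block CEA: the automorphism is trivial on a `p`-torsion free ideal (helper92, edit of `B_CEN`) -/

set_option autoImplicit false

open Nat

universe u

namespace Pool.EA

open Pool.NR

section
variable {S : Type u} [Ring S]

/-- `dl ψ` restricted to `I` -/
def CEA_D {I : AddSubgroup S} {ψ : RingAut S} (h : InvI I ψ) : AddMonoid.End I where
  toFun b := ⟨dl ψ b, by
    rw [dl_apply]
    exact I.sub_mem ((h _).2 b.2) b.2⟩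
  map_zero' := Subtype.ext (by
    show dl ψ ((0 : I) : S) = ((0 : I) : S)
    rw [AddSubgroup.coe_zero, map_zero])
  map_add' a b := Subtype.ext (by
    show dl ψ ((a + b : I) : S) = dl ψ (a : S) + dl ψ (b : S)
    rw [AddSubgroup.coe_add, map_add])

theorem CEA_coe {I : AddSubgroup S} {ψ : RingAut S} (h : InvI I ψ) (b : I) :
    ((CEA_D h b : I) : S) = dl ψ (b : S) := rfl

theorem CEA_pow {I : AddSubgroup S} {ψ : RingAut S} (h : InvI I ψ) (i : ℕ) (b : I) :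
    (((CEA_D h ^ i) b : I) : S) = (dl ψ ^ i) (b : S) := by
  induction i with
  | zero => rfl
  | succ i ih =>
    rw [dl_succ', ← ih, ← CEA_coe h, _root_.pow_succ']
    rfl

theorem CEA_one {I : AddSubgroup S} {ψ : RingAut S} (h : InvI I ψ) (i : ℕ) (b : I) :
    ((((1 + CEA_D h) ^ i) b : I) : S) = (ψ ^ i) (b : S) := by
  induction i with
  | zero => rfl
  | succ i ih =>
    have h1 : ((1 + CEA_D h) ^ (i + 1)) b = (1 + CEA_D h) (((1 + CEA_D h) ^ i) b) := by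
      rw [_root_.pow_succ']
      rfl
    have h2 : ∀ c : I, (((1 + CEA_D h) c : I) : S) = ψ (c : S) := fun c => by
      have h3 : (1 + CEA_D h) c = c + CEA_D h c := rfl
      rw [h3, AddSubgroup.coe_add, CEA_coe, dl_apply]
      abel
    rw [h1, h2, ih, _root_.pow_succ', RingAut.mul_apply]

theorem CEA_tf {I : AddSubgroup S} {p : ℕ}
    (hp : ∀ b ∈ I, p • b = 0 → b = 0) (k : ℕ) : ∀ b ∈ I, p ^ k • b = 0 → b = 0 := by
  induction k with
  | zero =>
    intro b _ h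
    simpa using h
  | succ k ih =>
    intro b hb h
    rw [_root_.pow_succ', mul_smul] at h
    exact ih b hb (hp _ (I.nsmul_mem hb _) h)

/-- the `p`-divisible part -/
def CEA_L (I : AddSubgroup S) (p : ℕ) : AddSubgroup S where
  carrier := {b | ∀ r : ℕ, ∃ c ∈ I, b = p ^ r • c}
  zero_mem' := fun r => ⟨0, I.zero_mem, by simp⟩
  add_mem' := by
    intro a b ha hb r
    obtain ⟨c, hc, rfl⟩ := ha r
    obtain ⟨d, hd, rfl⟩ := hb r
    exact ⟨c + d, I.add_mem hc hd, by rw [smul_add]⟩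
  neg_mem' := by
    intro a ha r
    obtain ⟨c, hc, rfl⟩ := ha r
    exact ⟨-c, I.neg_mem hc, by rw [smul_neg]⟩

theorem CEA_mem {I : AddSubgroup S} {p : ℕ} {b : S} :
    b ∈ CEA_L I p ↔ ∀ r : ℕ, ∃ c ∈ I, b = p ^ r • c := Iff.rfl

theorem CEA_idl {I : AddSubgroup S} (hI : IdI I) (p : ℕ) : IdI (CEA_L I p) := by
  constructor
  · intro a b hb r
    obtain ⟨c, hc, rfl⟩ := hb r
    exact ⟨a * c, hI.left a c hc, by rw [mul_smul_comm]⟩
  · intro a b hb r
    obtain ⟨c, hc, rfl⟩ := hb r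
    exact ⟨c * a, hI.right a c hc, by rw [smul_mul_assoc]⟩

theorem CEA_inv {I : AddSubgroup S} {ψ : RingAut S} (h : InvI I ψ) (p : ℕ) :
    InvI (CEA_L I p) ψ := by
  intro b
  constructor
  · intro hb r
    obtain ⟨c, hc, e⟩ := hb r
    refine ⟨ψ.symm c, (h _).1 (by rwa [RingEquiv.apply_symm_apply]), ψ.injective ?_⟩
    rw [map_nsmul, RingEquiv.apply_symm_apply, e]
  · intro hb r
    obtain ⟨c, hc, rfl⟩ := hb r
    exact ⟨ψ c, (h _).2 hc, by rw [map_nsmul]⟩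

/-- LDE on the group `I` -/
theorem CEA_lde {I : AddSubgroup S} {ψ : RingAut S} (h : InvI I ψ) (T : AddSubgroup S) (q m : ℕ)
    (hq : ∀ b ∈ I, (ψ ^ q) b = b) (hT : ∀ s ∈ I, ∀ i, m ≤ i → (dl ψ ^ i) s ∈ T) :
    ∀ s ∈ I, q ^ m • dl ψ s ∈ T := by
  intro s hs
  have h1 : (1 + CEA_D h) ^ q = 1 := by
    ext b
    rw [CEA_one, hq _ b.2]
    rfl
  have h2 := p_LDE I (CEA_D h) ⊤ (T.addSubgroupOf I) q m h1 (fun b _ i hi => by
    rw [AddSubgroup.mem_addSubgroupOf, CEA_pow]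
    exact hT b b.2 i hi) ⟨s, hs⟩ (AddSubgroup.mem_top _)
  rw [AddSubgroup.mem_addSubgroupOf] at h2
  have h3 : ((q ^ m • CEA_D h ⟨s, hs⟩ : I) : S) = q ^ m • dl ψ s := by
    rw [AddSubgroup.coe_nsmul, CEA_coe]
  rwa [h3] at h2

end

theorem p_CEA (hPRA : Stmt_PRA.{u}) (hCIA : Stmt_CIA.{u}) : Stmt_CEA.{u} := by
  intro S _ m p e I ψ hG hp hq s hs
  have hI := hG.idl
  have hinv := hG.inv
  have hE : EngA m I ψ := by
    have := hG.enga 1
    rwa [pow_one] at this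
  have hL := CEA_idl hI p
  have hLI : CEA_L I p ≤ I := by
    intro b hb
    obtain ⟨c, hc, h⟩ := hb 0
    rw [h, pow_zero, one_smul]
    exact hc
  have hLinv := CEA_inv hinv p
  have htf := CEA_tf hp
  have hdiv : ∀ (k : ℕ) (b : S), b ∈ I → p ^ k • b ∈ CEA_L I p → b ∈ CEA_L I p := by
    intro k b hb h r
    obtain ⟨c, hc, h1⟩ := h (k + r)
    refine ⟨c, hc, ?_⟩
    have h2 : p ^ k • (b - p ^ r • c) = 0 := by
      rw [smul_sub, h1, pow_add, mul_smul, sub_self]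
    exact sub_eq_zero.mp (htf k _ (I.sub_mem hb (I.nsmul_mem hc _)) h2)
  have hDI : ∀ t ∈ I, dl ψ t ∈ I := fun t ht => by
    rw [dl_apply]
    exact I.sub_mem (inv_mem hinv t ht) ht
  -- step 1: `Δ s ∈ L`
  have h1 : ∀ t ∈ I, dl ψ t ∈ CEA_L I p := by
    intro t ht
    have h2 := CEA_lde hinv (CEA_L I p) (p ^ e) m hq (fun t ht i hi => by
      have h3 : (dl ψ ^ m) t ∈ CEA_L I p := fun r =>
        hPRA S m (p ^ r) I ψ hI hG.uni hinv hE (htf r) t ht
      have h4 : i = (i - m) + m := by omega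
      rw [h4, dl_add]
      exact dl_mem (inv_mem hLinv) h3) t ht
    rw [← pow_mul] at h2
    exact hdiv _ _ (hDI t ht) h2
  -- step 2: `Δ (Δ s) = 0`
  have h2 : ∀ t ∈ I, dl ψ (dl ψ t) = 0 := by
    intro t ht
    exact dl_eq_zero.2 (hCIA S m (p ^ e) I (CEA_L I p) ψ hI hG.uni hinv hE (htf e) hL hLI hLinv
      (fun b hb => hb e) hq (dl ψ t) (h1 t ht))
  -- step 3: `Δ s = 0`
  have h3 := CEA_lde hinv ⊥ (p ^ e) 2 hq (fun t ht i hi => by
    have h4 : i = (i - 2) + 2 := by omega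
    have h5 : (dl ψ ^ 2) t = 0 := by
      rw [show (2 : ℕ) = 1 + 1 from rfl, dl_succ', pow_one]
      exact h2 t ht
    rw [h4, dl_add, h5, map_zero]
    exact zero_mem _) s hs
  rw [AddSubgroup.mem_bot, ← pow_mul] at h3
  exact dl_eq_zero.1 (htf _ _ (hDI s hs) h3)

end Pool.EA
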