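import Pool.Agent.Work.MP_3617d5_ea.Basic

/-!
# MP_3617d5_al, THEOREM EA: block CPW
-/

set_option autoImplicit false

universe u

namespace Pool.EA

open Pool.NR Nat

theorem CPW_BT {S : Type u} [Ring S] (c : S) {p : ℕ} (hp : 1 ≤ p) :
    BT p (rS c) (Pw (rS c) p) := by
  refine ⟨rS_mul c, Pw_le (rS_mul c) hp, ?_, le_rfl⟩
  intro b hb t ht
  refine ⟨?_, Pw_rS_right hp ht b⟩
  have h1 : b ∈ Pw (rS c) 1 := by rwa [Pw_one]
  exact Pw_anti (rS_mul c) hp (Nat.le_add_left p 1) (Pw_mul h1 ht)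

theorem p_CPW (hLNA : Stmt_LNA.{u}) : Stmt_CPW.{u} := by
  intro S _ n p I ψ hp hG c hc hψ w
  have he : EngA n I ψ := by
    have h := hG.good.enga 1
    rwa [pow_one] at h
  rw [← dl_mul_left hψ]
  exact hLNA S n p I (rS c) (Pw (rS c) p) ψ hp hG.nil hG.chp he (rS_le hG.good.idl hc)
    (CPW_BT c hp.one_le) (rS_aut hψ) (fun b hb => Pw_aut ψ (rS_aut hψ) hb) (c * w)
    (mem_rS.2 ⟨w, rfl⟩)

end Pool.EA
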