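import Pool.Agent.Work.MP_3617d5_ea.B_QUB

/-!
# MP_3617d5_al, THEOREM EA: basic lemmas on `Pw`, `rS`, `dl`, `idg`, `GoodA`
-/

set_option autoImplicit false

universe u

namespace Pool.EA

open Pool.NR

section
variable {S : Type u} [Ring S]

/-! ## The groups `Pw B k` -/

theorem Pw_list {B : AddSubgroup S} (l : List S) (h : ∀ b ∈ l, b ∈ B) : l.prod ∈ Pw B l.length :=
  AddSubgroup.subset_closure ⟨l, rfl, h, rfl⟩

theorem Pw_ind {B : AddSubgroup S} {k : ℕ} {P : S → Prop} (h0 : P 0) (hadd : ∀ x y, P x → P y → P (x + y)) (hneg : ∀ x, P x → P (-x))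
    (hl : ∀ l : List S, l.length = k → (∀ b ∈ l, b ∈ B) → P l.prod) {x : S} (hx : x ∈ Pw B k) : P x := by
  refine AddSubgroup.closure_induction (p := fun x _ => P x) ?_ h0 (fun x y _ _ => hadd x y) (fun x _ => hneg x) hx
  rintro _ ⟨l, h1, h2, rfl⟩
  exact hl l h1 h2

theorem Pw_le_iff {B C : AddSubgroup S} {k : ℕ} : Pw B k ≤ C ↔ ∀ l : List S, l.length = k → (∀ b ∈ l, b ∈ B) → l.prod ∈ C := by
  constructor
  · intro h l h1 h2
    exact h (h1 ▸ Pw_list l h2)
  · intro h x hx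
    exact Pw_ind C.zero_mem (fun _ _ => C.add_mem) (fun _ => C.neg_mem) h hx

theorem Pw_mul {B : AddSubgroup S} {a b : ℕ} {x y : S} (hx : x ∈ Pw B a) (hy : y ∈ Pw B b) : x * y ∈ Pw B (a + b) := by
  refine Pw_ind (P := fun x => x * y ∈ Pw B (a + b)) ?_ ?_ ?_ ?_ hx
  · simp
  · intro x x' h h'
    rw [add_mul]
    exact (Pw B (a + b)).add_mem h h'
  · intro x h
    rw [neg_mul]
    exact (Pw B (a + b)).neg_mem h
  · intro l h1 h2
    refine Pw_ind (P := fun y => l.prod * y ∈ Pw B (a + b)) ?_ ?_ ?_ ?_ hy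
    · simp
    · intro x x' h h'
      rw [mul_add]
      exact (Pw B (a + b)).add_mem h h'
    · intro x h
      rw [mul_neg]
      exact (Pw B (a + b)).neg_mem h
    · intro l' h1' h2'
      rw [← List.prod_append, ← h1, ← h1', ← List.length_append]
      refine Pw_list _ ?_
      intro c hc
      rcases List.mem_append.1 hc with hc | hc
      · exact h2 c hc
      · exact h2' c hc

theorem Pw_mono {B C : AddSubgroup S} (h : B ≤ C) (k : ℕ) : Pw B k ≤ Pw C k :=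
  Pw_le_iff.2 fun l h1 h2 => h1 ▸ Pw_list l fun b hb => h (h2 b hb)

theorem Pw_Pw (B : AddSubgroup S) (a k : ℕ) : Pw (Pw B a) k ≤ Pw B (a * k) := by
  rw [Pw_le_iff]
  intro l h1 h2
  subst h1
  induction l with
  | nil => simpa using Pw_list (B := B) [] (by simp)
  | cons c l ih =>
    rw [List.prod_cons, List.length_cons, mul_add, mul_one, add_comm]
    exact Pw_mul (h2 c (by simp)) (ih fun b hb => h2 b (by simp [hb]))

theorem Pw_one (B : AddSubgroup S) : Pw B 1 = B := by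
  apply le_antisymm
  · rw [Pw_le_iff]
    intro l h1 h2
    obtain ⟨b, rfl⟩ := List.length_eq_one_iff.1 h1
    simpa using h2
  · intro b hb
    simpa using Pw_list (B := B) [b] (by simpa using hb)

theorem Pw_zero {B : AddSubgroup S} {x : S} (hx : x ∈ Pw B 0) : ∃ k : ℤ, x = k • (1 : S) := by
  refine Pw_ind (P := fun x => ∃ k : ℤ, x = k • (1 : S)) ⟨0, by simp⟩ ?_ ?_ ?_ hx
  · rintro _ _ ⟨k, rfl⟩ ⟨k', rfl⟩
    exact ⟨k + k', (add_smul k k' _).symm⟩
  · rintro _ ⟨k, rfl⟩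
    exact ⟨-k, (neg_smul k _).symm⟩
  · intro l h1 _
    rw [List.length_eq_zero_iff.1 h1]
    exact ⟨1, by simp⟩

/-- `Pw B k ≤ B` for `k ≥ 1` if `B` is closed under products -/
theorem Pw_le {B : AddSubgroup S} (hB : ∀ a ∈ B, ∀ b ∈ B, a * b ∈ B) {k : ℕ} (hk : 1 ≤ k) : Pw B k ≤ B := by
  induction k, hk using Nat.le_induction with
  | base => rw [Pw_one]
  | succ k hk ih =>
    rw [Pw_le_iff]
    intro l h1 h2
    match l, h1, h2 with
    | c :: l, h1, h2 =>
      rw [List.prod_cons]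
      refine hB c (h2 c (by simp)) _ (ih ?_)
      have h3 : l.length = k := by simpa using h1
      exact h3 ▸ Pw_list l fun b hb => h2 b (by simp [hb])

/-- `Pw B j ≤ Pw B k` for `1 ≤ k ≤ j` if `B` is closed under products -/
theorem Pw_anti {B : AddSubgroup S} (hB : ∀ a ∈ B, ∀ b ∈ B, a * b ∈ B) {k j : ℕ} (hk : 1 ≤ k) (hj : k ≤ j) : Pw B j ≤ Pw B k := by
  rw [Pw_le_iff]
  intro l h1 h2
  obtain ⟨d, rfl⟩ := Nat.exists_eq_add_of_le hj
  have h3 : l = l.take (d + 1) ++ l.drop (d + 1) := (List.take_append_drop _ _).symm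
  rw [h3, List.prod_append]
  have h4 : (l.take (d + 1)).prod ∈ B := by
    refine Pw_le hB (k := d + 1) (by omega) ?_
    have h5 : (l.take (d + 1)).length = d + 1 := by
      rw [List.length_take, h1]
      omega
    have h6 := Pw_list (l.take (d + 1)) fun b hb => h2 b (List.mem_of_mem_take hb)
    rwa [h5] at h6
  have h6 : (l.drop (d + 1)).prod ∈ Pw B (k - 1) := by
    have h5 : (l.drop (d + 1)).length = k - 1 := by
      rw [List.length_drop, h1]
      omega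
    have h6 := Pw_list (l.drop (d + 1)) fun b hb => h2 b (List.mem_of_mem_drop hb)
    rwa [h5] at h6
  have h7 := Pw_mul (by rwa [Pw_one] : (l.take (d + 1)).prod ∈ Pw B 1) h6
  have h8 : 1 + (k - 1) = k := by omega
  rwa [h8] at h7

/-- the ring homomorphism `f` maps `Pw B k` to `Pw C k` if it maps `B` to `C` -/
theorem Pw_map {S' : Type u} [Ring S'] (f : S →+* S') {B : AddSubgroup S} {C : AddSubgroup S'} (h : ∀ b ∈ B, f b ∈ C) {k : ℕ} {x : S}
    (hx : x ∈ Pw B k) : f x ∈ Pw C k := by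
  refine Pw_ind (P := fun x => f x ∈ Pw C k) ?_ ?_ ?_ ?_ hx
  · rw [map_zero]
    exact (Pw C k).zero_mem
  · intro x y hx hy
    rw [map_add]
    exact (Pw C k).add_mem hx hy
  · intro x hx
    rw [map_neg]
    exact (Pw C k).neg_mem hx
  · intro l h1 h2
    rw [map_list_prod]
    have h3 : (l.map f).length = k := by rw [List.length_map, h1]
    refine h3 ▸ Pw_list _ ?_
    intro c hc
    obtain ⟨b, hb, rfl⟩ := List.mem_map.1 hc
    exact h b (h2 b hb)

theorem Pw_aut (ψ : RingAut S) {B : AddSubgroup S} (h : ∀ b ∈ B, ψ b ∈ B) {k : ℕ} {x : S} (hx : x ∈ Pw B k) : ψ x ∈ Pw B k :=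
  Pw_map (ψ : S →+* S) h hx

/-! ## The right ideal `rS c` -/

theorem mem_rS {c x : S} : x ∈ rS c ↔ ∃ a, c * a = x := Iff.rfl

theorem rS_right {c x : S} (h : x ∈ rS c) (s : S) : x * s ∈ rS c := by
  obtain ⟨a, rfl⟩ := mem_rS.1 h
  exact mem_rS.2 ⟨a * s, (mul_assoc _ _ _).symm⟩

theorem rS_self (c : S) : c ∈ rS c := mem_rS.2 ⟨1, mul_one c⟩

theorem rS_mul (c : S) : ∀ a ∈ rS c, ∀ b ∈ rS c, a * b ∈ rS c := fun _ ha b _ => rS_right ha b

theorem rS_aut {c : S} {ψ : RingAut S} (hc : ψ c = c) : ∀ b ∈ rS c, ψ b ∈ rS c := by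
  intro b hb
  obtain ⟨a, rfl⟩ := mem_rS.1 hb
  exact mem_rS.2 ⟨ψ a, by rw [map_mul, hc]⟩

theorem rS_le {c : S} {I : AddSubgroup S} (hI : IdI I) (hc : c ∈ I) : rS c ≤ I := by
  intro b hb
  obtain ⟨a, rfl⟩ := mem_rS.1 hb
  exact hI.right a c hc

theorem Pw_rS_right {c : S} {k : ℕ} (hk : 1 ≤ k) {x : S} (hx : x ∈ Pw (rS c) k) (s : S) : x * s ∈ Pw (rS c) k := by
  refine Pw_ind (P := fun x => x * s ∈ Pw (rS c) k) ?_ ?_ ?_ ?_ hx
  · simp
  · intro x y hx hy
    rw [add_mul]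
    exact (Pw (rS c) k).add_mem hx hy
  · intro x hx
    rw [neg_mul]
    exact (Pw (rS c) k).neg_mem hx
  · intro l h1 h2
    rcases List.eq_nil_or_concat l with rfl | ⟨l', b, rfl⟩
    · simp at h1
      omega
    · rw [List.concat_eq_append] at h1 h2 ⊢
      rw [List.prod_append, List.prod_singleton, mul_assoc, ← List.prod_singleton (x := b * s), ← List.prod_append]
      have h3 : (l' ++ [b * s]).length = k := by
        rw [← h1]
        simp
      refine h3 ▸ Pw_list _ ?_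
      intro c hc
      rcases List.mem_append.1 hc with hc | hc
      · exact h2 c (by simp [hc])
      · rw [List.mem_singleton.1 hc]
        exact rS_right (h2 b (by simp)) s

/-! ## The endomorphism `dl ψ` -/

theorem dl_succ (ψ : RingAut S) (k : ℕ) (a : S) : (dl ψ ^ (k + 1)) a = (dl ψ ^ k) (dl ψ a) := by
  rw [pow_succ]
  rfl

theorem dl_succ' (ψ : RingAut S) (k : ℕ) (a : S) : (dl ψ ^ (k + 1)) a = dl ψ ((dl ψ ^ k) a) := by
  rw [pow_succ']
  rfl

theorem dl_zero (ψ : RingAut S) (a : S) : (dl ψ ^ 0) a = a := rfl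

theorem dl_one (ψ : RingAut S) (a : S) : (dl ψ ^ 1) a = ψ a - a := by
  rw [pow_one]
  rfl

theorem dl_add (ψ : RingAut S) (j k : ℕ) (a : S) : (dl ψ ^ (j + k)) a = (dl ψ ^ j) ((dl ψ ^ k) a) := by
  rw [pow_add]
  rfl

theorem dl_eq_zero {ψ : RingAut S} {a : S} : dl ψ a = 0 ↔ ψ a = a := by
  rw [dl_apply, sub_eq_zero]

theorem dl_mul (ψ : RingAut S) (x y : S) : dl ψ (x * y) = dl ψ x * y + x * dl ψ y + dl ψ x * dl ψ y := by
  rw [dl_apply, dl_apply, dl_apply, map_mul]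
  noncomm_ring

theorem dl_mul_left {ψ : RingAut S} {c : S} (hc : ψ c = c) (a : S) (k : ℕ) : (dl ψ ^ k) (c * a) = c * (dl ψ ^ k) a := by
  induction k with
  | zero => rfl
  | succ k ih => rw [dl_succ', dl_succ', ih, dl_apply, dl_apply, map_mul, hc, mul_sub]

theorem dl_mem {ψ : RingAut S} {B : AddSubgroup S} (h : ∀ b ∈ B, ψ b ∈ B) {k : ℕ} {b : S} (hb : b ∈ B) : (dl ψ ^ k) b ∈ B := by
  induction k with
  | zero => exact hb
  | succ k ih =>
    rw [dl_succ', dl_apply]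
    exact B.sub_mem (h _ ih) ih

theorem dl_map {S' : Type u} [Ring S'] {ψ : RingAut S} {π : S →+* S'} {ψ' : RingAut S'} (h : ∀ a, ψ' (π a) = π (ψ a)) (k : ℕ) (a : S) :
    (dl ψ' ^ k) (π a) = π ((dl ψ ^ k) a) := by
  induction k with
  | zero => rfl
  | succ k ih => rw [dl_succ', dl_succ', ih, dl_apply, dl_apply, map_sub, h]

/-- powers of `ψ` on `I.map π` -/
theorem aut_pow_map {S' : Type u} [Ring S'] {ψ : RingAut S} {π : S →+* S'} {ψ' : RingAut S'} (h : ∀ a, ψ' (π a) = π (ψ a)) (j : ℕ) (a : S) :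
    (ψ' ^ j) (π a) = π ((ψ ^ j) a) := QUB_pow h j a

theorem aut_pow_fix {ψ : RingAut S} {a : S} (h : ψ a = a) (j : ℕ) : (ψ ^ j) a = a := by
  induction j with
  | zero => rfl
  | succ j ih => rw [pow_succ, RingAut.mul_apply, h, ih]

theorem InvI_pow {I : AddSubgroup S} {ψ : RingAut S} (h : InvI I ψ) (j : ℕ) : InvI I (ψ ^ j) := by
  induction j with
  | zero => intro b; rfl
  | succ j ih =>
    intro b
    rw [pow_succ, RingAut.mul_apply, ih, h]

theorem InvI_one (I : AddSubgroup S) : InvI I (1 : RingAut S) := fun _ => Iff.rfl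

/-! ## Ideals -/

theorem idg_gen {Z : AddSubgroup S} {z : S} (hz : z ∈ Z) (a b : S) : a * z * b ∈ idg Z :=
  AddSubgroup.subset_closure ⟨a, z, hz, b, rfl⟩

theorem idg_ind {Z : AddSubgroup S} {P : S → Prop} (h0 : P 0) (hadd : ∀ x y, P x → P y → P (x + y)) (hneg : ∀ x, P x → P (-x))
    (hl : ∀ a, ∀ z ∈ Z, ∀ b, P (a * z * b)) {x : S} (hx : x ∈ idg Z) : P x := by
  refine AddSubgroup.closure_induction (p := fun x _ => P x) ?_ h0 (fun x y _ _ => hadd x y) (fun x _ => hneg x) hx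
  rintro _ ⟨a, z, hz, b, rfl⟩
  exact hl a z hz b

theorem idg_idl (Z : AddSubgroup S) : IdI (idg Z) := by
  constructor
  · intro s x hx
    refine idg_ind (P := fun x => s * x ∈ idg Z) ?_ ?_ ?_ ?_ hx
    · simp
    · intro x y hx hy
      rw [mul_add]
      exact (idg Z).add_mem hx hy
    · intro x hx
      rw [mul_neg]
      exact (idg Z).neg_mem hx
    · intro a z hz b
      rw [← mul_assoc, ← mul_assoc]
      exact idg_gen hz _ _
  · intro s x hx
    refine idg_ind (P := fun x => x * s ∈ idg Z) ?_ ?_ ?_ ?_ hx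
    · simp
    · intro x y hx hy
      rw [add_mul]
      exact (idg Z).add_mem hx hy
    · intro x hx
      rw [neg_mul]
      exact (idg Z).neg_mem hx
    · intro a z hz b
      rw [mul_assoc]
      exact idg_gen hz _ _

theorem le_idg (Z : AddSubgroup S) : Z ≤ idg Z := by
  intro z hz
  simpa using idg_gen hz 1 1

theorem idg_le {Z T : AddSubgroup S} (hT : IdI T) (h : Z ≤ T) : idg Z ≤ T := by
  intro x hx
  refine idg_ind (P := fun x => x ∈ T) T.zero_mem (fun _ _ => T.add_mem) (fun _ => T.neg_mem) ?_ hx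
  intro a z hz b
  exact hT.right b _ (hT.left a z (h hz))

theorem idg_aut {Z : AddSubgroup S} (f : RingAut S) (h : ∀ z ∈ Z, f z ∈ Z) {x : S} (hx : x ∈ idg Z) : f x ∈ idg Z := by
  refine idg_ind (P := fun x => f x ∈ idg Z) ?_ ?_ ?_ ?_ hx
  · rw [map_zero]
    exact (idg Z).zero_mem
  · intro x y hx hy
    rw [map_add]
    exact (idg Z).add_mem hx hy
  · intro x hx
    rw [map_neg]
    exact (idg Z).neg_mem hx
  · intro a z hz b
    rw [map_mul, map_mul]
    exact idg_gen (h z hz) _ _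

/-- `idg Z` is `ψ`-invariant if `Z` is -/
theorem idg_inv {Z : AddSubgroup S} {ψ : RingAut S} (h : InvI Z ψ) : InvI (idg Z) ψ := by
  intro x
  constructor
  · intro hx
    have h1 : ∀ z ∈ Z, ψ.symm z ∈ Z := by
      intro z hz
      rw [← h, RingEquiv.apply_symm_apply]
      exact hz
    have h2 := idg_aut ψ.symm h1 hx
    rwa [RingEquiv.symm_apply_apply] at h2
  · intro hx
    exact idg_aut ψ (fun z hz => (h z).2 hz) hx

/-- `idg Z` is `ψ`-invariant if the elements of `Z` are fixed -/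
theorem idg_inv_fix {Z : AddSubgroup S} {ψ : RingAut S} (h : ∀ z ∈ Z, ψ z = z) : InvI (idg Z) ψ := by
  apply idg_inv
  intro z
  constructor
  · intro hz
    have h1 := h _ hz
    have h2 : ψ z = z := ψ.injective h1
    rwa [h2] at hz
  · intro hz
    rw [h z hz]
    exact hz

theorem bot_idl : IdI (⊥ : AddSubgroup S) := by
  constructor
  · intro a b hb
    rw [AddSubgroup.mem_bot] at hb ⊢
    rw [hb, mul_zero]
  · intro a b hb
    rw [AddSubgroup.mem_bot] at hb ⊢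
    rw [hb, zero_mul]

theorem bot_inv (ψ : RingAut S) : InvI (⊥ : AddSubgroup S) ψ := by
  intro b
  rw [AddSubgroup.mem_bot, AddSubgroup.mem_bot]
  exact map_eq_zero_iff ψ ψ.injective

theorem bot_nil : NilT (⊥ : AddSubgroup S) := by
  refine ⟨1, fun l h1 h2 => ?_⟩
  obtain ⟨b, rfl⟩ := List.length_eq_one_iff.1 h1
  simpa using h2

theorem NilT_mono {T T' : AddSubgroup S} (h : T ≤ T') (hT : NilT T') : NilT T := by
  obtain ⟨M, hM⟩ := hT
  exact ⟨M, fun l h1 h2 => hM l h1 fun b hb => h (h2 b hb)⟩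

/-- `Tr k I ψ` if `(dl ψ ^ k)` vanishes on `I` -/
theorem Tr_of_zero {I : AddSubgroup S} {ψ : RingAut S} {k : ℕ} (h : ∀ b ∈ I, (dl ψ ^ k) b = 0) : Tr k I ψ :=
  ⟨⊥, bot_idl, bot_le, bot_nil, bot_inv ψ, fun b hb => by rw [h b hb]; exact zero_mem _⟩

theorem inv_mem {I : AddSubgroup S} {ψ : RingAut S} (h : InvI I ψ) : ∀ b ∈ I, ψ b ∈ I := fun b hb => (h b).2 hb

/-- QUB for `GoodA` -/
theorem QUA {n p : ℕ} {I : AddSubgroup S} {ψ : RingAut S} (hG : GoodA n p I ψ) {T : AddSubgroup S} (h1 : IdI T) (h2 : T ≤ I) (h3 : InvI T ψ) :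
    ∃ (S' : Type u) (_ : Ring S') (π : S →+* S') (ψ' : RingAut S'), Function.Surjective π ∧ (∀ a, π a = 0 ↔ a ∈ T) ∧
      (∀ a, ψ' (π a) = π (ψ a)) ∧ GoodA n p (I.map π.toAddMonoidHom) ψ' := by
  obtain ⟨S', hS', π, ψ', k1, k2, k3, k4⟩ := p_QUB S n I ψ hG.good T h1 h2 h3
  refine ⟨S', hS', π, ψ', k1, k2, k3, k4, ?_, ?_⟩
  · intro b hb
    obtain ⟨b0, hb0, rfl⟩ := AddSubgroup.mem_map.1 hb
    exact (hG.nil b0 hb0).map π
  · intro b hb
    obtain ⟨b0, hb0, rfl⟩ := AddSubgroup.mem_map.1 hb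
    change p • π b0 = 0
    rw [← map_nsmul, hG.chp b0 hb0, map_zero]

/-- powers of the automorphism -/
theorem GoodB_pow {n : ℕ} {I : AddSubgroup S} {ψ : RingAut S} (hG : GoodB n I ψ) (j : ℕ) : GoodB n I (ψ ^ j) :=
  ⟨hG.idl, hG.uni, hG.eng, InvI_pow hG.inv j, fun i => by rw [← pow_mul]; exact hG.enga _⟩

theorem GoodA_pow {n p : ℕ} {I : AddSubgroup S} {ψ : RingAut S} (hG : GoodA n p I ψ) (j : ℕ) : GoodA n p I (ψ ^ j) :=
  ⟨GoodB_pow hG.good j, hG.nil, hG.chp⟩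

end

end Pool.EA
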