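import Pool.Agent.Work.MP_3617d5_nr.Defs

/-!
# MP_3617d5_al, THEOREM EA: definitions

Finite extensions of adjoint groups of radical rings by ring automorphisms.
`Engel`, `Fitting`, `Adj` are those of `Pool/Agent/Work/MP_3617d5_nr/Defs.lean`.
-/

set_option autoImplicit false

universe u v

namespace Pool.EA

open Pool.NR

/-- `i` identifies the adjoint group of the ring `R` with a normal subgroup of finite index of `K`, and the
conjugations by the elements of `K` are automorphisms of the ring `R`. -/
structure FiniteExt (K : Type u) [Group K] (R : Type v) [NonUnitalRing R] (i : Adj R →* K) : Prop where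
  injective : Function.Injective i
  normal : i.range.Normal
  finite : i.range.FiniteIndex
  ring : ∀ g : K, ∃ ψ : R ≃+* R, ∀ u v : Adj R, i v = g⁻¹ * i u * g →
    (v : PreQuasiregular R).val = ψ (u : PreQuasiregular R).val

end Pool.EA
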