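import Pool.Agent.Work.MP_3617d5_nr.AllB
import Pool.Agent.Work.MP_3617d5_nr.B_PT3
import Pool.Agent.Work.MP_3617d5_nr.B_KGR
import Pool.Agent.Work.MP_3617d5_nr.B_QIE
import Pool.Agent.Work.MP_3617d5_ea.Defs

/-!
# MP_3617d5_al, THEOREM EA (Engel automorphisms of radical rings, helper1): the blocks

Files `B_X.lean` in `Pool/Agent/Work/MP_3617d5_ea`, `import Pool.Agent.Work.MP_3617d5_ea.Interface`, `universe u`,
namespace `Pool.EA`, `open Pool.NR Nat`, `theorem p_X (hA : Stmt_A.{u}) .. : Stmt_X.{u}` with exactly the blocks named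
after `uses` as hypotheses in that order. Auxiliary lemmas with the prefix `X_`. No straight double quotes. All finished
blocks of `MP_3617d5_nr` may be used (`p_NHT`, `p_QUO`, `p_NOP`, `p_LDE`, `p_GEN`, `p_UN3`, `p_UP3`, `p_PT3`, .. and their auxiliary
lemmas, `QIE_lift`, `QIL_ideal`, `SK_iter`, `SK4_T`, `SK4_mem`, `SK4_id`, ..; statements in `MP_3617d5_nr/Interface*.lean`).

THE THEOREM. `m < p`, `K` an `m`-Engel `p`-group with a normal subgroup of finite index which is the adjoint group of a radical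
ring `R`, `K` acting by ring automorphisms of `R`. Then `K` is a Fitting group. The paper proof is note 3345.

NOTATION. `S` a ring with identity, `I` an ideal, `ψ` an automorphism of the ring `S` with `ψ I = I`, `dl ψ = ψ - 1`.
-/

set_option autoImplicit false

open Nat

universe u

namespace Pool.EA

open Pool.NR

/-! ## Notions -/

section
variable {S : Type u} [Ring S]

/-- `ψ - 1` -/
def dl (ψ : RingAut S) : AddMonoid.End S := (ψ : S →+* S).toAddMonoidHom - AddMonoidHom.id S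

theorem dl_apply (ψ : RingAut S) (s : S) : dl ψ s = ψ s - s := rfl

/-- `ψ I = I` -/
def InvI (I : AddSubgroup S) (ψ : RingAut S) : Prop := ∀ b, ψ b ∈ I ↔ b ∈ I

/-- the Engel law for the automorphism `ψ` on the group `1 + I` -/
def EngA (n : ℕ) (I : AddSubgroup S) (ψ : RingAut S) : Prop :=
  ∀ x : Sˣ, (x : S) - 1 ∈ I → (fun z : Sˣ => z⁻¹ * Units.map ((ψ : S →+* S) : S →* S) z)^[n] x = 1

/-- `I` is an ideal in the radical, `ψ I = I`, and the Engel law holds in `1 + I` and for the powers of `ψ`. -/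
structure GoodB (n : ℕ) (I : AddSubgroup S) (ψ : RingAut S) : Prop where
  idl : IdI I
  uni : ∀ b ∈ I, IsUnit (1 + b)
  eng : EngI n I
  inv : InvI I ψ
  enga : ∀ j : ℕ, EngA n I (ψ ^ j)

/-- `GoodB`, `I` nil and `p I = 0` -/
structure GoodA (n p : ℕ) (I : AddSubgroup S) (ψ : RingAut S) : Prop where
  good : GoodB n I ψ
  nil : ∀ b ∈ I, IsNilpotent b
  chp : ∀ b ∈ I, p • b = 0

/-- Modulo a nilpotent `ψ`-invariant ideal contained in `I`, `(ψ - 1) ^ k` vanishes on `I`. -/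
def Tr (k : ℕ) (I : AddSubgroup S) (ψ : RingAut S) : Prop :=
  ∃ T : AddSubgroup S, IdI T ∧ T ≤ I ∧ NilT T ∧ InvI T ψ ∧ ∀ b ∈ I, (dl ψ ^ k) b ∈ T

/-- the right ideal `c S` -/
def rS (c : S) : AddSubgroup S := (AddMonoidHom.mulLeft c).range

/-- the additive subgroup generated by the products of `k` elements of `B` -/
def Pw (B : AddSubgroup S) (k : ℕ) : AddSubgroup S :=
  AddSubgroup.closure {x | ∃ l : List S, l.length = k ∧ (∀ b ∈ l, b ∈ B) ∧ l.prod = x}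

/-- the ideal generated by `Z` -/
def idg (Z : AddSubgroup S) : AddSubgroup S :=
  AddSubgroup.closure {x | ∃ a, ∃ z ∈ Z, ∃ b, x = a * z * b}

/-- `f t ≡ ∑_{j < p} t ^ j e_j` modulo `T` for all natural numbers `t`, with `e_j ∈ B ^ j` -/
structure Pol (p : ℕ) (B T : AddSubgroup S) (f : ℕ → S) (e : ℕ → S) : Prop where
  mem : ∀ j, e j ∈ Pw B j
  eq : ∀ t : ℕ, f t - ∑ j ∈ Finset.range p, t ^ j • e j ∈ T

/-- the elements `k + b`, `k` an integer, `b ∈ B` -/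
def Z1 (B : AddSubgroup S) (s : S) : Prop := ∃ k : ℤ, s - k • (1 : S) ∈ B

/-- `B` is closed under products, `T ≤ B` is an ideal of `ℤ + B` and contains the products of `p` elements of `B`. -/
structure BT (p : ℕ) (B T : AddSubgroup S) : Prop where
  mul : ∀ a ∈ B, ∀ b ∈ B, a * b ∈ B
  le : T ≤ B
  idl : ∀ b ∈ B, ∀ t ∈ T, b * t ∈ T ∧ t * b ∈ T
  pw : Pw B p ≤ T

end

/-! ## A. The Engel law for subrings -/

/-- **KGS** (120, edit of `B_KGR`). `1 + b` is the unit `x` (`b` nilpotent), `x⁻¹ = ∑_{i < k} (- b) ^ i`, so `x⁻¹ * w ∈ W` for `w ∈ W` (induction: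
`(- b) ^ i * w ∈ W`). `w * x = w`, the unit `1 + w` has the inverse `1 - w`, and `(1 + w)⁻¹ * x⁻¹ * (1 + w) * x = (1 - w) (1 + x⁻¹ w) = 1 + (x⁻¹ - 1) w`
with `(x⁻¹ - 1) w ∈ W` (`w * (x⁻¹ * w) = 0`). So the `n`-th iterate at `1 + w` is `1 + (x⁻¹ - 1) ^ n * w`, and `EngI` gives `(x⁻¹ - 1) ^ n * w = 0`.
`x⁻¹ - 1 = - x⁻¹ * b` and `x⁻¹` commutes with `b`, multiply by `(-x) ^ n`. -/
def Stmt_KGS : Prop := ∀ (S : Type u) [Ring S] (n : ℕ) (I : AddSubgroup S), (∀ b ∈ I, IsNilpotent b) → EngI n I →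
  ∀ B W : AddSubgroup S, B ≤ I → W ≤ I → (∀ b ∈ B, ∀ w ∈ W, b * w ∈ W ∧ w * b = 0) → (∀ w ∈ W, ∀ w' ∈ W, w * w' = 0) →
  ∀ b ∈ B, ∀ w ∈ W, b ^ n * w = 0

/-- **NHW** (80), uses KGS. `p_NHT` (Nagata-Higman) for `B` and `T = {t | ∀ w ∈ W, t * w = 0}`: `b * t`, `t * b ∈ T` for `b ∈ B` (`b * w ∈ W`), `b ^ n ∈ T` by KGS, and
`n ! • b ∈ T`, `b ∈ B` gives `n ! • (b * w) = 0`, `b * w ∈ I`, `p • (b * w) = 0`, so `b * w = 0` (`n !` and `p` are coprime: `Nat.Coprime`, `Nat.Prime.dvd_factorial`). -/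
def Stmt_NHW : Prop := ∀ (S : Type u) [Ring S] (n p : ℕ) (I : AddSubgroup S), 1 ≤ n → p.Prime → n < p → (∀ b ∈ I, IsNilpotent b) → EngI n I →
  (∀ b ∈ I, p • b = 0) → ∀ B W : AddSubgroup S, B ≤ I → W ≤ I → (∀ a ∈ B, ∀ b ∈ B, a * b ∈ B) →
  (∀ b ∈ B, ∀ w ∈ W, b * w ∈ W ∧ w * b = 0) → (∀ w ∈ W, ∀ w' ∈ W, w * w' = 0) →
  ∀ l : List S, l.length = 2 ^ n - 1 → (∀ b ∈ l, b ∈ B) → ∀ w ∈ W, l.prod * w = 0

/-- **QUB** (120). Quotients. `S'`, `π` from `p_QUO`; `ψ'` is induced by `ψ` (`RingEquiv.ofBijective` of the map `π a ↦ π (ψ a)`, well defined and injective because of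
`InvI T ψ`; use `RingHom.liftOfSurjective`-type constructions or `Function.surjInv`). `I' = I.map π` is an ideal (`QIL_ideal`), in the radical, `1 + I'` is `n`-Engel and the
law `EngA` holds for `ψ' ^ j`: units lift (see `SK4_map`, `QIE_lift`: a unit `x'` with `x' - 1 = π b` is the image of the unit `1 + b`), and `ψ' ^ j (π a) = π (ψ ^ j a)`.
`InvI I' ψ'`: if `ψ' (π b) = π c`, `c ∈ I`, then `ψ b - c ∈ T ≤ I`, so `ψ b ∈ I`, `b ∈ I`. -/
def Stmt_QUB : Prop := ∀ (S : Type u) [Ring S] (n : ℕ) (I : AddSubgroup S) (ψ : RingAut S), GoodB n I ψ →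
  ∀ T : AddSubgroup S, IdI T → T ≤ I → InvI T ψ →
  ∃ (S' : Type u) (_ : Ring S') (π : S →+* S') (ψ' : RingAut S'), Function.Surjective π ∧ (∀ a, π a = 0 ↔ a ∈ T) ∧
    (∀ a, ψ' (π a) = π (ψ a)) ∧ GoodB n (I.map π.toAddMonoidHom) ψ'

/-- **WRD** (120), uses NHW QUB. Induction on `k` (for all `S`, `I`, `ψ`, `c`). `k = 1`: `c = 0`. Step from `k` to `k + 1`, `c ^ (k + 1) = 0`, `k ≥ 1`: `T = idg (AddSubgroup.zmultiples (c ^ k))`
is an ideal, contained in `I`, contains `c ^ k`. QUB for the automorphism `1` (`GoodB n I 1` holds because `n ≥ 1`: the first iterate is `1`; nil rings are radical): the word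
`zw c l₂`, `l₂.length = 2 ^ n * (k - 1)`, is mapped to `zw (π c) (l₂.map π) = 0`, so it is in `T`. For `l = l₁ ++ l₂`, `l₁.length = 2 ^ n`,
`zw c l = ((l₁.map (c * ·)).prod) * zw c l₂`, and for a generator `a * c ^ k * b` of `T`:
`(c * a₁) ⋯ (c * a_N) * (c * (a_(N+1) * a) * c ^ k) * b = 0`, `N = 2 ^ n - 1`, by NHW for `B = rS c`, `W = ` the additive subgroup generated by (= set of) the
`c * a * c ^ k`. -/
def Stmt_WRD : Prop := ∀ (n p : ℕ), 1 ≤ n → p.Prime → n < p → ∀ (k : ℕ) (S : Type u) [Ring S] (I : AddSubgroup S),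
  IdI I → (∀ b ∈ I, IsNilpotent b) → EngI n I → (∀ b ∈ I, p • b = 0) → ∀ c ∈ I, 1 ≤ k → c ^ k = 0 →
  ∀ l : List S, l.length = 2 ^ n * (k - 1) → zw c l = 0

/-- **SQZ** (150), uses NHW. First three claims: the generators `a * z * b`. `NilT`, `M = 2 ^ n + 1`: by `AddSubgroup.closure_induction` in every factor it is enough to treat
products of `M` generators (compare `B_NGI`), `(a₁ z₁ b₁)(a₂ z₂ b₂) ⋯ (a_M z_M b_M) = a₁ * ((z₁ b₁ a₂) ⋯ (z_N b_N a_(N+1))) * (z_(N+1) (b_(N+1) a_M) z_M) * b_M`, `N = 2 ^ n - 1`,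
`M = N + 2`; NHW for `B` = closure of the `z * a`, `W` = closure of the `z * a * z'` (`W B = 0`, `W W = 0` because `z' * z'' = 0`). -/
def Stmt_SQZ : Prop := ∀ (S : Type u) [Ring S] (n p : ℕ) (I : AddSubgroup S), 1 ≤ n → p.Prime → n < p → IdI I → (∀ b ∈ I, IsNilpotent b) →
  EngI n I → (∀ b ∈ I, p • b = 0) → ∀ Z : AddSubgroup S, Z ≤ I → (∀ z ∈ Z, ∀ z' ∈ Z, z * z' = 0) →
  IdI (idg Z) ∧ Z ≤ idg Z ∧ idg Z ≤ I ∧ NilT (idg Z)

/-! ## B. The Engel law for fixed elements -/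

/-- **PLM** (120). `e''_j = ∑_{a + b = j} e_a e'_b ∈ Pw B j` (`Pw B a * Pw B b ⊆ Pw B (a + b)`, by two `closure_induction`s). `F = ∑_{j < p} t ^ j e_j`, `F'` similarly:
`f f' - F F' = (f - F) f' + F (f' - F')`; `T` is an ideal of the ring of the `s` with `Z1 B s`, which contains `f'`, and `F` (`Pw B 0` = integers, `Pw B j ≤ B` for
`j ≥ 1`). `F F' - ∑_{j < p} t ^ j e''_j` is the sum of the `t ^ (a + b) e_a e'_b` with `a, b < p ≤ a + b`, which are in `T` (`Pw B j ≤ T` for `j ≥ p`: `Pw B j ≤ Pw B p * Pw B (j - p)`). -/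
def Stmt_PLM : Prop := ∀ (S : Type u) [Ring S] (p : ℕ) (B T : AddSubgroup S), 1 ≤ p → BT p B T → ∀ (f f' e e' : ℕ → S), (∀ t, Z1 B (f t)) →
  (∀ t, Z1 B (f' t)) → Pol p B T f e → Pol p B T f' e' →
  Pol p B T (fun t => f t * f' t) (fun j => ∑ a ∈ Finset.range (j + 1), e a * e' (j - a))

/-- **PLI** (120), uses PLM. Define `e'` by `e'_0 = 1`, `e'_j = - ∑_{a = 1}^{j} e_a e'_(j - a)` (strong recursion; `e'_1 = - e_1`), so the convolution of `e` and `e'` is `1, 0, 0, …`, and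
`e'_j ∈ Pw B j`. `F'(t) = ∑_{j < p} t ^ j e'_j`. PLM for `f`, `F'` (with `Pol F' e'`): `f t * F' t - 1 ∈ T`; multiply by `g t` from the left: `F' t - g t ∈ T` (`T` is an ideal of the
ring of the `s` with `Z1 B s`). -/
def Stmt_PLI : Prop := ∀ (S : Type u) [Ring S] (p : ℕ) (B T : AddSubgroup S), 1 ≤ p → BT p B T → ∀ (f g e : ℕ → S), (∀ t, Z1 B (f t)) →
  (∀ t, Z1 B (g t)) → (∀ t, g t * f t = 1) → e 0 = 1 → Pol p B T f e → ∃ e' : ℕ → S, e' 0 = 1 ∧ e' 1 = - e 1 ∧ Pol p B T g e'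

/-- **PLF** (100). `∑_{t = 1}^{p - 1} t ^ (p - 2) • (∑_{1 ≤ j < p} t ^ j e_j) = ∑_j (∑_t t ^ (p - 2 + j)) • e_j`. For `j = 1` the integer `∑_{t = 1}^{p - 1} t ^ (p - 1)` is `≡ -1` modulo `p` (Fermat), for
`2 ≤ j ≤ p - 1` it is divisible by `p` (`p - 1` does not divide `p - 2 + j`; `FiniteField.sum_pow_units`, `FiniteField.sum_pow_lt_card_sub_one`, `ZMod`). As `p • e_j = 0`
for `1 ≤ j`, this is `- e_1`. (`p = 2`: `t = 1` is the claim.) -/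
def Stmt_PLF : Prop := ∀ (S : Type u) [Ring S] (p : ℕ), p.Prime → ∀ (T : AddSubgroup S) (e : ℕ → S), (∀ j, 1 ≤ j → p • e j = 0) →
  (∀ t : ℕ, ∑ j ∈ Finset.Ico 1 p, t ^ j • e j ∈ T) → e 1 ∈ T

/-- **LNA** (120), uses PLM PLI PLF. `u t` = the unit `1 + t • b` (`b` nilpotent), `f_0 t = u t`, `f_(i+1) t = (f_i t)⁻¹ * ψ (f_i t)` (units). By induction: `f_i t - 1 ∈ B`, also
`(f_i t)⁻¹ - 1 ∈ B` (finite geometric series, `f_i t - 1` is nilpotent), and there is `e` with `e 0 = 1`, `e 1 = (dl ψ ^ i) b`, `Pol p B T f_i e`: `e = (1, b, 0, 0, …)` for `i = 0` (if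
`p = 1`.. not prime); `ψ ∘ e` for `ψ ∘ f_i` (`ψ` maps `Pw B j`, `T` into themselves); PLI, PLM: `e 1 = - e_1 + ψ e_1 = dl ψ e_1`. For `i = n` the law gives `f_n t = 1`, so
`∑_{1 ≤ j < p} t ^ j e_j ∈ T`, and PLF gives `e 1 ∈ T` (`p • e_j = 0` as `e_j ∈ Pw B j ≤ B ≤ I`). -/
def Stmt_LNA : Prop := ∀ (S : Type u) [Ring S] (n p : ℕ) (I B T : AddSubgroup S) (ψ : RingAut S), p.Prime → (∀ b ∈ I, IsNilpotent b) →
  (∀ b ∈ I, p • b = 0) → EngA n I ψ → B ≤ I → BT p B T → (∀ b ∈ B, ψ b ∈ B) → (∀ b ∈ T, ψ b ∈ T) → ∀ b ∈ B, (dl ψ ^ n) b ∈ T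

/-- **CPW** (100), uses LNA. LNA for `B = rS c`, `T = Pw (rS c) p`: `rS c ≤ I`, closed under products, `ψ (c * a) = c * ψ a`; `b * (b₁ ⋯ b_p) = (b b₁) b₂ ⋯ b_p` is a product of `p` elements of
`rS c`. So `(dl ψ ^ n) (c * w) ∈ Pw (rS c) p` for all `w : S`, and `(dl ψ ^ n) (c * w) = c * (dl ψ ^ n) w`. -/
def Stmt_CPW : Prop := ∀ (S : Type u) [Ring S] (n p : ℕ) (I : AddSubgroup S) (ψ : RingAut S), p.Prime → GoodA n p I ψ →
  ∀ c ∈ I, ψ c = c → ∀ w : S, c * (dl ψ ^ n) w ∈ Pw (rS c) p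

/-- **LEV** (150), uses CPW. Induction on `l`. `l = 0`: `p ^ 0 = 1`, `c = c * 1 ∈ Pw (rS c) 1 = ⊥`. Step: `m = c' :: m'`, `c' = (dl ψ ^ (p - 1)) w`, `w ∈ I`, and `ψ c' = c'` because `(dl ψ ^ p) w = 0`. `e = c * c'` is in `I`
and fixed; `e = (dl ψ ^ (p - 1 - n)) (c * (dl ψ ^ n) w) ∈ Pw (rS c) p` by CPW (`Pw (rS c) p` is `ψ`-invariant, so `dl ψ`-invariant; `dl ψ (c * a) = c * dl ψ a`). So
`rS e ≤ Pw (rS c) p` (closed under right multiplication by `S`: change the last factor) and `Pw (rS e) (p ^ l) ≤ Pw (rS c) (p * p ^ l) = ⊥` (`Pw (Pw B a) k ≤ Pw B (a * k)`).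
Induction hypothesis for `e`, `m'`. -/
def Stmt_LEV : Prop := ∀ (S : Type u) [Ring S] (n p : ℕ) (I : AddSubgroup S) (ψ : RingAut S), p.Prime → n < p → GoodA n p I ψ →
  (∀ w ∈ I, (dl ψ ^ p) w = 0) → ∀ (l : ℕ), ∀ c ∈ I, ψ c = c → Pw (rS c) (p ^ l) = ⊥ →
  ∀ m : List S, m.length = l → (∀ c' ∈ m, ∃ w ∈ I, (dl ψ ^ (p - 1)) w = c') → c * m.prod = 0

/-- **BDC** (150), uses WRD LEV. `K = 2 n + 6`. (a) `2 ^ n * (k - 1) + 1 ≤ p ^ (k - 2)` for `k ≥ K` (`p ≥ 2`; `2 ^ (k - 2) ≥ 2 ^ n (k - 1) + 1` by induction on `k`, start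
`16 * 4 ^ n ≥ 2 ^ n (2 n + 5) + 1`). (b) If `c ∈ I`, `c ^ k = 0`, `k ≥ 1` and `q ≥ 2 ^ n (k - 1) + 1` then `Pw (rS c) q = ⊥`: `(c a₁) ⋯ (c a_q) = zw c [a₁, …, a_(j)] * a_(j+1) * ⋯`, `j = 2 ^ n (k - 1)` (WRD).
(c) For `c = (dl ψ ^ (p - 1)) w`: `ψ c = c`, `c` is nilpotent, let `k` be minimal with `c ^ k = 0` (`Nat.find`). If `k ≥ K`: (a), (b) and LEV for `l = k - 2`, `m = [c, …, c]` give
`c ^ (k - 1) = 0`, a contradiction. So `c ^ K = 0`. (d) `L₀ = 2 ^ n (K - 1) + 1 ≤ p ^ L₀`, so LEV with `l = L₀`; `L = L₀ + 1`. -/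
def Stmt_BDC : Prop := ∀ (n p : ℕ), 1 ≤ n → p.Prime → n < p → ∃ L : ℕ, ∀ (S : Type u) [Ring S] (I : AddSubgroup S) (ψ : RingAut S),
  GoodA n p I ψ → (∀ w ∈ I, (dl ψ ^ p) w = 0) →
  ∀ m : List S, m.length = L → (∀ c ∈ m, ∃ w ∈ I, (dl ψ ^ (p - 1)) w = c) → m.prod = 0

/-! ## C. Going down -/

/-- **LBZ** (120). `D = dl ψ`: `D (x y) = D x * y + x * D y + D x * D y`. If `D (D a) = 0` then `D^j (a b) = a D^j b + j • (D a (D^(j-1) b + D^j b))` for `j ≥ 1` (induction on `j`: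
`D (a y) = D a * y + a * D y + D a * D y` and `D (D a * z) = D a * D z`). Apply it to `a = D^(k-1) a'` and `b`, `j = k + 1`: `a * b ∈ I`, so `0 = (k + 1) • (D^k a' * D^k b)`; `k + 1 < p` and
`p • (D^k a' * D^k b) = 0`, so it is zero. -/
def Stmt_LBZ : Prop := ∀ (S : Type u) [Ring S] (p k : ℕ) (I : AddSubgroup S) (ψ : RingAut S), p.Prime → IdI I → InvI I ψ → (∀ b ∈ I, p • b = 0) →
  1 ≤ k → k + 2 ≤ p → (∀ b ∈ I, (dl ψ ^ (k + 1)) b = 0) → ∀ a ∈ I, ∀ b ∈ I, (dl ψ ^ k) a * (dl ψ ^ k) b = 0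

/-- **TRQ** (100). `T'` from `Tr k I' ψ'`; `T'' = {b ∈ I | π b ∈ T'}` is an ideal, `NilT`: if `M'`, `M` are the numbers for `T'` and `T`, a product of `M * M'` elements of `T''` is a product of `M` products of
`M'` elements, each of which is in `T` (the kernel of `π`); (if `M' = 0`, `1 ∈ T`, everything is zero). `InvI T'' ψ`: `π (ψ b) = ψ' (π b)`. `π ((dl ψ ^ k) b) = (dl ψ' ^ k) (π b)`. -/
def Stmt_TRQ : Prop := ∀ (S S' : Type u) [Ring S] [Ring S'] (I T : AddSubgroup S) (ψ : RingAut S) (π : S →+* S') (ψ' : RingAut S') (k : ℕ),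
  Function.Surjective π → (∀ a, π a = 0 ↔ a ∈ T) → (∀ a, ψ' (π a) = π (ψ a)) → IdI I → InvI I ψ → T ≤ I → NilT T →
  Tr k (I.map π.toAddMonoidHom) ψ' → Tr k I ψ

/-- **DWN** (100), uses QUB TRQ SQZ LBZ. `T` from `Tr (k + 1)`, the quotient by `T` (QUB, TRQ; `p I' = 0` is clear): so assume that `dl ψ ^ (k + 1) = 0` on `I`. `Z = {(dl ψ ^ k) b | b ∈ I}` (`I.map (dl ψ ^ k)`)
is contained in `I`, `Z Z = 0` by LBZ, and `ψ z = z` for `z ∈ Z`, so `idg Z` is `ψ`-invariant; SQZ. -/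
def Stmt_DWN : Prop := ∀ (S : Type u) [Ring S] (n p k : ℕ) (I : AddSubgroup S) (ψ : RingAut S), 1 ≤ n → p.Prime → n < p → GoodA n p I ψ →
  1 ≤ k → k + 2 ≤ p → Tr (k + 1) I ψ → Tr k I ψ

/-- **TRC** (150), uses QUB TRQ SQZ BDC. By induction on `L` for all `S`, `I`, `ψ`: if `m.prod = 0` for all lists `m` of length `L + 1` of elements of `C = {(dl ψ ^ (p - 1)) w | w ∈ I}` then `Tr (p - 1) I ψ`
(BDC: some `L` works; if BDC gives `L = 0` then `1 = 0`). `L = 0`: `C = 0`, `T = ⊥`. Step: `Z` = closure of the products of `L + 1` elements of `C` (`L ≥ 1`), `Z ≤ I`, `Z Z = 0` (`2 L + 2 ≥ L + 2`), `ψ z = z`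
(`(dl ψ ^ p) w = 0` means that the elements of `C` are fixed). SQZ, `idg Z` is `ψ`-invariant, QUB: in the quotient the products of `L` elements.. precisely `L + 1` elements of `C'` vanish (they lift).
Induction hypothesis, TRQ. -/
def Stmt_TRC : Prop := ∀ (S : Type u) [Ring S] (n p : ℕ) (I : AddSubgroup S) (ψ : RingAut S), 1 ≤ n → p.Prime → n < p → GoodA n p I ψ →
  (∀ w ∈ I, (dl ψ ^ p) w = 0) → Tr (p - 1) I ψ

/-- **ORE** (150), uses QUB TRQ DWN TRC. (a) `ψ ^ p = 1` on `I` gives `(dl ψ ^ p) w = 0` for `w ∈ I`: `(1 + D) ^ p = ∑ C(p, i) D ^ i` (`Commute.add_pow`), `p • D^i w = 0`. (b) So TRC and DWN (from `p - 1` down to `1`)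
give `Tr 1 I ψ` if `ψ ^ p = 1` on `I`. (c) Induction on `e`. `e = 0`: `T = ⊥`. Step: `ψ' = ψ ^ (p ^ e)` satisfies `GoodA` (its powers are powers of `ψ`) and `ψ' ^ p = 1` on `I`, (b): `T₀`. Let
`T = idg (I.map (dl ψ'))`: an ideal contained in `T₀`, so `NilT`, and `InvI T ψ` (`ψ` and `ψ'` commute, `ψ I = I`). In the quotient by `T` (QUB) `ψ ^ (p ^ e)` is the identity on `I'`;
induction hypothesis, TRQ. -/
def Stmt_ORE : Prop := ∀ (n p : ℕ), 1 ≤ n → p.Prime → n < p → ∀ (e : ℕ) (S : Type u) [Ring S] (I : AddSubgroup S) (ψ : RingAut S), GoodA n p I ψ →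
  (∀ b ∈ I, (ψ ^ p ^ e) b = b) → Tr 1 I ψ

/-- **CPK** (100), uses QUB TRQ ORE. `T = {p • b | b ∈ I}` is an ideal, `ψ`-invariant, contained in `I`, and products of `k` elements are in `p ^ k I = 0` (`k = 0`: `I = 0`, take `M = 1`). The quotient by `T` (QUB) satisfies
`GoodA`. ORE, TRQ. -/
def Stmt_CPK : Prop := ∀ (n p : ℕ), 1 ≤ n → p.Prime → n < p → ∀ (e k : ℕ) (S : Type u) [Ring S] (I : AddSubgroup S) (ψ : RingAut S), GoodB n I ψ →
  (∀ b ∈ I, IsNilpotent b) → (∀ b ∈ I, p ^ k • b = 0) → (∀ b ∈ I, (ψ ^ p ^ e) b = b) → Tr 1 I ψ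

/-! ## D. No condition on the characteristic (edits of `B_PER`, `B_CIN`, `B_CEN`, `B_TRA`, `B_UNF`: the automorphism `ψ` in place of the conjugation by `x`) -/

/-- **PRA** (80, edit of `B_PER`). `z₀` = the unit `1 + N • s`, `z_{i+1} = z_i⁻¹ ψ(z_i)`. By induction `z_i = 1 + N • d_i`, `d_i ∈ I`, `d_i - (dl ψ ^ i) s ∈ N • I`: `z_{i+1} - 1 = z_i⁻¹ (ψ z_i - z_i) =
N • (z_i⁻¹ * dl ψ d_i)`, `z_i⁻¹ - 1 = - z_i⁻¹ (z_i - 1) ∈ N • I`. `z_m = 1`, so `N • d_m = 0`, `d_m = 0`. -/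
def Stmt_PRA : Prop := ∀ (S : Type u) [Ring S] (m N : ℕ) (I : AddSubgroup S) (ψ : RingAut S), IdI I → (∀ b ∈ I, IsUnit (1 + b)) → InvI I ψ →
  EngA m I ψ → (∀ b ∈ I, N • b = 0 → b = 0) → ∀ s ∈ I, ∃ b ∈ I, (dl ψ ^ m) s = N • b

/-- **CIA** (100, edit of `B_CIN`). `z₀` = the unit `1 + s`, `z_{i+1} = z_i⁻¹ ψ(z_i)`, `z_i - 1 ∈ L`, `z_m = 1`. If `z_{i+2} = 1` then `c = z_{i+1}` is fixed by `ψ`, `v = z_i`: `ψ v = v c`, so
`v = ψ^q v = v c ^ q` (`v - 1 ∈ I`), `c ^ q = 1`, `c = 1` by `p_NOP`. So `z₁ = 1` (`m ≥ 1`; if `m = 0`, `z₀ = 1`), i.e. `ψ (1 + s) = 1 + s`. -/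
def Stmt_CIA : Prop := ∀ (S : Type u) [Ring S] (m q : ℕ) (I L : AddSubgroup S) (ψ : RingAut S), IdI I → (∀ b ∈ I, IsUnit (1 + b)) → InvI I ψ →
  EngA m I ψ → (∀ b ∈ I, q • b = 0 → b = 0) → IdI L → L ≤ I → InvI L ψ → (∀ b ∈ L, ∃ c ∈ I, b = q • c) →
  (∀ b ∈ I, (ψ ^ q) b = b) → ∀ s ∈ L, ψ s = s

/-- **CEA** (120, edit of `B_CEN`), uses PRA CIA. `L = {b | ∀ r, ∃ c ∈ I, b = p ^ r • c}` is an ideal contained in `I`, `ψ`-invariant, and `p ^ k • b ∈ L`, `b ∈ I` gives `b ∈ L`. `Δ = dl ψ`, `q = p ^ e`. `p_LDE` needs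
`(1 + Δ) ^ q = 1` on the whole group `V`: apply it to `V = I` (as an additive group, `Δ` restricted). PRA with `N = p ^ r`: `(Δ ^ m) s ∈ L` for `s ∈ I`, then
`(Δ ^ i) s ∈ L` for `i ≥ m`; LDE: `q ^ m • Δ s ∈ L`, `Δ s ∈ L`. CIA: `Δ (Δ s) = 0`, LDE: `q ^ 2 • Δ s = 0`, `Δ s = 0`. -/
def Stmt_CEA : Prop := ∀ (S : Type u) [Ring S] (m p e : ℕ) (I : AddSubgroup S) (ψ : RingAut S), GoodB m I ψ →
  (∀ b ∈ I, p • b = 0 → b = 0) → (∀ b ∈ I, (ψ ^ p ^ e) b = b) → ∀ s ∈ I, ψ s = s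

/-- **TRB** (100, edit of `B_TRA`), uses QUB CEA. `A = {b ∈ I | ∃ k, p ^ k • b = 0}` is an ideal, `InvI A ψ`; the quotient by `A` (QUB): `p • π b = 0`, `b ∈ I`, gives `p • b ∈ A`, `b ∈ A`, `π b = 0`.
CEA: `π (ψ s - s) = 0`. -/
def Stmt_TRB : Prop := ∀ (S : Type u) [Ring S] (m p e : ℕ) (I : AddSubgroup S) (ψ : RingAut S), GoodB m I ψ →
  (∀ b ∈ I, (ψ ^ p ^ e) b = b) → ∀ s ∈ I, ∃ k : ℕ, p ^ k • (ψ s - s) = 0

/-- **UNB** (120, edit of `B_UNF`), uses TRB. Suppose not: for every `K` there is `s K ∈ I` with `p ^ K • (ψ (s K) - s K) ≠ 0`. Apply TRB to the ring `ℕ → S`, the ideal of the functions with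
values in `I`, the automorphism acting componentwise (`RingEquiv.piCongrRight fun _ => ψ`) and the function `s` (`GoodB`: componentwise; the powers of the componentwise automorphism are
the componentwise powers); at `K = k` a contradiction. -/
def Stmt_UNB : Prop := ∀ (S : Type u) [Ring S] (m p e : ℕ) (I : AddSubgroup S) (ψ : RingAut S), GoodB m I ψ →
  (∀ b ∈ I, (ψ ^ p ^ e) b = b) → ∃ K : ℕ, ∀ s ∈ I, p ^ K • (ψ s - s) = 0

/-- **GCH** (120), uses UNB CPK QUB. `K` from UNB, `P = {p ^ K • b | b ∈ I}`, an ideal contained in `I`, `ψ`-invariant. QUB: `S'`, `I'`, `ψ'`, `p ^ K • I' = 0`, `I'` nil. CPK: `T'`. `J = {b ∈ I | p ^ K • b = 0 ∧ π b ∈ T'}` is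
an ideal, `InvI J ψ`; products of `M' + 1` elements of `J` vanish: the product of the first `M'` ones is in the kernel of `π`, so it is `p ^ K • s`, and `(p ^ K • s) * j = s * (p ^ K • j) = 0`.
`(dl ψ ^ 1) b = ψ b - b ∈ J`. -/
def Stmt_GCH : Prop := ∀ (S : Type u) [Ring S] (n p e : ℕ) (I : AddSubgroup S) (ψ : RingAut S), 1 ≤ n → p.Prime → n < p → GoodB n I ψ →
  (∀ b ∈ I, IsNilpotent b) → (∀ b ∈ I, (ψ ^ p ^ e) b = b) → Tr 1 I ψ

/-! ## E. Groups -/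

/-- **UNE** (150, edit of `B_UN3`). `S = Unitization ℤ R` and everything else as in `B_UN3`; `(F u : S) = 1 + inr u.val` (see the definition of
`Unitization.unitsFstOne_mulEquiv_quasiregular`). `Φ ψ` is `(k, a) ↦ (k, ψ a)`: `RingEquiv` with inverse `Φ ψ.symm`; multiplicative because `ψ` is
(`Unitization.ext`, `Unitization.snd_mul`, `map_zsmul`). -/
def Stmt_UNE : Prop := ∀ (R : Type u) [NonUnitalRing R], (∀ a : R, IsQuasiregular a) →
  ∃ (S : Type u) (_ : Ring S) (I : AddSubgroup S) (ι : R → S) (F : Adj R →* Sˣ) (Φ : (R ≃+* R) → RingAut S),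
  IdI I ∧ (∀ b ∈ I, IsUnit (1 + b)) ∧ Function.Injective ι ∧ (∀ a, ι a ∈ I) ∧ (∀ b ∈ I, ∃ a, ι a = b) ∧ (∀ a b, ι (a * b) = ι a * ι b) ∧
    (∀ a b, ι (a + b) = ι a + ι b) ∧ Function.Injective F ∧ (∀ x : Sˣ, (x : S) - 1 ∈ I ↔ ∃ y, F y = x) ∧
    (∀ u : Adj R, ((F u : Sˣ) : S) = 1 + ι (u : PreQuasiregular R).val) ∧ ∀ (ψ : R ≃+* R) (a : R), Φ ψ (ι a) = ι (ψ a)

/-- The group `K` acts on `I`, the normal subgroup `i (Adj R)` is `1 + I`. -/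
structure Act {K : Type u} [Group K] {R : Type u} [NonUnitalRing R] (i : Adj R →* K) (m : ℕ) {S : Type u} [Ring S] (I : AddSubgroup S)
    (F : Adj R →* Sˣ) (Φ : K → RingAut S) : Prop where
  inj : Function.Injective F
  mem : ∀ x : Sˣ, (x : S) - 1 ∈ I ↔ ∃ u, F u = x
  good : ∀ g, GoodB m I (Φ g)
  mul : ∀ g h : K, ∀ b ∈ I, Φ (g * h) b = Φ h (Φ g b)
  inn : ∀ u : Adj R, ∀ b ∈ I, Φ (i u) b = (((F u)⁻¹ : Sˣ) : S) * b * ((F u : Sˣ) : S)
  conj : ∀ (g : K) (u v : Adj R), i v = g⁻¹ * i u * g → ((F v : Sˣ) : S) - 1 = Φ g (((F u : Sˣ) : S) - 1)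
  ord : ∀ (g : K) (e : ℕ), g ^ e = 1 → ∀ b ∈ I, (Φ g ^ e) b = b

/-- **ACT** (200), uses UNE. `S`, `I`, `ι`, `F`, `Φ₀` from UNE. For `g : K` choose `ψ g` from `FiniteExt.ring`, `Φ g = Φ₀ (ψ g)`. For `a : R` there is `u : Adj R` with `u.val = a` (all elements are quasi-regular; or: `1 + ι a` is a
unit, so it is `F u`, and `ι a = ι u.val`), and for `u`, `g` there is `v` with `i v = g⁻¹ * i u * g` (normality). `conj`: `F v - 1 = ι v.val = ι (ψ g u.val) = Φ g (F u - 1)`. `mul`, `inn`, `ord`, and more generally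
`(Φ g ^ j) b = Φ (g ^ j) b` on `I`: for `b = F u - 1` both sides are `F w - 1` with `i w = ` the conjugate, `i` is injective; `i (u₀⁻¹ u u₀) = (i u₀)⁻¹ * i u * i u₀` gives `inn`. `good`: `InvI`: `Φ₀ ψ (ι a) = ι (ψ a)`
and if `Φ₀ ψ b = ι a = Φ₀ ψ (ι (ψ.symm a))` then `b = ι (ψ.symm a)`. `EngI m I`: for `x = F u`, `y = F v` the iterate is `F` of the iterate in `Adj R`, which is `1` because its image under `i` is
(`Engel m K`, `SK_iter`). `EngA m I (Φ g ^ j)`: for `x = F u`, `z = F w`, `z⁻¹ * Units.map _ z = F (w⁻¹ * w')` with `i w' = (g ^ j)⁻¹ * i w * g ^ j`, so under `i` it becomes `z ↦ z⁻¹ * (g ^ j)⁻¹ * z * g ^ j`; `Engel m K`. -/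
def Stmt_ACT : Prop := ∀ (K : Type u) [Group K] (R : Type u) [NonUnitalRing R] (i : Adj R →* K) (m : ℕ), Engel m K → (∀ a : R, IsQuasiregular a) →
  FiniteExt K R i → ∃ (S : Type u) (_ : Ring S) (I : AddSubgroup S) (F : Adj R →* Sˣ) (Φ : K → RingAut S), Act i m I F Φ

/-- **NSM** (100). Sums of nilpotent ideals. `T₁ ⊔ T₂`: an element is `a + b` (`AddSubgroup.mem_sup`). If products of `M₁` elements of `T₁` vanish and products of `M₂` elements of `T₂` vanish, a product of `M₁ * M₂` elements `a_i + b_i`: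
group it in `M₂` products of `M₁` factors; each group is in `T₂` (expanding, the only term without a factor `b_i` is `a₁ ⋯ a_(M₁) = 0`; or: modulo the ideal `T₂`, `p_QUO`). Then induction on the finite set. -/
def Stmt_NSM : Prop := ∀ (S : Type u) [Ring S] (κ : Type u) (s : Finset κ) (T : κ → AddSubgroup S), (∀ i ∈ s, IdI (T i) ∧ NilT (T i)) →
  IdI (s.sup T) ∧ NilT (s.sup T)

/-- **INV** (150), uses NSM. `J = ⨆ g, (J₀.map (Φ g))`, where `J₀.map (Φ g) = {Φ g b | b ∈ J₀}`. It is `Φ k`-invariant: `Φ k (Φ g b) = Φ (g * k) b`, and `Φ k` is injective with inverse `Φ k⁻¹` on `I`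
(`Φ 1 b = b` for `b ∈ I`: `Φ (1 * 1) b = Φ 1 (Φ 1 b)` and injectivity). Each `J₀.map (Φ g)` is an ideal (`Φ g` is an automorphism of `S`), contained in `I`, `NilT`. For `n ∈ N`: `Φ (n * g) b = Φ g (Φ n b)` and
`{Φ n b | b ∈ J₀} = J₀` (`x⁻¹ * b * x`), so `J₀.map (Φ g)` depends only on the coset `N g`; `N` has finite index, so `J` is a finite supremum (NSM). -/
def Stmt_INV : Prop := ∀ (S : Type u) [Ring S] (K : Type u) [Group K] (I J₀ : AddSubgroup S) (N : Subgroup K) (Φ : K → RingAut S), N.Normal → N.FiniteIndex →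
  IdI I → (∀ g, InvI I (Φ g)) → (∀ g h : K, ∀ b ∈ I, Φ (g * h) b = Φ h (Φ g b)) →
  (∀ n ∈ N, ∃ x : Sˣ, ∀ b ∈ I, Φ n b = ((x⁻¹ : Sˣ) : S) * b * (x : S)) → IdI J₀ → J₀ ≤ I → NilT J₀ →
  ∃ J : AddSubgroup S, IdI J ∧ J ≤ I ∧ NilT J ∧ J₀ ≤ J ∧ ∀ g, InvI J (Φ g)

/-- **GRH** (120). `C = {c | ∀ x ∈ N, x⁻¹ * c⁻¹ * x * c ∈ L}` is the preimage of the centralizer of `N / L` in `K / L` (`Subgroup.centralizer` of `N.map (QuotientGroup.mk' L)`, normal, `Subgroup.comap`). It is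
soluble: `C ⊓ N` modulo `L` is abelian and `C / (C ⊓ N)` embeds in `K ⧸ N`; use `solvable_of_ker_le_range` or `isSolvable`-lemmas for the homomorphism `C → K ⧸ N`, whose kernel `C ⊓ N` is soluble because its commutators are in `L`. -/
def Stmt_GRH : Prop := ∀ (K : Type u) [Group K] (N L : Subgroup K) [N.Normal], L.Normal → L ≤ N → Group.IsSolvable L → Group.IsSolvable (K ⧸ N) →
  ∀ g : K, (∀ x ∈ N, x⁻¹ * g⁻¹ * x * g ∈ L) → ∃ C : Subgroup K, C.Normal ∧ Group.IsSolvable C ∧ g ∈ C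

end Pool.EA
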